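import Pool.Agent.H90.SN.OptMult

/-!
Project SN (MP_43ee49_co), helper90, module B2Opt: in a nondegenerate polyhedron a node with four rows of
small slack and nonzero multipliers is a bad event `B2`.

`T`: an enumeration `Fin n ≃ tight A y` (`vert_card`), `c' k = c (T k)`; `c i > 0` off `S.erase l` by
`opt_iff` and `hc0`; nonsingular by `mem_vert_iff`; the rows of `S.erase l` are tight at `y`. `J`: a subset
with four elements of the filter set (`Finset.exists_subset_card_eq`); it is disjoint from `S`: the rows of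
`S.erase l` have slack `0`, and `0 < slk A l y ≤ ε slk A l y` is impossible for `ε < 1`.
-/

set_option autoImplicit false

namespace H90SN

open H44SD Finset

variable {m n : ℕ} {A : Fin m → Fin n → ℝ}

theorem B2_of_opt (hN : Nondeg A) {S : Finset (Fin m)} {l : Fin m} (hl : l ∈ S) {ξ : Fin m → ℝ}
    {θ ε κ : ℝ} {v : Fin n → ℝ} (hε : ε < 1) {y : Fin n → ℝ} {c : Fin m → ℝ}
    (hy : Opt A (S.erase l) (obj A ξ θ l) y) (hc : Mult A y (obj A ξ θ l) c)
    (hc0 : ∀ i ∈ tight A y \ S.erase l, c i ≠ 0)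
    (h4 : 4 ≤ ((univ : Finset (Fin m)).filter
      (fun j => 0 < slk A j y ∧ slk A j y ≤ ε * slk A l y)).card)
    (hκ : slk A l y ≤ κ * |dot v y|) :
    ∃ J ∈ powersetCard 4 (univ \ S), B2 A (S.erase l) l J ξ θ ε κ v := by
  obtain ⟨J, hJ1, hJ2⟩ := Finset.exists_subset_card_eq h4
  have hJ : ∀ j ∈ J, 0 < slk A j y ∧ slk A j y ≤ ε * slk A l y := fun j hj =>
    (Finset.mem_filter.1 (hJ1 hj)).2
  have hyp : y ∈ poly A := ((mem_vert_iff A y).1 hy.1).1
  have hpos := (opt_iff hN hy.1 hc hy.2.1).1 hy.2.2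
  refine ⟨J, ?_, ?_⟩
  · rw [mem_powersetCard]
    refine ⟨fun j hj => ?_, hJ2⟩
    rw [mem_sdiff]
    refine ⟨mem_univ _, fun hjS => ?_⟩
    obtain ⟨h1, h2⟩ := hJ j hj
    by_cases hjl : j = l
    · subst hjl
      nlinarith
    · have h3 : j ∈ tight A y := hy.2.1 (Finset.mem_erase.2 ⟨hjl, hjS⟩)
      rw [← slk_eq_zero] at h3
      linarith
  · have e : Fin n ≃ tight A y := ((tight A y).equivFinOfCardEq (vert_card hN hy.1)).symm
    refine ⟨fun k => (e k : Fin m), fun k k' h => e.injective (Subtype.ext h), ?_, ?_, y,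
      fun k => c (e k), ?_, ?_, ?_, hyp, hJ, hκ⟩
    · intro i hi
      exact ⟨e.symm ⟨i, hy.2.1 hi⟩, by simp⟩
    · intro d hd
      refine ((mem_vert_iff A y).1 hy.1).2 d fun i hi => ?_
      have := hd (e.symm ⟨i, hi⟩)
      simpa using this
    · intro k
      exact mem_tight.1 (e k).2
    · have h1 : obj A ξ θ l = ∑ i ∈ tight A y, c i • A i := hc
      rw [h1, ← Finset.sum_coe_sort]
      exact (e.sum_comp (fun i : tight A y => c i • A i)).symm
    · intro k hk
      have h1 : (e k : Fin m) ∈ tight A y \ S.erase l := mem_sdiff.2 ⟨(e k).2, hk⟩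
      exact lt_of_le_of_ne (hpos _ h1) (hc0 _ h1).symm

end H90SN
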