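import Pool.Agent.H90.SN.Defs

/-!
Project SN (MP_43ee49_co), helper90, module B2Sec: geometry of the bad event on a line.

`BT_unique`: for `z ∈ poly A` with `S' ⊆ tight A z`: `dot f z = ∑ c k dot (A (T k)) z ≤ ∑ c k = dot f y`
(`dot (A (T k)) z = 1` if `T k ∈ S'`, otherwise `0 < c k` and the value is `≤ 1`), with equality only if
`dot (A (T k)) z = 1` for all `k`, i.e. `z = y` (nonsingular).
`B2_section`: let `A1 = line A S v s`, `A2 = line A S v s'`, with witnesses `y`, `y'`. The two objectives are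
equal: `w0 A1 ξ - w0 A2 ξ = ∑_{j ∉ S} ξ j (s j - s' j) • v = (∑_{j ∈ J} ξ j (s j - s' j)) • v = 0`
(`J` is disjoint from `S`, equality off `J`; `A1 l = A2 l` since `l ∈ S`). Suppose `y' ≠ y`. For small `t > 0`
the point `z = y + t (y' - y)` is in `poly A1`: rows outside `J` are the same in `A1` and `A2` and both
points satisfy them; rows of `J` have positive slack at `y`. The rows of `S'` are tight at `z`. By
`BT_unique` `dot f z < dot f y`, so `dot f y' < dot f y`; by symmetry `dot f y < dot f y'`, contradiction. So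
`y = y'`. Now for `j ∈ J`: `dot (A1 j) y = dot (A j) y + s j * dot v y`, and the two slacks are both in
`(0, ε * slk A l y]`, so `|s j - s' j| * |dot v y| ≤ ε * slk A l y ≤ ε * κ * |dot v y|`; `dot v y ≠ 0` since
otherwise `slk A l y ≤ 0` and the slack of a row of `J` would be `≤ 0`.
-/

set_option autoImplicit false

namespace H90SN

open H44SD Finset

variable {m n : ℕ} {A : Fin m → Fin n → ℝ}

theorem BT_unique {S' : Finset (Fin m)} {f y : Fin n → ℝ} {c : Fin n → ℝ} {T : Fin n → Fin m}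
    (hns : ∀ d : Fin n → ℝ, (∀ k, dot (A (T k)) d = 0) → d = 0)
    (hy : ∀ k, dot (A (T k)) y = 1) (hf : f = ∑ k, c k • A (T k)) (hc : ∀ k, T k ∉ S' → 0 < c k)
    {z : Fin n → ℝ} (hz : z ∈ poly A) (hSz : S' ⊆ tight A z) (hne : z ≠ y) :
    dot f z < dot f y := by
  have hfd : ∀ x : Fin n → ℝ, dot f x = ∑ k, c k * dot (A (T k)) x := by
    intro x
    rw [hf, sum_dot]
    exact Finset.sum_congr rfl fun k _ => smul_dot _ _ _
  rw [hfd z, hfd y]
  have hle : ∀ k, c k * dot (A (T k)) z ≤ c k * dot (A (T k)) y := by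
    intro k
    rw [hy k]
    by_cases hk : T k ∈ S'
    · rw [mem_tight.1 (hSz hk)]
    · exact mul_le_mul_of_nonneg_left (mem_poly.1 hz (T k)) (hc k hk).le
  obtain ⟨k, hk⟩ : ∃ k, dot (A (T k)) z ≠ 1 := by
    by_contra hcon
    push Not at hcon
    apply hne
    have h1 := hns (z - y) fun k => by rw [dot_sub, hcon k, hy k, sub_self]
    exact sub_eq_zero.1 h1
  refine Finset.sum_lt_sum (fun k _ => hle k) ⟨k, Finset.mem_univ k, ?_⟩
  have hkS : T k ∉ S' := fun h => hk (mem_tight.1 (hSz h))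
  rw [hy k]
  exact mul_lt_mul_of_pos_left (lt_of_le_of_ne (mem_poly.1 hz (T k)) hk) (hc k hkS)

private theorem b2Sec_lt {S' J : Finset (Fin m)} {f y : Fin n → ℝ} {c : Fin n → ℝ} {T : Fin n → Fin m}
    (hns : ∀ d : Fin n → ℝ, (∀ k, dot (A (T k)) d = 0) → d = 0)
    (hy : ∀ k, dot (A (T k)) y = 1) (hf : f = ∑ k, c k • A (T k)) (hc : ∀ k, T k ∉ S' → 0 < c k)
    (hyp : y ∈ poly A) (hSy : S' ⊆ tight A y) (hJ : ∀ j ∈ J, 0 < slk A j y) {y' : Fin n → ℝ}
    (hy' : ∀ i, i ∉ J → dot (A i) y' ≤ 1) (hSy' : S' ⊆ tight A y') (hne : y' ≠ y) :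
    dot f y' < dot f y := by
  have hev : ∀ᶠ t : ℝ in nhdsWithin 0 (Set.Ioi 0), ∀ j ∈ J, t * dot (A j) (y' - y) < slk A j y := by
    rw [Finset.eventually_all]
    intro j hj
    have ht : Filter.Tendsto (fun t : ℝ => t * dot (A j) (y' - y)) (nhds 0) (nhds 0) := by
      have := (continuous_mul_const (dot (A j) (y' - y))).tendsto (0 : ℝ)
      simpa using this
    exact (ht.eventually (gt_mem_nhds (hJ j hj))).filter_mono nhdsWithin_le_nhds
  have h1 : ∀ᶠ t : ℝ in nhdsWithin 0 (Set.Ioi 0), t < 1 :=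
    (gt_mem_nhds one_pos).filter_mono nhdsWithin_le_nhds
  obtain ⟨t, ⟨ht1, ht2⟩, ht3⟩ := ((hev.and h1).and self_mem_nhdsWithin).exists
  have ht3 : 0 < t := ht3
  have hz : ∀ w : Fin n → ℝ, dot w (y + t • (y' - y)) = dot w y + t * (dot w y' - dot w y) := by
    intro w
    rw [dot_add, dot_smul, dot_sub]
  have hzp : y + t • (y' - y) ∈ poly A := by
    rw [mem_poly]
    intro i
    rw [hz]
    by_cases hi : i ∈ J
    · have h2 := ht1 i hi
      rw [dot_sub] at h2
      unfold slk at h2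
      linarith
    · have h2 := hy' i hi
      have h3 := mem_poly.1 hyp i
      nlinarith
  have hzS : S' ⊆ tight A (y + t • (y' - y)) := by
    intro i hi
    rw [mem_tight, hz, mem_tight.1 (hSy hi), mem_tight.1 (hSy' hi)]
    ring
  have hzne : y + t • (y' - y) ≠ y := by
    intro h
    have h2 : t • (y' - y) = 0 := by
      have := congrArg (fun w => w - y) h
      simpa using this
    rcases smul_eq_zero.1 h2 with h3 | h3
    · exact ht3.ne' h3
    · exact hne (sub_eq_zero.1 h3)
  have h2 := BT_unique hns hy hf hc hzp hzS hzne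
  rw [hz] at h2
  have h3 : t * (dot f y' - dot f y) < 0 := by linarith
  have h4 : dot f y' - dot f y < 0 := by
    by_contra hcon
    push Not at hcon
    have := mul_nonneg ht3.le hcon
    linarith
  linarith

theorem B2_section {S S' : Finset (Fin m)} {l : Fin m} {J : Finset (Fin m)} {ξ : Fin m → ℝ}
    {θ ε κ : ℝ} {v : Fin n → ℝ} (hJS : Disjoint J S) (hS' : S' ⊆ S) (hl : l ∈ S)
    (hε : 0 ≤ ε) {s s' : Fin m → ℝ} (h1 : B2 (line A S v s) S' l J ξ θ ε κ v)
    (h2 : B2 (line A S v s') S' l J ξ θ ε κ v) (he : ∀ i, i ∉ J → s i = s' i)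
    (hs : ∑ j ∈ J, ξ j * s j = ∑ j ∈ J, ξ j * s' j) : ∀ j ∈ J, |s j - s' j| ≤ κ * ε := by
  classical
  have hrow : ∀ i, i ∉ J → line A S v s i = line A S v s' i := by
    intro i hi
    unfold line
    rw [he i hi]
  have hlJ : l ∉ J := fun h => (Finset.disjoint_left.1 hJS h) hl
  have hS'J : ∀ i ∈ S', i ∉ J := fun i hi h => (Finset.disjoint_left.1 hJS h) (hS' hi)
  have hobj : obj (line A S v s) ξ θ l = obj (line A S v s') ξ θ l := by
    unfold obj
    rw [hrow l hlJ]
    congr 1
    unfold w0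
    have h3 : ∀ j, ξ j • line A S v s j - ξ j • line A S v s' j =
        if j ∈ J then (ξ j * s j - ξ j * s' j) • v else 0 := by
      intro j
      by_cases hj : j ∈ J
      · rw [if_pos hj]
        have hjS : j ∉ S := fun h => (Finset.disjoint_left.1 hJS hj) h
        unfold line
        rw [if_neg hjS, if_neg hjS]
        module
      · rw [if_neg hj, hrow j hj, sub_self]
    rw [← sub_eq_zero, ← Finset.sum_sub_distrib, Finset.sum_congr rfl fun j _ => h3 j,
      Finset.sum_ite_mem, Finset.univ_inter, ← Finset.sum_smul, Finset.sum_sub_distrib, hs, sub_self,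
      zero_smul]
  obtain ⟨T, -, hcov, hns, y, c, hy, hf, hc, hyp, hJ, hsl⟩ := h1
  obtain ⟨T', -, hcov', hns', y', c', hy', hf', hc', hyp', hJ', hsl'⟩ := h2
  have hSy : S' ⊆ tight (line A S v s) y := by
    intro i hi
    obtain ⟨k, rfl⟩ := hcov i hi
    exact mem_tight.2 (hy k)
  have hSy' : S' ⊆ tight (line A S v s') y' := by
    intro i hi
    obtain ⟨k, rfl⟩ := hcov' i hi
    exact mem_tight.2 (hy' k)
  have hyy : y' = y := by
    by_contra hne
    have h3 := b2Sec_lt hns hy hf hc hyp hSy (fun j hj => (hJ j hj).1) (y' := y')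
      (fun i hi => by rw [hrow i hi]; exact mem_poly.1 hyp' i)
      (fun i hi => by
        rw [mem_tight, hrow i (hS'J i hi)]
        exact mem_tight.1 (hSy' hi)) hne
    have h4 := b2Sec_lt hns' hy' hf' hc' hyp' hSy' (fun j hj => (hJ' j hj).1) (y' := y)
      (fun i hi => by rw [← hrow i hi]; exact mem_poly.1 hyp i)
      (fun i hi => by
        rw [mem_tight, ← hrow i (hS'J i hi)]
        exact mem_tight.1 (hSy hi)) (Ne.symm hne)
    rw [hobj] at h3
    exact lt_asymm h3 h4
  subst hyy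
  intro j hj
  have hjS : j ∉ S := fun h => (Finset.disjoint_left.1 hJS hj) h
  obtain ⟨a1, a2⟩ := hJ j hj
  obtain ⟨b1, b2⟩ := hJ' j hj
  have hsl2 : slk (line A S v s') l y' = slk (line A S v s) l y' := by
    unfold slk
    rw [hrow l hlJ]
  rw [hsl2] at b2
  set σ : ℝ := slk (line A S v s) l y' with hσ
  have hdiff : slk (line A S v s') j y' - slk (line A S v s) j y' = (s j - s' j) * dot v y' := by
    unfold slk line
    rw [if_neg hjS, if_neg hjS, add_dot, add_dot, smul_dot, smul_dot]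
    ring
  have hbd : |(s j - s' j) * dot v y'| ≤ ε * σ := by
    rw [← hdiff, abs_le]
    constructor <;> linarith
  rw [abs_mul] at hbd
  have hv0 : 0 < |dot v y'| := by
    rcases (abs_nonneg (dot v y')).eq_or_lt with h5 | h5
    · exfalso
      rw [← h5, mul_zero] at hsl
      have : ε * σ ≤ 0 := mul_nonpos_of_nonneg_of_nonpos hε hsl
      linarith
    · exact h5
  have h6 : ε * σ ≤ ε * (κ * |dot v y'|) := mul_le_mul_of_nonneg_left hsl hε
  have h7 : |s j - s' j| * |dot v y'| ≤ κ * ε * |dot v y'| := by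
    calc |s j - s' j| * |dot v y'| ≤ ε * (κ * |dot v y'|) := hbd.trans h6
      _ = κ * ε * |dot v y'| := by ring
  exact le_of_mul_le_mul_right h7 hv0

end H90SN
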