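import Pool.Agent.H90.SN.Defs

/-!
Project SN (MP_43ee49_co), helper90, module CBInt: expectation of the number of bad weights.

`CB ≤ ∑ ι, ∑ k ∈ range (K+1), ∑ J ∈ powersetCard 4 (univ \ S), [B2 … holds]`; take the integral (finite sums
of indicators of measurable sets), there are `N^m` weights, `K + 1` values of `k` and at most
`m.choose 4 ≤ m^4` sets `J`. (The hypothesis `hm` is `measurableSet_B2`.)
-/

set_option autoImplicit false

namespace H90SN

open H44SD Finset MeasureTheory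

theorem lintegral_CB_le {Ω : Type*} [MeasurableSpace Ω] (μ : Measure Ω) {m n : ℕ}
    (A : Ω → Fin m → Fin n → ℝ) (v : Ω → Fin n → ℝ) (S : Finset (Fin m)) (l : Fin m) (N K : ℕ)
    (ε κ : ℝ)
    (hm : ∀ (J : Finset (Fin m)) (ξ : Fin m → ℝ) (θ : ℝ),
      MeasurableSet {ω | B2 (A ω) (S.erase l) l J ξ θ ε κ (v ω)}) (q : ENNReal)
    (hq : ∀ J ∈ powersetCard 4 (univ \ S), ∀ (ι : Fin m → Fin N) (θ : ℝ),
      μ {ω | B2 (A ω) (S.erase l) l J (xi ι) θ ε κ (v ω)} ≤ q) :
    ∫⁻ ω, ((CB (A ω) S l N K ε κ (v ω) : ℕ) : ENNReal) ∂μ ≤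
      (N : ENNReal) ^ m * (K + 1) * (m : ENNReal) ^ 4 * q := by
  classical
  have hpt : ∀ ω, ((CB (A ω) S l N K ε κ (v ω) : ℕ) : ENNReal) ≤
      ∑ ι : Fin m → Fin N, ∑ k ∈ range (K + 1), ∑ J ∈ powersetCard 4 (univ \ S),
        Set.indicator {ω | B2 (A ω) (S.erase l) l J (xi ι) (k * ε ^ 2) ε κ (v ω)}
          (fun _ => (1 : ENNReal)) ω := by
    intro ω
    unfold CB
    rw [Finset.card_eq_sum_ones, Finset.sum_filter]
    push_cast
    apply Finset.sum_le_sum
    intro ι _
    split_ifs with h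
    · obtain ⟨k, hk, J, hJ, hB⟩ := h
      have h1 : (1 : ENNReal) ≤ Set.indicator
          {ω | B2 (A ω) (S.erase l) l J (xi ι) (k * ε ^ 2) ε κ (v ω)} (fun _ => (1 : ENNReal)) ω := by
        rw [Set.indicator_of_mem]
        exact hB
      have h2 : Set.indicator
          {ω | B2 (A ω) (S.erase l) l J (xi ι) (k * ε ^ 2) ε κ (v ω)} (fun _ => (1 : ENNReal)) ω ≤
          ∑ J ∈ powersetCard 4 (univ \ S), Set.indicator
          {ω | B2 (A ω) (S.erase l) l J (xi ι) (k * ε ^ 2) ε κ (v ω)} (fun _ => (1 : ENNReal)) ω :=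
        Finset.single_le_sum (f := fun J => Set.indicator
          {ω | B2 (A ω) (S.erase l) l J (xi ι) (k * ε ^ 2) ε κ (v ω)} (fun _ => (1 : ENNReal)) ω)
          (fun _ _ => zero_le) hJ
      have h3 : ∑ J ∈ powersetCard 4 (univ \ S), Set.indicator
          {ω | B2 (A ω) (S.erase l) l J (xi ι) (k * ε ^ 2) ε κ (v ω)} (fun _ => (1 : ENNReal)) ω ≤
          ∑ k ∈ range (K + 1), ∑ J ∈ powersetCard 4 (univ \ S), Set.indicator
          {ω | B2 (A ω) (S.erase l) l J (xi ι) (k * ε ^ 2) ε κ (v ω)} (fun _ => (1 : ENNReal)) ω :=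
        Finset.single_le_sum (f := fun k : ℕ => ∑ J ∈ powersetCard 4 (univ \ S), Set.indicator
          {ω | B2 (A ω) (S.erase l) l J (xi ι) (k * ε ^ 2) ε κ (v ω)} (fun _ => (1 : ENNReal)) ω)
          (fun _ _ => zero_le) (Finset.mem_range.2 (by omega))
      exact h1.trans (h2.trans h3)
    · exact zero_le
  have hmeas : ∀ (ι : Fin m → Fin N) (k : ℕ) (J : Finset (Fin m)), Measurable (fun ω =>
      Set.indicator {ω | B2 (A ω) (S.erase l) l J (xi ι) (k * ε ^ 2) ε κ (v ω)}
          (fun _ => (1 : ENNReal)) ω) := by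
    intro ι k J
    exact measurable_const.indicator (hm J (xi ι) (k * ε ^ 2))
  have hval : ∀ (ι : Fin m → Fin N) (k : ℕ), ∀ J ∈ powersetCard 4 (univ \ S), ∫⁻ ω,
      Set.indicator {ω | B2 (A ω) (S.erase l) l J (xi ι) (k * ε ^ 2) ε κ (v ω)}
          (fun _ => (1 : ENNReal)) ω ∂μ ≤ q := by
    intro ι k J hJ
    rw [lintegral_indicator (hm J (xi ι) (k * ε ^ 2))]
    simp only [lintegral_const, one_mul, Measure.restrict_apply, MeasurableSet.univ,
      Set.univ_inter]
    exact hq J hJ ι _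
  have hcard : (((powersetCard 4 (univ \ S)).card : ℕ) : ENNReal) ≤ (m : ENNReal) ^ 4 := by
    rw [Finset.card_powersetCard]
    have h1 : ((univ \ S : Finset (Fin m)).card).choose 4 ≤ m ^ 4 := by
      calc ((univ \ S : Finset (Fin m)).card).choose 4
          ≤ (univ \ S : Finset (Fin m)).card ^ 4 := Nat.choose_le_pow _ _
        _ ≤ m ^ 4 := by
          apply Nat.pow_le_pow_left
          calc (univ \ S : Finset (Fin m)).card ≤ (univ : Finset (Fin m)).card :=
                Finset.card_le_card (Finset.subset_univ _)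
            _ = m := by simp
    exact_mod_cast h1
  calc ∫⁻ ω, ((CB (A ω) S l N K ε κ (v ω) : ℕ) : ENNReal) ∂μ
      ≤ ∫⁻ ω, ∑ ι : Fin m → Fin N, ∑ k ∈ range (K + 1), ∑ J ∈ powersetCard 4 (univ \ S),
        Set.indicator {ω | B2 (A ω) (S.erase l) l J (xi ι) (k * ε ^ 2) ε κ (v ω)}
          (fun _ => (1 : ENNReal)) ω ∂μ := lintegral_mono hpt
    _ = ∑ ι : Fin m → Fin N, ∑ k ∈ range (K + 1), ∑ J ∈ powersetCard 4 (univ \ S), ∫⁻ ω,
        Set.indicator {ω | B2 (A ω) (S.erase l) l J (xi ι) (k * ε ^ 2) ε κ (v ω)}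
          (fun _ => (1 : ENNReal)) ω ∂μ := by
        rw [lintegral_finsetSum]
        · apply Finset.sum_congr rfl
          intro ι _
          rw [lintegral_finsetSum]
          · apply Finset.sum_congr rfl
            intro k _
            rw [lintegral_finsetSum]
            intro J _
            exact hmeas ι k J
          · intro k _
            exact Finset.measurable_sum _ (fun J _ => hmeas ι k J)
        · intro ι _
          exact Finset.measurable_sum _ (fun k _ => Finset.measurable_sum _ (fun J _ => hmeas ι k J))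
    _ ≤ ∑ ι : Fin m → Fin N, ∑ k ∈ range (K + 1), ∑ J ∈ powersetCard 4 (univ \ S), q :=
        Finset.sum_le_sum (fun ι _ => Finset.sum_le_sum (fun k _ =>
          Finset.sum_le_sum (fun J hJ => hval ι k J hJ)))
    _ = (N : ENNReal) ^ m * (K + 1) * ((((powersetCard 4 (univ \ S)).card : ℕ) : ENNReal) * q) := by
        simp only [Finset.sum_const, nsmul_eq_mul, Finset.card_range, Finset.card_univ,
          Fintype.card_fun, Fintype.card_fin]
        push_cast
        ring
    _ ≤ (N : ENNReal) ^ m * (K + 1) * ((m : ENNReal) ^ 4 * q) := by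
        gcongr
    _ = (N : ENNReal) ^ m * (K + 1) * (m : ENNReal) ^ 4 * q := by ring

end H90SN
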