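import Pool.Agent.H90.SN.Defs
import Pool.Agent.H44.SD.Pivot
import Pool.Agent.H44.SD.CountVert

/-!
Project SN (MP_43ee49_co), helper90, module OptExists: optimal vertices of faces exist.

`opt_exists`: the set `{v ∈ Vert A | S ⊆ tight A v}` is finite (`vert_finite`) and contains `x`; let `y` be
a member with maximal `dot f y`. If some `z ∈ poly A` with `S ⊆ tight A z` had `dot f y < dot f z` then
`H44SD.pivot` gives a better vertex of the face. `w0_le`: `dot (A j) z ≤ 1` and `0 ≤ ξ j ≤ 2`.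
-/

set_option autoImplicit false

namespace H90SN

open H44SD Finset

variable {m n : ℕ} {A : Fin m → Fin n → ℝ}

theorem opt_exists (hN : Nondeg A) {x : Fin n → ℝ} (hx : x ∈ Vert A) {S : Finset (Fin m)}
    (hS : S ⊆ tight A x) {f : Fin n → ℝ} {b : ℝ} (hb : ∀ z ∈ poly A, dot f z ≤ b) :
    ∃ y, Opt A S f y := by
  have hfin : {v | v ∈ Vert A ∧ S ⊆ tight A v}.Finite := (vert_finite A).subset fun v hv => hv.1
  obtain ⟨y, hy, hmax⟩ := Set.exists_max_image _ (fun v => dot f v) hfin ⟨x, hx, hS⟩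
  refine ⟨y, hy.1, hy.2, ?_⟩
  intro z hz hSz
  by_contra hlt
  push Not at hlt
  obtain ⟨x', hx', hSx', hlt', _⟩ := pivot hN hy.1 S hy.2 f b (fun z hz _ => hb z hz) hz hSz hlt
  exact absurd (hmax x' ⟨hx', hSx'⟩) (not_le.2 hlt')

theorem w0_le {ξ : Fin m → ℝ} (hξ : ∀ j, 0 ≤ ξ j ∧ ξ j ≤ 2) {z : Fin n → ℝ} (hz : z ∈ poly A) :
    dot (w0 A ξ) z ≤ 2 * m := by
  unfold w0
  rw [sum_dot]
  calc ∑ j, dot (ξ j • A j) z ≤ ∑ _j : Fin m, (2 : ℝ) := by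
        refine Finset.sum_le_sum fun j _ => ?_
        rw [smul_dot]
        have h1 := mem_poly.1 hz j
        have h2 := hξ j
        nlinarith
    _ = 2 * m := by
        rw [Finset.sum_const, Finset.card_univ, Fintype.card_fin, nsmul_eq_mul]
        ring

theorem obj_le {ξ : Fin m → ℝ} (hξ : ∀ j, 0 ≤ ξ j ∧ ξ j ≤ 2) {θ : ℝ} (hθ : 0 ≤ θ) (l : Fin m)
    {z : Fin n → ℝ} (hz : z ∈ poly A) : dot (obj A ξ θ l) z ≤ 2 * m + θ := by
  unfold obj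
  rw [add_dot, smul_dot]
  have h1 := w0_le hξ hz
  have h2 := mem_poly.1 hz l
  have h3 : θ * dot (A l) z ≤ θ * 1 := mul_le_mul_of_nonneg_left h2 hθ
  linarith

theorem obj_opt_exists (hN : Nondeg A) {x : Fin n → ℝ} (hx : x ∈ Vert A) {S : Finset (Fin m)}
    (hS : S ⊆ tight A x) {ξ : Fin m → ℝ} (hξ : ∀ j, 0 ≤ ξ j ∧ ξ j ≤ 2) {θ : ℝ} (hθ : 0 ≤ θ)
    (l : Fin m) : ∃ y, Opt A S (obj A ξ θ l) y :=
  opt_exists hN hx hS fun _ hz => obj_le hξ hθ l hz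

theorem w0_opt_exists (hN : Nondeg A) {x : Fin n → ℝ} (hx : x ∈ Vert A) {S : Finset (Fin m)}
    (hS : S ⊆ tight A x) {ξ : Fin m → ℝ} (hξ : ∀ j, 0 ≤ ξ j ∧ ξ j ≤ 2) :
    ∃ y, Opt A S (w0 A ξ) y :=
  opt_exists hN hx hS fun _ hz => w0_le hξ hz

end H90SN
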