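import Pool.Agent.H90.SN.OptMult
import Pool.Agent.H90.SN.OptExists

/-!
Project SN (MP_43ee49_co), helper90, module MultBound: lower bound of the multiplier of a row which is
released next to a nice vertex.

For `i ∈ tight A x` let `e i` be the direction of `exists_dir` (`dot (A i) (e i) = -1`, `0` on the other
tight rows); the third part of `Nice` gives `|e i k| ≤ 1/δ`, and, applied to `d = x`, `|x k| ≤ 1/δ`. Put
`τ = δ² / (2 n R)` and `p = x + τ ∑_{i ∈ tight A x \ S} e i`. Then: rows `i ∈ S` are tight at `p`; rows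
`i ∈ tight A x \ S` have slack `τ`; rows `j ∉ tight A x` have slack at least
`δ - τ n R / δ = δ/2 ≥ τ` (`(tight A x).card = n`, `|dot (A j) (e i)| ≤ R/δ` by `abs_dot_le`). So
`p ∈ poly A`, `S ⊆ tight A p`, slacks off `S` are `≥ τ`, `|p k| ≤ 1/δ + τ n/δ ≤ 2/δ`.
With `w = w0 A ξ`: `dot_sub_eq` at `y` gives `τ ∑_{tight A y \ S} c i ≤ dot w y - dot w p`
`≤ 2 m + 4 m R/δ ≤ 6 m R/δ` (`w0_le`; `|dot (A j) p| ≤ 2R/δ`), so
`∑_{tight A y \ S} c i ≤ 12 m n R² / δ³` (all `c i ≥ 0` there by `opt_iff`).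
Finally `dot w (e l) = ∑_{tight A y} c i dot (A i) (e l) = - c l + ∑_{tight A y \ S} c i dot (A i) (e l)` (for
`i ∈ S`, `i ≠ l` the value is `0` since `S ⊆ tight A x`), `|dot w (e l)| ≤ 2 m R / δ`, so
`c l ≥ - 2 m R/δ - 12 m n R³/δ⁴ ≥ - 14 m n R³/δ⁴` (`n ≥ 1` because `l ∈ tight A x`).
-/

set_option autoImplicit false

namespace H90SN

open H44SD Finset

variable {m n : ℕ} {A : Fin m → Fin n → ℝ}

private theorem MultBound_dot_sum {n : ℕ} {ι : Type*} (s : Finset ι) (v : Fin n → ℝ)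
    (d : ι → Fin n → ℝ) : dot v (∑ i ∈ s, d i) = ∑ i ∈ s, dot v (d i) := by
  classical
  induction s using Finset.induction_on with
  | empty => simp [dot_zero]
  | insert a s ha ih => rw [Finset.sum_insert ha, Finset.sum_insert ha, dot_add, ih]

private theorem MultBound_w0 {m n : ℕ} {A : Fin m → Fin n → ℝ} {R X : ℝ} (hX : 0 ≤ X)
    (hrow : ∀ i, ∑ k, |A i k| ≤ R) {ξ : Fin m → ℝ} (hξ : ∀ j, 0 ≤ ξ j ∧ ξ j ≤ 2)
    {d : Fin n → ℝ} (hd : ∀ k, |d k| ≤ X) : |dot (w0 A ξ) d| ≤ 2 * m * (R * X) := by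
  unfold w0
  rw [sum_dot]
  refine (Finset.abs_sum_le_sum_abs _ _).trans ?_
  have h1 : ∀ j ∈ (univ : Finset (Fin m)), |dot (ξ j • A j) d| ≤ 2 * (R * X) := by
    intro j _
    rw [smul_dot, abs_mul, abs_of_nonneg (hξ j).1]
    have h2 : |dot (A j) d| ≤ R * X :=
      (abs_dot_le _ _ hd).trans (mul_le_mul_of_nonneg_right (hrow j) hX)
    exact mul_le_mul (hξ j).2 h2 (abs_nonneg _) (by norm_num)
  refine (Finset.sum_le_sum h1).trans ?_
  rw [Finset.sum_const, Finset.card_univ, Fintype.card_fin, nsmul_eq_mul]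
  apply le_of_eq
  ring

theorem mult_bound (hN : Nondeg A) {δ R : ℝ} (hδ : 0 < δ) (hδ1 : δ ≤ 1) (hR : 1 ≤ R)
    (hrow : ∀ i, ∑ k, |A i k| ≤ R) {x : Fin n → ℝ} (hx : Nice A δ x) {S : Finset (Fin m)}
    (hS : S ⊆ tight A x) {l : Fin m} (hl : l ∈ S) {ξ : Fin m → ℝ} (hξ : ∀ j, 0 ≤ ξ j ∧ ξ j ≤ 2)
    {y : Fin n → ℝ} (hy : Opt A S (w0 A ξ) y) {c : Fin m → ℝ} (hc : Mult A y (w0 A ξ) c) :
    -(14 * m * n * R ^ 3 / δ ^ 4) ≤ c l := by
  classical
  obtain ⟨hxV, hxs, hxd⟩ := hx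
  obtain ⟨hyV, hSy, hymax⟩ := hy
  have hcard := vert_card hN hxV
  have hn1 : 1 ≤ n := by
    rw [← hcard]
    exact Finset.card_pos.2 ⟨l, hS hl⟩
  have hnR : (1 : ℝ) ≤ n := by exact_mod_cast hn1
  have hn0 : (0 : ℝ) < n := by linarith
  have hR0 : 0 < R := by linarith
  have hm0 : (0 : ℝ) ≤ m := Nat.cast_nonneg _
  have hd0 : 0 ≤ 1 / δ := by positivity
  have h1d : 1 ≤ 1 / δ := by rw [le_div_iff₀ hδ]; linarith
  -- the directions
  have hdir : ∀ i : Fin m, ∃ d : Fin n → ℝ, i ∈ tight A x → dot (A i) d = -1 ∧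
      ∀ j ∈ tight A x, j ≠ i → dot (A j) d = 0 := by
    intro i
    by_cases hi : i ∈ tight A x
    · obtain ⟨d, hd⟩ := exists_dir hN hxV hi
      exact ⟨d, fun _ => hd⟩
    · exact ⟨0, fun h => absurd h hi⟩
  choose e he using hdir
  have heb : ∀ i ∈ tight A x, ∀ k, |e i k| ≤ 1 / δ := by
    intro i hi
    refine hxd (e i) fun j hj => ?_
    by_cases hji : j = i
    · rw [hji, (he i hi).1]
      norm_num
    · rw [(he i hi).2 j hj hji]
      norm_num
  have hxb : ∀ k, |x k| ≤ 1 / δ := by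
    refine hxd x fun j hj => ?_
    rw [mem_tight.1 hj]
    norm_num
  set τ : ℝ := δ ^ 2 / (2 * n * R) with hτ
  have hτ0 : 0 < τ := by positivity
  have hτn : τ * n * R / δ = δ / 2 := by
    rw [hτ]
    field_simp
  have hτδ : τ ≤ δ / 2 := by
    have h1 : τ * 1 ≤ τ * (n * R) :=
      mul_le_mul_of_nonneg_left (one_le_mul_of_one_le_of_one_le hnR hR) hτ0.le
    have h2 : τ * (n * R) = δ ^ 2 / 2 := by
      rw [hτ]
      field_simp
    have h3 : δ ^ 2 ≤ δ := by nlinarith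
    linarith
  set D : Fin n → ℝ := ∑ i ∈ tight A x \ S, e i with hD
  set p : Fin n → ℝ := x + τ • D with hp
  have hcardS : ((tight A x \ S).card : ℝ) ≤ n := by
    have h1 : (tight A x \ S).card ≤ (tight A x).card := Finset.card_le_card Finset.sdiff_subset
    rw [hcard] at h1
    exact_mod_cast h1
  have hDb : ∀ k, |D k| ≤ n / δ := by
    intro k
    rw [hD, Finset.sum_apply]
    refine (Finset.abs_sum_le_sum_abs _ _).trans ?_
    have h1 : ∀ i ∈ tight A x \ S, |e i k| ≤ 1 / δ := fun i hi =>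
      heb i (Finset.mem_sdiff.1 hi).1 k
    refine (Finset.sum_le_sum h1).trans ?_
    rw [Finset.sum_const, nsmul_eq_mul]
    calc ((tight A x \ S).card : ℝ) * (1 / δ) ≤ n * (1 / δ) :=
          mul_le_mul_of_nonneg_right hcardS hd0
      _ = n / δ := by ring
  have hdotp : ∀ j, dot (A j) p = dot (A j) x + τ * ∑ i ∈ tight A x \ S, dot (A j) (e i) := by
    intro j
    rw [hp, dot_add, dot_smul, hD, MultBound_dot_sum]
  have hpS : ∀ j ∈ S, dot (A j) p = 1 := by
    intro j hj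
    rw [hdotp, mem_tight.1 (hS hj), Finset.sum_eq_zero, mul_zero, add_zero]
    intro i hi
    have hi' := Finset.mem_sdiff.1 hi
    refine (he i hi'.1).2 j (hS hj) ?_
    rintro rfl
    exact hi'.2 hj
  have hpT : ∀ j ∉ S, dot (A j) p ≤ 1 - τ := by
    intro j hj
    by_cases hjt : j ∈ tight A x
    · have hjm : j ∈ tight A x \ S := Finset.mem_sdiff.2 ⟨hjt, hj⟩
      rw [hdotp, mem_tight.1 hjt, Finset.sum_eq_single_of_mem j hjm, (he j hjt).1]
      · linarith
      · intro i hi hij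
        exact (he i (Finset.mem_sdiff.1 hi).1).2 j hjt hij.symm
    · have h1 : dot (A j) x ≤ 1 - δ := by
        rcases hxs j with h | h
        · exact absurd (mem_tight.2 h) hjt
        · exact h
      have h2 : |dot (A j) D| ≤ R * (n / δ) :=
        (abs_dot_le _ _ hDb).trans (mul_le_mul_of_nonneg_right (hrow j) (by positivity))
      have h3 : τ * dot (A j) D ≤ δ / 2 := by
        calc τ * dot (A j) D ≤ τ * (R * (n / δ)) :=
              mul_le_mul_of_nonneg_left ((le_abs_self _).trans h2) hτ0.le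
          _ = τ * n * R / δ := by ring
          _ = δ / 2 := hτn
      rw [hp, dot_add, dot_smul]
      linarith
  have hppoly : p ∈ poly A := by
    rw [mem_poly]
    intro j
    by_cases hj : j ∈ S
    · exact (hpS j hj).le
    · have := hpT j hj
      linarith
  have hpb : ∀ k, |p k| ≤ 2 / δ := by
    intro k
    have h1 : |τ * D k| ≤ 1 / δ := by
      rw [abs_mul, abs_of_pos hτ0]
      calc τ * |D k| ≤ τ * (n / δ) := mul_le_mul_of_nonneg_left (hDb k) hτ0.le
        _ ≤ τ * (n / δ) * R := le_mul_of_one_le_right (by positivity) hR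
        _ = τ * n * R / δ := by ring
        _ = δ / 2 := hτn
        _ ≤ 1 / δ := by linarith
    calc |p k| = |x k + τ * D k| := by rw [hp]; rfl
      _ ≤ |x k| + |τ * D k| := abs_add_le _ _
      _ ≤ 1 / δ + 1 / δ := add_le_add (hxb k) h1
      _ = 2 / δ := by ring
  -- nonnegative multipliers
  have hcpos := (opt_iff hN hyV hc hSy).1 hymax
  have hypoly : y ∈ poly A := ((mem_vert_iff A y).1 hyV).1
  have hsum := dot_sub_eq hc p
  have hsum2 : ∑ i ∈ tight A y, c i * slk A i p = ∑ i ∈ tight A y \ S, c i * slk A i p := by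
    symm
    refine Finset.sum_subset Finset.sdiff_subset ?_
    intro i hi hi2
    have hiS : i ∈ S := by
      by_contra h
      exact hi2 (Finset.mem_sdiff.2 ⟨hi, h⟩)
    rw [slk_eq_zero.2 (mem_tight.2 (hpS i hiS)), mul_zero]
  have hlow : τ * ∑ i ∈ tight A y \ S, c i ≤ ∑ i ∈ tight A y \ S, c i * slk A i p := by
    rw [Finset.mul_sum]
    refine Finset.sum_le_sum fun i hi => ?_
    have h1 : τ ≤ slk A i p := by
      unfold slk
      have := hpT i (Finset.mem_sdiff.1 hi).2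
      linarith
    rw [mul_comm]
    exact mul_le_mul_of_nonneg_left h1 (hcpos i hi)
  have hwy : dot (w0 A ξ) y ≤ 2 * m := w0_le hξ hypoly
  have hwp : |dot (w0 A ξ) p| ≤ 2 * m * (R * (2 / δ)) := MultBound_w0 (by positivity) hrow hξ hpb
  set C : ℝ := ∑ i ∈ tight A y \ S, c i with hC
  have hτC : τ * C ≤ 6 * m * R / δ := by
    have h1 : τ * C ≤ 2 * m + 2 * m * (R * (2 / δ)) := by
      have := neg_le_of_abs_le hwp
      linarith
    have h2 : (2 : ℝ) * m ≤ 2 * m * (R / δ) := by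
      have h3 : 1 ≤ R / δ := by rw [le_div_iff₀ hδ]; linarith
      exact le_mul_of_one_le_right (by positivity) h3
    calc τ * C ≤ 2 * m + 2 * m * (R * (2 / δ)) := h1
      _ ≤ 2 * m * (R / δ) + 2 * m * (R * (2 / δ)) := by linarith
      _ = 6 * m * R / δ := by ring
  have hCb : C ≤ 12 * m * n * R ^ 2 / δ ^ 3 := by
    have h1 : C = (2 * n * R / δ ^ 2) * (τ * C) := by
      rw [hτ]
      field_simp
    rw [h1]
    calc (2 * n * R / δ ^ 2) * (τ * C) ≤ (2 * n * R / δ ^ 2) * (6 * m * R / δ) :=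
          mul_le_mul_of_nonneg_left hτC (by positivity)
      _ = 12 * m * n * R ^ 2 / δ ^ 3 := by
          field_simp
          ring
  -- the direction of l
  have hlt : l ∈ tight A x := hS hl
  have hwe : |dot (w0 A ξ) (e l)| ≤ 2 * m * (R * (1 / δ)) :=
    MultBound_w0 hd0 hrow hξ (heb l hlt)
  have hexp : dot (w0 A ξ) (e l) = ∑ i ∈ tight A y, c i * dot (A i) (e l) := by
    have hcc : w0 A ξ = ∑ i ∈ tight A y, c i • A i := hc
    rw [hcc, sum_dot]
    exact Finset.sum_congr rfl fun i _ => smul_dot _ _ _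
  have hsplit : ∑ i ∈ tight A y, c i * dot (A i) (e l) =
      ∑ i ∈ tight A y \ S, c i * dot (A i) (e l) + ∑ i ∈ S, c i * dot (A i) (e l) :=
    (Finset.sum_sdiff hSy).symm
  have hSsum : ∑ i ∈ S, c i * dot (A i) (e l) = -c l := by
    rw [Finset.sum_eq_single_of_mem l hl, (he l hlt).1]
    · ring
    · intro i hi hil
      rw [(he l hlt).2 i (hS hi) hil, mul_zero]
  have hrest : |∑ i ∈ tight A y \ S, c i * dot (A i) (e l)| ≤ C * (R * (1 / δ)) := by
    refine (Finset.abs_sum_le_sum_abs _ _).trans ?_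
    rw [hC, Finset.sum_mul]
    refine Finset.sum_le_sum fun i hi => ?_
    rw [abs_mul, abs_of_nonneg (hcpos i hi)]
    refine mul_le_mul_of_nonneg_left ?_ (hcpos i hi)
    exact (abs_dot_le _ _ (heb l hlt)).trans (mul_le_mul_of_nonneg_right (hrow i) hd0)
  have hfin : -(2 * m * (R * (1 / δ))) - C * (R * (1 / δ)) ≤ c l := by
    have h1 := le_abs_self (dot (w0 A ξ) (e l))
    have h2 := neg_le_of_abs_le hrest
    have h3 : c l = -dot (w0 A ξ) (e l) + ∑ i ∈ tight A y \ S, c i * dot (A i) (e l) := by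
      rw [hexp, hsplit, hSsum]
      ring
    rw [h3]
    linarith
  have hCR : C * (R * (1 / δ)) ≤ 12 * m * n * R ^ 3 / δ ^ 4 := by
    calc C * (R * (1 / δ)) ≤ (12 * m * n * R ^ 2 / δ ^ 3) * (R * (1 / δ)) :=
          mul_le_mul_of_nonneg_right hCb (by positivity)
      _ = 12 * m * n * R ^ 3 / δ ^ 4 := by
          field_simp
  have h2m : 2 * m * (R * (1 / δ)) ≤ 2 * m * n * R ^ 3 / δ ^ 4 := by
    have h1 : 1 ≤ n * R ^ 2 / δ ^ 3 := by
      rw [le_div_iff₀ (by positivity), one_mul]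
      have h4 : δ ^ 3 ≤ 1 := pow_le_one₀ hδ.le hδ1
      have h5 : 1 ≤ (n : ℝ) * R ^ 2 := one_le_mul_of_one_le_of_one_le hnR (one_le_pow₀ hR)
      linarith
    calc 2 * m * (R * (1 / δ)) ≤ 2 * m * (R * (1 / δ)) * (n * R ^ 2 / δ ^ 3) :=
          le_mul_of_one_le_right (by positivity) h1
      _ = 2 * m * n * R ^ 3 / δ ^ 4 := by
          field_simp
  have hend : (14 * m * n * R ^ 3 / δ ^ 4 : ℝ) =
      2 * m * n * R ^ 3 / δ ^ 4 + 12 * m * n * R ^ 3 / δ ^ 4 := by ring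
  rw [hend]
  linarith

end H90SN
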