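import Pool.Agent.H90.SN.Trans
import Pool.Agent.H90.SN.MultBound

/-!
Project SN (MP_43ee49_co), helper90, module Chain: from a nice vertex to the common hub.

Claim, by induction on `S.card`: for nonempty `S ⊆ tight A x` there is a set `Z` of weights with
`4 n Z.card ≤ S.card N^m` such that for `ι ∉ Z`, for every `y` with `Opt A S (w0 A (xi ι)) y` and every `h`
with `Opt A ∅ (w0 A (xi ι)) h`: `edist y h ≤ S.card K (m+1)^5`. Take `l` from `HS`, `Z_1` the set of weights with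
`¬ GoodXi A S l (xi ι) ε K`; `trans_dist` with multipliers from `exists_coef` and `mult_bound`, `hK`
(`xi_bounds`). If `S.erase l = ∅` take `Z = Z_1`, otherwise `Z = Z_1 ∪ Z(S.erase l)` and an optimal vertex
`y'` for `S.erase l` (`w0_opt_exists`).
Apply it to `S = tight A x` (`n` elements; nonempty if `n ≥ 1`), for which `x` is optimal: a point of the
polyhedron with `tight A x` tight is `x`. For two nice vertices the two exceptional sets have together at
most `N^m / 2 < N^m` elements; choose a common `ι` and a common `h` (`w0_opt_exists` for `∅`). If `n = 0`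
then `x = y` (`Fin 0 → ℝ` has one element).
-/

set_option autoImplicit false

namespace H90SN

open H44SD Finset

variable {m n : ℕ} {A : Fin m → Fin n → ℝ}

private theorem Chain_xi {N : ℕ} (ι : Fin m → Fin N) : ∀ j, 0 ≤ xi ι j ∧ xi ι j ≤ 2 := fun j =>
  ⟨le_trans zero_le_one (xi_bounds ι j).1, (xi_bounds ι j).2⟩

open Classical in
private theorem Chain_aux (hN : Nondeg A) {δ R ε : ℝ} (hδ : 0 < δ) (hδ1 : δ ≤ 1) (hR : 1 ≤ R)
    (hrow : ∀ i, ∑ k, |A i k| ≤ R) {K N : ℕ} (hε : 0 < ε)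
    (hK : 14 * m * n * R ^ 3 / δ ^ 4 ≤ K * ε ^ 2)
    (HS : ∀ S : Finset (Fin m), S.Nonempty → ∀ x ∈ Vert A, S ⊆ tight A x → ∃ l ∈ S,
      4 * n * ((univ : Finset (Fin m → Fin N)).filter
        (fun ι => ¬ GoodXi A S l (xi ι) ε K)).card ≤ N ^ m)
    {x : Fin n → ℝ} (hx : Nice A δ x) :
    ∀ (k : ℕ) (S : Finset (Fin m)), S.card = k → S.Nonempty → S ⊆ tight A x →
      ∃ Z : Finset (Fin m → Fin N), 4 * n * Z.card ≤ k * N ^ m ∧
        ∀ ι, ι ∉ Z → ∀ y h : ↥(Vert A), Opt A S (w0 A (xi ι)) y → Opt A ∅ (w0 A (xi ι)) h →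
          (pgraph A).edist y h ≤ ((k * (K * (m + 1) ^ 5) : ℕ) : ℕ∞) := by
  intro k
  induction k with
  | zero =>
    intro S hS hne _
    rw [Finset.card_eq_zero] at hS
    exact absurd hS hne.ne_empty
  | succ k ih =>
    intro S hcard hne hSx
    obtain ⟨l, hl, hl2⟩ := HS S hne x hx.1 hSx
    set Z1 : Finset (Fin m → Fin N) := (univ : Finset (Fin m → Fin N)).filter
      (fun ι => ¬ GoodXi A S l (xi ι) ε K) with hZ1
    have hstep : ∀ ι, ι ∉ Z1 → ∀ y y' : ↥(Vert A), Opt A S (w0 A (xi ι)) y →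
        Opt A (S.erase l) (w0 A (xi ι)) y' →
        (pgraph A).edist y y' ≤ ((K * (m + 1) ^ 5 : ℕ) : ℕ∞) := by
      intro ι hι y y' hy hy'
      have hG : GoodXi A S l (xi ι) ε K := by
        by_contra hcon
        exact hι (by rw [hZ1]; exact Finset.mem_filter.2 ⟨Finset.mem_univ _, hcon⟩)
      obtain ⟨c, hc⟩ := exists_coef hN y.2 (w0 A (xi ι))
      have hc' : Mult A (y : Fin n → ℝ) (w0 A (xi ι)) c := hc
      have h1 := mult_bound hN hδ hδ1 hR hrow hx hSx hl (Chain_xi ι) hy hc'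
      exact trans_dist hN hl (Chain_xi ι) hε hG y y' hy hc' (by linarith) hy'
    rcases (S.erase l).eq_empty_or_nonempty with h0 | h0
    · refine ⟨Z1, ?_, ?_⟩
      · calc 4 * n * Z1.card ≤ N ^ m := hl2
          _ ≤ (k + 1) * N ^ m := Nat.le_mul_of_pos_left _ (Nat.succ_pos k)
      · intro ι hι y h hy hh
        have h2 := hstep ι hι y h hy (by rw [h0]; exact hh)
        refine h2.trans ?_
        exact_mod_cast Nat.le_mul_of_pos_left _ (Nat.succ_pos k)
    · have hcard' : (S.erase l).card = k := by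
        rw [Finset.card_erase_of_mem hl, hcard]
        rfl
      have hsub : S.erase l ⊆ tight A x := (Finset.erase_subset l S).trans hSx
      obtain ⟨Z2, hZ2, hZ2'⟩ := ih (S.erase l) hcard' h0 hsub
      refine ⟨Z1 ∪ Z2, ?_, ?_⟩
      · calc 4 * n * (Z1 ∪ Z2).card ≤ 4 * n * (Z1.card + Z2.card) :=
              Nat.mul_le_mul_left _ (Finset.card_union_le _ _)
          _ = 4 * n * Z1.card + 4 * n * Z2.card := by ring
          _ ≤ N ^ m + k * N ^ m := Nat.add_le_add hl2 hZ2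
          _ = (k + 1) * N ^ m := by ring
      · intro ι hι y h hy hh
        rw [Finset.mem_union, not_or] at hι
        obtain ⟨y', hy'⟩ := w0_opt_exists hN hx.1 hsub (Chain_xi ι)
        have h1 := hstep ι hι.1 y ⟨y', hy'.1⟩ hy hy'
        have h2 := hZ2' ι hι.2 ⟨y', hy'.1⟩ h hy' hh
        have h3 : (pgraph A).edist y h ≤
            ((K * (m + 1) ^ 5 : ℕ) : ℕ∞) + ((k * (K * (m + 1) ^ 5) : ℕ) : ℕ∞) :=
          (SimpleGraph.edist_triangle).trans (add_le_add h1 h2)
        refine h3.trans (le_of_eq ?_)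
        rw [← Nat.cast_add]
        congr 1
        ring

private theorem Chain_opt {x : Fin n → ℝ} (hx : x ∈ Vert A) (f : Fin n → ℝ) :
    Opt A (tight A x) f x := by
  refine ⟨hx, Finset.Subset.refl _, fun z _ hz2 => ?_⟩
  rw [vert_eq_of_subset hx hz2]

open Classical in
theorem chain_dist (hN : Nondeg A) {δ R ε : ℝ} (hδ : 0 < δ) (hδ1 : δ ≤ 1) (hR : 1 ≤ R)
    (hrow : ∀ i, ∑ k, |A i k| ≤ R) {K N : ℕ} (hN0 : 0 < N) (hε : 0 < ε)
    (hK : 14 * m * n * R ^ 3 / δ ^ 4 ≤ K * ε ^ 2)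
    (HS : ∀ S : Finset (Fin m), S.Nonempty → ∀ x ∈ Vert A, S ⊆ tight A x → ∃ l ∈ S,
      4 * n * ((univ : Finset (Fin m → Fin N)).filter
        (fun ι => ¬ GoodXi A S l (xi ι) ε K)).card ≤ N ^ m)
    (x y : ↥(Vert A)) (hx : Nice A δ x) (hy : Nice A δ y) :
    (pgraph A).edist x y ≤ ((2 * (n * (K * (m + 1) ^ 5)) : ℕ) : ℕ∞) := by
  rcases Nat.eq_zero_or_pos n with hn | hn
  · subst hn
    have hxy : x = y := Subtype.ext (Subsingleton.elim _ _)
    subst hxy
    rw [SimpleGraph.edist_self]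
    exact bot_le
  have hcx : (tight A (x : Fin n → ℝ)).card = n := vert_card hN x.2
  have hcy : (tight A (y : Fin n → ℝ)).card = n := vert_card hN y.2
  obtain ⟨Zx, hZx, hZx'⟩ := Chain_aux hN hδ hδ1 hR hrow hε hK HS hx n _ hcx
    (Finset.card_pos.1 (by omega)) (Finset.Subset.refl _)
  obtain ⟨Zy, hZy, hZy'⟩ := Chain_aux hN hδ hδ1 hR hrow hε hK HS hy n _ hcy
    (Finset.card_pos.1 (by omega)) (Finset.Subset.refl _)
  have hpos : 0 < N ^ m := Nat.pow_pos hN0
  have h1 : 4 * Zx.card ≤ N ^ m := by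
    have : n * (4 * Zx.card) ≤ n * N ^ m := by
      calc n * (4 * Zx.card) = 4 * n * Zx.card := by ring
        _ ≤ n * N ^ m := hZx
    exact Nat.le_of_mul_le_mul_left this hn
  have h2 : 4 * Zy.card ≤ N ^ m := by
    have : n * (4 * Zy.card) ≤ n * N ^ m := by
      calc n * (4 * Zy.card) = 4 * n * Zy.card := by ring
        _ ≤ n * N ^ m := hZy
    exact Nat.le_of_mul_le_mul_left this hn
  have h3 : (Zx ∪ Zy).card < (univ : Finset (Fin m → Fin N)).card := by
    have h4 := Finset.card_union_le Zx Zy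
    have h5 : (univ : Finset (Fin m → Fin N)).card = N ^ m := by simp
    omega
  obtain ⟨ι, -, hι⟩ := Finset.exists_mem_notMem_of_card_lt_card h3
  rw [Finset.mem_union, not_or] at hι
  obtain ⟨h, hh⟩ := w0_opt_exists hN hx.1 (Finset.empty_subset (tight A (x : Fin n → ℝ)))
    (Chain_xi ι)
  have h6 := hZx' ι hι.1 x ⟨h, hh.1⟩ (Chain_opt x.2 _) hh
  have h7 := hZy' ι hι.2 y ⟨h, hh.1⟩ (Chain_opt y.2 _) hh
  rw [SimpleGraph.edist_comm] at h7
  have h8 : (pgraph A).edist x y ≤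
      ((n * (K * (m + 1) ^ 5) : ℕ) : ℕ∞) + ((n * (K * (m + 1) ^ 5) : ℕ) : ℕ∞) :=
    (SimpleGraph.edist_triangle).trans (add_le_add h6 h7)
  refine h8.trans (le_of_eq ?_)
  rw [← Nat.cast_add]
  congr 1
  ring

end H90SN
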