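import Mathlib

/-!
Project SN (MP_43ee49_co), helper90, module CountSec: a set of grid points whose sections in the
directions `J` are in small cubes.

Map `ι ∈ Z` to its restriction to the complement of `J`: there are at most `N^(m - J.card)` values (for
`N = 0`, `m ≥ 1` the set `Z` is empty). The members of `Z` with a given restriction are determined by
`(ι j)_{j ∈ J}`, and for each `j ∈ J` the numbers `ι j` lie in an interval with `b` elements (from the minimum
`a_j` to `a_j + b - 1`), so a fibre has at most `b^J.card` elements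
(`Finset.card_le_mul_card_image_of_maps_to` or similar). Finally
`N^(m - J.card) * N^J.card = N^m`.
-/

set_option autoImplicit false

namespace H90SN

open Finset

/-- a fibre has at most `b ^ J.card` elements -/
private theorem CS_fibre {m N b : ℕ} (F : Finset (Fin m → Fin N)) (J : Finset (Fin m))
    (heq : ∀ ι ∈ F, ∀ ι' ∈ F, ∀ i, i ∉ J → ι i = ι' i)
    (h : ∀ ι ∈ F, ∀ ι' ∈ F, ∀ j ∈ J, (ι j : ℕ) < (ι' j : ℕ) + b) : F.card ≤ b ^ J.card := by
  rcases F.eq_empty_or_nonempty with hF | hF
  · rw [hF, card_empty]; exact Nat.zero_le _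
  · choose a ha hmin using fun j : Fin m => exists_min_image F (fun ι => (ι j : ℕ)) hF
    have hcard : (Fintype.piFinset (fun _ : J => range b)).card = b ^ J.card := by
      rw [Fintype.card_piFinset]; simp
    rw [← hcard]
    refine card_le_card_of_injOn (fun ι => fun j : J => (ι j : ℕ) - (a j j : ℕ)) ?_ ?_
    · intro ι hι
      rw [mem_coe, Fintype.mem_piFinset]
      intro j
      rw [mem_range]
      have h1 : (ι j : ℕ) < (a j j : ℕ) + b := h ι hι (a j) (ha j) j j.2
      have h2 : (a j j : ℕ) ≤ (ι j : ℕ) := hmin j ι hι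
      show (ι j : ℕ) - (a j j : ℕ) < b
      omega
    · intro ι hι ι' hι' he
      funext i
      by_cases hi : i ∈ J
      · have h1 : (ι i : ℕ) - (a i i : ℕ) = (ι' i : ℕ) - (a i i : ℕ) := congrFun he (⟨i, hi⟩ : J)
        have h2 : (a i i : ℕ) ≤ (ι i : ℕ) := hmin i ι hι
        have h3 : (a i i : ℕ) ≤ (ι' i : ℕ) := hmin i ι' hι'
        exact Fin.ext (by omega)
      · exact heq ι hι ι' hι' i hi

theorem count_section {m N b : ℕ} (Z : Finset (Fin m → Fin N)) (J : Finset (Fin m))
    (h : ∀ ι ∈ Z, ∀ ι' ∈ Z, (∀ i, i ∉ J → ι i = ι' i) → ∀ j ∈ J, (ι j : ℕ) < (ι' j : ℕ) + b) :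
    Z.card * N ^ J.card ≤ b ^ J.card * N ^ m := by
  have h1 : Z.card ≤ b ^ J.card * (univ : Finset ({i // i ∉ J} → Fin N)).card := by
    refine card_le_mul_card_image_of_maps_to (f := fun ι : Fin m → Fin N => fun i : {i // i ∉ J} => ι i)
      (fun _ _ => mem_univ _) _ ?_
    intro r _
    refine CS_fibre _ J ?_ ?_
    · intro ι hι ι' hι' i hi
      have e1 := (mem_filter.1 hι).2
      have e2 := (mem_filter.1 hι').2
      exact congrFun (e1.trans e2.symm) ⟨i, hi⟩
    · intro ι hι ι' hι' j hj
      refine h ι (mem_filter.1 hι).1 ι' (mem_filter.1 hι').1 (fun i hi => ?_) j hj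
      have e1 := (mem_filter.1 hι).2
      have e2 := (mem_filter.1 hι').2
      exact congrFun (e1.trans e2.symm) ⟨i, hi⟩
  have hJ : J.card ≤ m := by simpa using J.card_le_univ
  have h2 : (univ : Finset ({i // i ∉ J} → Fin N)).card = N ^ (m - J.card) := by
    rw [card_univ, Fintype.card_fun, Fintype.card_fin]
    congr 1
    have := Fintype.card_subtype_compl (fun i : Fin m => i ∈ J)
    rw [this]; simp
  rw [h2] at h1
  calc Z.card * N ^ J.card ≤ b ^ J.card * N ^ (m - J.card) * N ^ J.card := Nat.mul_le_mul_right _ h1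
    _ = b ^ J.card * N ^ m := by
      rw [mul_assoc, ← pow_add, Nat.sub_add_cancel hJ]

end H90SN
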