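import Pool.Agent.H90.SN.Uniq
import Pool.Agent.H90.SN.CountSec

/-!
Project SN (MP_43ee49_co), helper90, module CountBad: for a fixed matrix few weights have a zero
multiplier or three small multipliers.

`count_zero`: the set is contained in the union over `i : Fin m` of the sets with `i ∈ tight A y \ S'`,
`c i = 0`; each of these satisfies the hypothesis of `count_section` with `J = {i}`, `b = 1`: if `ι, ι'` agree
off `i` then `obj A (xi ι) θ l - obj A (xi ι') θ l = (xi ι i - xi ι' i) • A i`, and `mult_shift` gives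
`xi ι i - xi ι' i = 0 - 0`, so `ι i = ι' i`.
`count_small`: union over the `J ⊆ Fin m` with three elements (at most `m^3` of them) contained in the
filter set; for `ι, ι'` which agree off `J`, `mult_shift` gives
`(ι j - ι' j) / N = c j - c' j < ε` (`c' j ≥ 0` by `opt_iff`), so `ι j - ι' j < ε N ≤ b`.
-/

set_option autoImplicit false

namespace H90SN

open H44SD Finset

variable {m n : ℕ} {A : Fin m → Fin n → ℝ}

private theorem obj_sub {N : ℕ} {ι ι' : Fin m → Fin N} {J : Finset (Fin m)} (l : Fin m) (θ : ℝ)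
    (h : ∀ i, i ∉ J → ι i = ι' i) :
    obj A (xi ι) θ l - obj A (xi ι') θ l = ∑ j ∈ J, (xi ι j - xi ι' j) • A j := by
  unfold obj w0
  rw [add_sub_add_right_eq_sub, ← Finset.sum_sub_distrib]
  symm
  refine (Finset.sum_subset (Finset.subset_univ J) ?_).trans ?_
  · intro i _ hi
    have : xi ι i = xi ι' i := by
      unfold xi
      rw [h i hi]
    rw [this, sub_self, zero_smul]
  · refine Finset.sum_congr rfl fun i _ => ?_
    rw [sub_smul]

private theorem shift_of (hN : Nondeg A) {S' : Finset (Fin m)} {l : Fin m} {θ : ℝ} {N : ℕ}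
    {ι ι' : Fin m → Fin N} {J : Finset (Fin m)} (h : ∀ i, i ∉ J → ι i = ι' i)
    {y y' : Fin n → ℝ} {c c' : Fin m → ℝ}
    (hy : Opt A S' (obj A (xi ι) θ l) y) (hy' : Opt A S' (obj A (xi ι') θ l) y')
    (hc : Mult A y (obj A (xi ι) θ l) c) (hc' : Mult A y' (obj A (xi ι') θ l) c')
    (hJ : J ⊆ tight A y \ S') (hJ' : J ⊆ tight A y' \ S') :
    ∀ j ∈ J, ((ι j : ℕ) : ℝ) / N - ((ι' j : ℕ) : ℝ) / N = c j - c' j ∧ 0 ≤ c' j := by
  intro j hj
  have hp : ∀ i ∈ tight A y \ S', 0 ≤ c i := (opt_iff hN hy.1 hc hy.2.1).1 hy.2.2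
  have hp' : ∀ i ∈ tight A y' \ S', 0 ≤ c' i := (opt_iff hN hy'.1 hc' hy'.2.1).1 hy'.2.2
  have h1 := mult_shift (t := fun j => xi ι j - xi ι' j) hN hy.1 hy'.1 hy.2.1 hy'.2.1 hc hc' hp hp' hJ hJ'
    (obj_sub l θ h) j hj
  refine ⟨?_, hp' j (hJ' hj)⟩
  rw [← h1]
  unfold xi
  ring

open Classical in
theorem count_zero (hN : Nondeg A) (S' : Finset (Fin m)) (l : Fin m) (θ : ℝ) {N : ℕ} (hN0 : 0 < N) :
    ((univ : Finset (Fin m → Fin N)).filter (fun ι => ∃ y c, Opt A S' (obj A (xi ι) θ l) y ∧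
      Mult A y (obj A (xi ι) θ l) c ∧ ∃ i ∈ tight A y \ S', c i = 0)).card * N ≤ m * N ^ m := by
  have hNr : (0 : ℝ) < N := by exact_mod_cast hN0
  set Z : Fin m → Finset (Fin m → Fin N) := fun i =>
    (univ : Finset (Fin m → Fin N)).filter (fun ι => ∃ y c, Opt A S' (obj A (xi ι) θ l) y ∧
      Mult A y (obj A (xi ι) θ l) c ∧ i ∈ tight A y \ S' ∧ c i = 0) with hZ
  have hsub : (univ : Finset (Fin m → Fin N)).filter (fun ι => ∃ y c,
      Opt A S' (obj A (xi ι) θ l) y ∧ Mult A y (obj A (xi ι) θ l) c ∧ ∃ i ∈ tight A y \ S', c i = 0) ⊆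
      (univ : Finset (Fin m)).biUnion Z := by
    intro ι hι
    obtain ⟨y, c, h1, h2, i, h3, h4⟩ := (Finset.mem_filter.1 hι).2
    exact Finset.mem_biUnion.2 ⟨i, Finset.mem_univ i, Finset.mem_filter.2
      ⟨Finset.mem_univ _, y, c, h1, h2, h3, h4⟩⟩
  have hone : ∀ i : Fin m, (Z i).card * N ≤ N ^ m := by
    intro i
    have h1 := count_section (b := 1) (Z i) {i} (by
      intro ι hι ι' hι' hoff j hj
      obtain ⟨y, c, h1, h2, h3, h4⟩ := (Finset.mem_filter.1 hι).2
      obtain ⟨y', c', h1', h2', h3', h4'⟩ := (Finset.mem_filter.1 hι').2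
      have h5 := (shift_of hN hoff h1 h1' h2 h2' (Finset.singleton_subset_iff.2 h3)
        (Finset.singleton_subset_iff.2 h3') j hj).1
      have hji : j = i := Finset.mem_singleton.1 hj
      rw [hji, h4, h4', sub_self, sub_eq_zero, div_left_inj' hNr.ne'] at h5
      have h6 : (ι i : ℕ) = (ι' i : ℕ) := by exact_mod_cast h5
      rw [hji]
      omega)
    simpa using h1
  calc _ ≤ ((univ : Finset (Fin m)).biUnion Z).card * N := Nat.mul_le_mul_right _ (Finset.card_le_card hsub)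
    _ ≤ (∑ i : Fin m, (Z i).card) * N := Nat.mul_le_mul_right _ Finset.card_biUnion_le
    _ = ∑ i : Fin m, (Z i).card * N := by rw [Finset.sum_mul]
    _ ≤ ∑ _i : Fin m, N ^ m := Finset.sum_le_sum fun i _ => hone i
    _ = m * N ^ m := by simp

open Classical in
theorem count_small (hN : Nondeg A) (S' : Finset (Fin m)) (l : Fin m) (θ : ℝ) {N : ℕ} (hN0 : 0 < N)
    {ε : ℝ} {b : ℕ} (hb : ε * N ≤ b) :
    ((univ : Finset (Fin m → Fin N)).filter (fun ι => ∃ y c, Opt A S' (obj A (xi ι) θ l) y ∧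
      Mult A y (obj A (xi ι) θ l) c ∧
      3 ≤ ((tight A y \ S').filter (fun i => c i < ε)).card)).card * N ^ 3 ≤
        m ^ 3 * b ^ 3 * N ^ m := by
  have hNr : (0 : ℝ) < N := by exact_mod_cast hN0
  set Z : Finset (Fin m) → Finset (Fin m → Fin N) := fun J =>
    (univ : Finset (Fin m → Fin N)).filter (fun ι => ∃ y c, Opt A S' (obj A (xi ι) θ l) y ∧
      Mult A y (obj A (xi ι) θ l) c ∧ J ⊆ tight A y \ S' ∧ ∀ i ∈ J, c i < ε) with hZ
  have hsub : (univ : Finset (Fin m → Fin N)).filter (fun ι => ∃ y c,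
      Opt A S' (obj A (xi ι) θ l) y ∧ Mult A y (obj A (xi ι) θ l) c ∧
      3 ≤ ((tight A y \ S').filter (fun i => c i < ε)).card) ⊆
      (powersetCard 3 (univ : Finset (Fin m))).biUnion Z := by
    intro ι hι
    obtain ⟨y, c, h1, h2, h3⟩ := (Finset.mem_filter.1 hι).2
    obtain ⟨J, hJ, hJc⟩ := Finset.exists_subset_card_eq h3
    refine Finset.mem_biUnion.2 ⟨J, Finset.mem_powersetCard.2 ⟨Finset.subset_univ J, hJc⟩,
      Finset.mem_filter.2 ⟨Finset.mem_univ _, y, c, h1, h2, ?_, ?_⟩⟩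
    · exact hJ.trans (Finset.filter_subset _ _)
    · intro i hi
      exact (Finset.mem_filter.1 (hJ hi)).2
  have hone : ∀ J ∈ powersetCard 3 (univ : Finset (Fin m)), (Z J).card * N ^ 3 ≤ b ^ 3 * N ^ m := by
    intro J hJ
    have hJc : J.card = 3 := (Finset.mem_powersetCard.1 hJ).2
    have h1 := count_section (b := b) (Z J) J (by
      intro ι hι ι' hι' hoff j hj
      obtain ⟨y, c, h1, h2, h3, h4⟩ := (Finset.mem_filter.1 hι).2
      obtain ⟨y', c', h1', h2', h3', h4'⟩ := (Finset.mem_filter.1 hι').2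
      obtain ⟨h5, h6⟩ := shift_of hN hoff h1 h1' h2 h2' h3 h3' j hj
      have h7 : ((ι j : ℕ) : ℝ) / N - ((ι' j : ℕ) : ℝ) / N < ε := by
        have := h4 j hj
        linarith
      rw [← sub_div, div_lt_iff₀ hNr] at h7
      have h8 : ((ι j : ℕ) : ℝ) < ((ι' j : ℕ) : ℝ) + b := by linarith
      exact_mod_cast h8)
    rwa [hJc] at h1
  have hcard : (powersetCard 3 (univ : Finset (Fin m))).card ≤ m ^ 3 := by
    rw [Finset.card_powersetCard, Finset.card_univ, Fintype.card_fin]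
    exact Nat.choose_le_pow m 3
  calc _ ≤ ((powersetCard 3 (univ : Finset (Fin m))).biUnion Z).card * N ^ 3 :=
        Nat.mul_le_mul_right _ (Finset.card_le_card hsub)
    _ ≤ (∑ J ∈ powersetCard 3 (univ : Finset (Fin m)), (Z J).card) * N ^ 3 :=
        Nat.mul_le_mul_right _ Finset.card_biUnion_le
    _ = ∑ J ∈ powersetCard 3 (univ : Finset (Fin m)), (Z J).card * N ^ 3 := by rw [Finset.sum_mul]
    _ ≤ ∑ _J ∈ powersetCard 3 (univ : Finset (Fin m)), b ^ 3 * N ^ m :=
        Finset.sum_le_sum fun J hJ => hone J hJ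
    _ = (powersetCard 3 (univ : Finset (Fin m))).card * (b ^ 3 * N ^ m) := by simp
    _ ≤ m ^ 3 * (b ^ 3 * N ^ m) := Nat.mul_le_mul_right _ hcard
    _ = m ^ 3 * b ^ 3 * N ^ m := by ring

end H90SN
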