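import Pool.Agent.H44.SD.VertBasic
import Pool.Agent.H44.SD.ProbDefs

/-!
Project SN (MP_43ee49_co), helper90. Distances between well-conditioned vertices of smoothed
polyhedra. Definitions (complete). The polyhedron, its vertices, its graph, `tight`, `Nondeg`, `gm`,
`rowm` and `pert` are those of `Pool.Agent.H44.SD`.
-/

set_option autoImplicit false

namespace H90SN

open H44SD Finset MeasureTheory ProbabilityTheory

/-- the slack of row `i` at `y` -/
def slk {m n : ℕ} (A : Fin m → Fin n → ℝ) (i : Fin m) (y : Fin n → ℝ) : ℝ := 1 - dot (A i) y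

/-- `x` is a vertex, the rows which are not tight have slack at least `δ` and the matrix of the tight
rows has an inverse with row sums at most `1/δ` -/
def Nice {m n : ℕ} (A : Fin m → Fin n → ℝ) (δ : ℝ) (x : Fin n → ℝ) : Prop :=
  x ∈ Vert A ∧ (∀ j, dot (A j) x = 1 ∨ dot (A j) x ≤ 1 - δ) ∧
    ∀ d : Fin n → ℝ, (∀ i ∈ tight A x, |dot (A i) d| ≤ 1) → ∀ k, |d k| ≤ 1 / δ

/-- the objective `∑ ξ j A j` -/
def w0 {m n : ℕ} (A : Fin m → Fin n → ℝ) (ξ : Fin m → ℝ) : Fin n → ℝ := ∑ j, ξ j • A j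

/-- the objective `∑ ξ j A j + θ A l` -/
def obj {m n : ℕ} (A : Fin m → Fin n → ℝ) (ξ : Fin m → ℝ) (θ : ℝ) (l : Fin m) : Fin n → ℝ :=
  w0 A ξ + θ • A l

/-- `y` is a vertex which maximises `f` over the face where the rows of `S` are tight -/
def Opt {m n : ℕ} (A : Fin m → Fin n → ℝ) (S : Finset (Fin m)) (f y : Fin n → ℝ) : Prop :=
  y ∈ Vert A ∧ S ⊆ tight A y ∧ ∀ z ∈ poly A, S ⊆ tight A z → dot f z ≤ dot f y

/-- `c` are the multipliers of `f` at `y` -/
def Mult {m n : ℕ} (A : Fin m → Fin n → ℝ) (y f : Fin n → ℝ) (c : Fin m → ℝ) : Prop :=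
  f = ∑ i ∈ tight A y, c i • A i

/-- weights in `[1, 2)` from a grid -/
noncomputable def xi {m N : ℕ} (ι : Fin m → Fin N) (j : Fin m) : ℝ := 1 + ((ι j : ℕ) : ℝ) / N

/-- at the optimum of `f` over the face `S` no multiplier off `S` is `0`, at most two are `< ε`, and at
most three rows which are not tight have slack at most `ε` times the slack of `l` -/
def GoodAt {m n : ℕ} (A : Fin m → Fin n → ℝ) (S : Finset (Fin m)) (f : Fin n → ℝ) (l : Fin m)
    (ε : ℝ) : Prop :=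
  ∀ y, Opt A S f y →
    (∀ c, Mult A y f c → (∀ i ∈ tight A y \ S, c i ≠ 0) ∧
      ((tight A y \ S).filter (fun i => c i < ε)).card ≤ 2) ∧
    ((univ : Finset (Fin m)).filter (fun j => 0 < slk A j y ∧ slk A j y ≤ ε * slk A l y)).card ≤ 3

/-- all nodes of the step from `S` to `S.erase l` are good -/
def GoodXi {m n : ℕ} (A : Fin m → Fin n → ℝ) (S : Finset (Fin m)) (l : Fin m) (ξ : Fin m → ℝ)
    (ε : ℝ) (K : ℕ) : Prop :=
  ∀ k : ℕ, k ≤ K → GoodAt A (S.erase l) (obj A ξ (k * ε ^ 2) l) l ε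

/-- the rows outside `S` are moved in the direction `v` -/
def line {m n : ℕ} (A : Fin m → Fin n → ℝ) (S : Finset (Fin m)) (v : Fin n → ℝ) (s : Fin m → ℝ) :
    Fin m → Fin n → ℝ := fun j => if j ∈ S then A j else A j + s j • v

/-- bad event with basis `T`: the vertex `y` of the basis `T` is the only maximiser of the objective on
the face `S'`, and the rows of `J` have positive slack, at most `ε` times the slack of `l` -/
def BT {m n : ℕ} (A : Fin m → Fin n → ℝ) (S' : Finset (Fin m)) (l : Fin m) (J : Finset (Fin m))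
    (ξ : Fin m → ℝ) (θ ε κ : ℝ) (v : Fin n → ℝ) (T : Fin n → Fin m) : Prop :=
  Function.Injective T ∧ (∀ i ∈ S', ∃ k, T k = i) ∧
    (∀ d : Fin n → ℝ, (∀ k, dot (A (T k)) d = 0) → d = 0) ∧
    ∃ y : Fin n → ℝ, ∃ c : Fin n → ℝ, (∀ k, dot (A (T k)) y = 1) ∧
      obj A ξ θ l = ∑ k, c k • A (T k) ∧ (∀ k, T k ∉ S' → 0 < c k) ∧ y ∈ poly A ∧
      (∀ j ∈ J, 0 < slk A j y ∧ slk A j y ≤ ε * slk A l y) ∧ slk A l y ≤ κ * |dot v y|

/-- bad event -/
def B2 {m n : ℕ} (A : Fin m → Fin n → ℝ) (S' : Finset (Fin m)) (l : Fin m) (J : Finset (Fin m))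
    (ξ : Fin m → ℝ) (θ ε κ : ℝ) (v : Fin n → ℝ) : Prop := ∃ T : Fin n → Fin m, BT A S' l J ξ θ ε κ v T

/-- the unit vector in the direction of `v` (zero if `v = 0`) -/
noncomputable def unit {n : ℕ} (v : Fin n → ℝ) : Fin n → ℝ := (1 / Real.sqrt (∑ k, v k ^ 2)) • v

/-- resampling of the rows outside `S` in the direction `u` -/
def resam {m n : ℕ} (S : Finset (Fin m)) (u : Fin n → ℝ) (G : Fin m → Fin n → ℝ) (s : Fin m → ℝ) :
    Fin m → Fin n → ℝ := fun j => if j ∈ S then G j else G j + (s j - dot (G j) u) • u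

/-- the number of weights for which one of the nodes is bad -/
noncomputable def CB {m n : ℕ} (A : Fin m → Fin n → ℝ) (S : Finset (Fin m)) (l : Fin m) (N K : ℕ)
    (ε κ : ℝ) (v : Fin n → ℝ) : ℕ := by
  classical exact
  ((univ : Finset (Fin m → Fin N)).filter (fun ι => ∃ k ≤ K, ∃ J ∈ powersetCard 4 (univ \ S),
    B2 A (S.erase l) l J (xi ι) (k * ε ^ 2) ε κ v)).card

/-- the law of `m` independent standard Gaussian numbers -/
noncomputable def gs (m : ℕ) : Measure (Fin m → ℝ) := Measure.pi fun _ : Fin m => gaussianReal 0 1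

instance (m : ℕ) : IsProbabilityMeasure (gs m) := by
  unfold gs; infer_instance

theorem slk_nonneg {m n : ℕ} {A : Fin m → Fin n → ℝ} {i : Fin m} {y : Fin n → ℝ} (hy : y ∈ poly A) :
    0 ≤ slk A i y := by
  have := mem_poly.1 hy i
  unfold slk
  linarith

theorem slk_eq_zero {m n : ℕ} {A : Fin m → Fin n → ℝ} {i : Fin m} {y : Fin n → ℝ} :
    slk A i y = 0 ↔ i ∈ tight A y := by
  rw [mem_tight]
  unfold slk
  constructor <;> intro h <;> linarith

theorem xi_bounds {m N : ℕ} (ι : Fin m → Fin N) (j : Fin m) : 1 ≤ xi ι j ∧ xi ι j ≤ 2 := by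
  have h1 : ((ι j : ℕ) : ℝ) < N := by exact_mod_cast (ι j).2
  have h2 : (0 : ℝ) ≤ ((ι j : ℕ) : ℝ) := Nat.cast_nonneg _
  have h3 : (0 : ℝ) < N := lt_of_le_of_lt h2 h1
  unfold xi
  constructor
  · have : 0 ≤ ((ι j : ℕ) : ℝ) / N := by positivity
    linarith
  · have : ((ι j : ℕ) : ℝ) / N ≤ 1 := by
      rw [div_le_one h3]
      exact h1.le
    linarith

end H90SN
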