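import Pool.Agent.H90.SN.Defs
import Pool.Agent.H44.SD.Conn
import Pool.Agent.H44.SD.CountVert

/-!
Project SN (MP_43ee49_co), helper90, module FaceDist: two vertices of a face of dimension at most `5`
are at distance at most `(m+1)^5`.

`H44SD.conn_all` gives a walk from `x` to `y` all of whose vertices `z` satisfy
`U := tight A x ∩ tight A y ⊆ tight A z`. Shorten it to a path (`SimpleGraph.Walk.bypass`, the support
shrinks). The support has no repetition; the map `z ↦ tight A z \ U` is injective on it
(`vert_eq_of_subset`: `tight A z = tight A z'` gives `z = z'`) with values in the finsets of cardinality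
`n - U.card ≤ 5` (`vert_card`), and there are at most `(m+1)^5` finsets of `Fin m` with at most `5` elements
(e.g. each of them is `univ.image (g ∘ some)`.. of a map `Fin 5 → Option (Fin m)`, or
`∑_{i ≤ 5} m.choose i ≤ (m+1)^5`). So the length of the path is at most `(m+1)^5 - 1`; and
`SimpleGraph.Walk.edist_le` (edist ≤ length).
-/

set_option autoImplicit false

namespace H90SN

open H44SD Finset

variable {m n : ℕ} {A : Fin m → Fin n → ℝ}

/-- the number of small subsets -/
private theorem FaceDist_count (m : ℕ) :
    ((univ : Finset (Finset (Fin m))).filter (fun s => s.card ≤ 5)).card ≤ (m + 1) ^ 5 := by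
  classical
  have h1 : (univ : Finset (Fin 5 → Option (Fin m))).card = (m + 1) ^ 5 := by
    rw [Finset.card_univ, Fintype.card_fun, Fintype.card_option, Fintype.card_fin, Fintype.card_fin]
  rw [← h1]
  refine Finset.card_le_card_of_surjOn (fun g => (univ.image g).eraseNone) ?_
  intro s hs
  have hs' : s.card ≤ 5 := by simpa using hs
  refine ⟨fun k => if h : (k : ℕ) < s.card then some ((s.equivFin.symm ⟨k, h⟩ : s) : Fin m) else none, by simp, ?_⟩
  ext i
  simp only [Finset.mem_eraseNone, Finset.mem_image, Finset.mem_univ, true_and]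
  constructor
  · rintro ⟨k, hk⟩
    by_cases h : (k : ℕ) < s.card
    · rw [dif_pos h] at hk
      rw [← Option.some_injective _ hk]
      exact (s.equivFin.symm ⟨k, h⟩).2
    · rw [dif_neg h] at hk
      exact absurd hk (by simp)
  · intro hi
    have h2 : ((s.equivFin ⟨i, hi⟩ : Fin s.card) : ℕ) < s.card := (s.equivFin ⟨i, hi⟩).2
    refine ⟨⟨(s.equivFin ⟨i, hi⟩ : Fin s.card), by omega⟩, ?_⟩
    rw [dif_pos h2]
    simp

theorem face_dist (hN : Nondeg A) (x y : ↥(Vert A))
    (h : n ≤ (tight A (x : Fin n → ℝ) ∩ tight A (y : Fin n → ℝ)).card + 5) :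
    (pgraph A).edist x y ≤ (((m + 1) ^ 5 : ℕ) : ℕ∞) := by
  classical
  obtain ⟨p, hp⟩ := conn_all hN x y
  set U := tight A (x : Fin n → ℝ) ∩ tight A (y : Fin n → ℝ) with hU
  have hq : ∀ z ∈ p.bypass.support, U ⊆ tight A (z : Fin n → ℝ) := fun z hz => hp z (p.support_bypass_subset_support hz)
  have hnd : p.bypass.support.Nodup := p.bypass_isPath.support_nodup
  have h1 : p.bypass.support.toFinset.card = p.bypass.length + 1 := by
    rw [List.toFinset_card_of_nodup hnd, SimpleGraph.Walk.length_support]
  have h2 : p.bypass.support.toFinset.card ≤ ((univ : Finset (Finset (Fin m))).filter (fun s => s.card ≤ 5)).card := by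
    refine Finset.card_le_card_of_injOn (fun z => tight A (z : Fin n → ℝ) \ U) ?_ ?_
    · intro z hz
      have hz' : z ∈ p.bypass.support := by simpa using hz
      have h3 := Finset.card_sdiff_of_subset (hq z hz')
      have h4 := vert_card hN z.2
      simp only [Finset.coe_filter, Finset.mem_univ, true_and, Set.mem_ofPred_eq]
      omega
    · intro z hz z' hz' hzz
      have hz1 : z ∈ p.bypass.support := by simpa using hz
      have hz1' : z' ∈ p.bypass.support := by simpa using hz'
      have hzz' : tight A (z : Fin n → ℝ) \ U = tight A (z' : Fin n → ℝ) \ U := hzz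
      have h3 : tight A (z : Fin n → ℝ) = tight A (z' : Fin n → ℝ) := by
        rw [← Finset.sdiff_union_of_subset (hq z hz1), ← Finset.sdiff_union_of_subset (hq z' hz1'), hzz']
      exact Subtype.ext (vert_eq_of_subset z.2 h3.subset)
  have h3 := h2.trans (FaceDist_count m)
  refine (SimpleGraph.Walk.edist_le p.bypass).trans ?_
  have h4 : p.bypass.length ≤ (m + 1) ^ 5 := by omega
  exact_mod_cast h4

end H90SN
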