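import Pool.Agent.H90.SN.ResamMP

/-!
Project SN (MP_43ee49_co), helper90, module Fib: conditional probabilities along fibres.

By `resam_mp`, `gm (E ∩ F) = (gm × gs) {(G, s) | resam S (u G) G s ∈ E ∩ F}`
`= ∫⁻ G, gs {s | resam S (u G) G s ∈ E ∩ F} ≤ ∫⁻ G, 1_F(G) * p = p * gm F` (`Measure.prod_apply`; if `G ∈ F` the
inner measure is `≤ p`, if `G ∉ F` it is `0` by `hinv`).
-/

set_option autoImplicit false

namespace H90SN

open H44SD Finset MeasureTheory ProbabilityTheory

theorem fib_le {m n : ℕ} (S : Finset (Fin m)) (u : (Fin m → Fin n → ℝ) → Fin n → ℝ)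
    (hum : Measurable u) (hu : ∀ G, ∑ k, u G k ^ 2 = 1 ∨ u G = 0)
    (hdep : ∀ G G' : Fin m → Fin n → ℝ, (∀ i ∈ S, G i = G' i) → u G = u G')
    (E F : Set (Fin m → Fin n → ℝ)) (hE : MeasurableSet E) (hF : MeasurableSet F)
    (hinv : ∀ G s, resam S (u G) G s ∈ F ↔ G ∈ F) (p : ENNReal)
    (hp : ∀ G, gs m {s | resam S (u G) G s ∈ E} ≤ p) : gm m n (E ∩ F) ≤ p * gm m n F := by
  have hEF : MeasurableSet (E ∩ F) := hE.inter hF
  have hmp := resam_mp S u hum hu hdep
  rw [← hmp.measure_preimage hEF.nullMeasurableSet, Measure.prod_apply (hmp.measurable hEF)]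
  calc ∫⁻ G, gs m (Prod.mk G ⁻¹' ((fun q : (Fin m → Fin n → ℝ) × (Fin m → ℝ) =>
          resam S (u q.1) q.1 q.2) ⁻¹' (E ∩ F))) ∂(gm m n)
      ≤ ∫⁻ G, F.indicator (fun _ => p) G ∂(gm m n) := by
        refine lintegral_mono fun G => ?_
        by_cases hG : G ∈ F
        · rw [Set.indicator_of_mem hG]
          refine le_trans (measure_mono ?_) (hp G)
          intro s hs
          exact hs.1
        · rw [Set.indicator_of_notMem hG]
          have : (Prod.mk G ⁻¹' ((fun q : (Fin m → Fin n → ℝ) × (Fin m → ℝ) =>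
              resam S (u q.1) q.1 q.2) ⁻¹' (E ∩ F))) = ∅ := by
            ext s
            simp only [Set.mem_preimage, Set.mem_empty_iff_false, iff_false]
            intro hs
            exact hG ((hinv G s).1 hs.2)
          rw [this, measure_empty]
    _ = p * gm m n F := by
        rw [lintegral_indicator_const hF]

end H90SN
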