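import Pool.Agent.H90.SN.Shear

/-!
Project SN (MP_43ee49_co), helper90, module GaussSec: `shear_gauss` for four coordinates of
`Fin m → ℝ`.

Split the coordinates: `MeasurableEquiv.piEquivPiSubtypeProd` (`measurePreserving_piEquivPiSubtypeProd`) for
`p i = (i ∈ J)`: `gs m` becomes the product of the Gaussian measures on `{i // i ∈ J} → ℝ` and on
`{i // i ∉ J} → ℝ`. For a fixed second component the section satisfies the hypothesis with the outer
coordinates equal; transport it with an equivalence `{i // i ∈ J} ≃ Fin 4` and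
`MeasurableEquiv.piFinSuccAbove` (`measurePreserving_piFinSuccAbove`) to `(Fin 3 → ℝ) × ℝ`. With `j0` the last
index the hypothesis `∑_{J} ξ j s j = ∑_J ξ j s' j` is `s j0 + ∑ (ξ j / ξ j0) s j = …` with
`|ξ j / ξ j0| ≤ 2`. Then `Measure.prod_apply` and the integral of a constant over a probability measure.
-/

set_option autoImplicit false

namespace H90SN

open MeasureTheory ProbabilityTheory Finset

/-- the map `(p, t) ↦ (p, t)` from `(Fin 3 → ℝ) × ℝ` to `κ → ℝ` -/
private noncomputable def GaussSec_map {κ : Type} (e : Fin 4 ≃ κ) (q : (Fin 3 → ℝ) × ℝ) : κ → ℝ :=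
  MeasurableEquiv.piCongrLeft (fun _ : κ => ℝ) e
    ((MeasurableEquiv.piFinSuccAbove (fun _ : Fin 4 => ℝ) (Fin.last 3)).symm q.swap)

private theorem GaussSec_map_last {κ : Type} (e : Fin 4 ≃ κ) (q : (Fin 3 → ℝ) × ℝ) :
    GaussSec_map e q (e (Fin.last 3)) = q.2 := by
  unfold GaussSec_map
  rw [MeasurableEquiv.coe_piCongrLeft]
  erw [Equiv.piCongrLeft_apply_apply]
  simp [MeasurableEquiv.piFinSuccAbove]

private theorem GaussSec_map_cast {κ : Type} (e : Fin 4 ≃ κ) (q : (Fin 3 → ℝ) × ℝ) (i : Fin 3) :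
    GaussSec_map e q (e i.castSucc) = q.1 i := by
  unfold GaussSec_map
  rw [MeasurableEquiv.coe_piCongrLeft]
  erw [Equiv.piCongrLeft_apply_apply]
  have h1 := Fin.insertNth_apply_succAbove (α := fun _ => ℝ) (Fin.last 3) q.2 q.1 i
  rw [Fin.succAbove_last] at h1
  exact h1

private theorem GaussSec_map_mp {κ : Type} [Fintype κ] (e : Fin 4 ≃ κ) :
    MeasurePreserving (GaussSec_map e) ((gs 3).prod (gaussianReal 0 1))
      (Measure.pi fun _ : κ => gaussianReal 0 1) := by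
  have h1 : MeasurePreserving (Prod.swap : (Fin 3 → ℝ) × ℝ → ℝ × (Fin 3 → ℝ))
      ((gs 3).prod (gaussianReal 0 1)) ((gaussianReal 0 1).prod (gs 3)) :=
    Measure.measurePreserving_swap
  have h2 := (measurePreserving_piFinSuccAbove (fun _ : Fin 4 => gaussianReal 0 1)
    (Fin.last 3)).symm
  have h3 := measurePreserving_piCongrLeft (fun _ : κ => gaussianReal 0 1) e
  exact h3.comp (h2.comp h1)

private theorem GaussSec_four {κ : Type} [Fintype κ] (e : Fin 4 ≃ κ) (ξ : κ → ℝ)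
    (hξ : ∀ j, 1 ≤ ξ j ∧ ξ j ≤ 2) {w : ℝ} (hw : 0 ≤ w) (Y : Set (κ → ℝ)) (hY : MeasurableSet Y)
    (h : ∀ s ∈ Y, ∀ s' ∈ Y, ∑ j, ξ j * s j = ∑ j, ξ j * s' j → ∀ j, |s j - s' j| ≤ w) :
    (Measure.pi fun _ : κ => gaussianReal 0 1) Y ≤ ENNReal.ofReal (w ^ 3) := by
  have hmp := GaussSec_map_mp e
  rw [← hmp.measure_preimage hY.nullMeasurableSet]
  have h0 : 0 < ξ (e (Fin.last 3)) := by
    have := (hξ (e (Fin.last 3))).1
    linarith
  refine shear_gauss hw (fun i => ξ (e i.castSucc) / ξ (e (Fin.last 3))) (fun i => ?_) _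
    (hmp.measurable hY) ?_
  · have h1 := hξ (e i.castSucc)
    have h2 := hξ (e (Fin.last 3))
    rw [abs_of_nonneg (div_nonneg (by linarith [h1.1]) h0.le), div_le_iff₀ h0]
    linarith [h1.2, h2.1]
  · intro p hp p' hp' heq i
    have hsum : ∀ q : (Fin 3 → ℝ) × ℝ, ∑ j, ξ j * GaussSec_map e q j =
        ξ (e (Fin.last 3)) *
          (q.2 + ∑ i : Fin 3, ξ (e i.castSucc) / ξ (e (Fin.last 3)) * q.1 i) := by
      intro q
      rw [← e.sum_comp, Fin.sum_univ_castSucc, GaussSec_map_last, mul_add, Finset.mul_sum, add_comm]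
      congr 1
      refine Finset.sum_congr rfl fun i _ => ?_
      rw [GaussSec_map_cast]
      field_simp
    have h1 := h _ hp _ hp' (by rw [hsum, hsum, heq]) (e i.castSucc)
    rwa [GaussSec_map_cast, GaussSec_map_cast] at h1

theorem gauss_section {m : ℕ} (J : Finset (Fin m)) (hJ : J.card = 4) (ξ : Fin m → ℝ)
    (hξ : ∀ j, 1 ≤ ξ j ∧ ξ j ≤ 2) {w : ℝ} (hw : 0 ≤ w) (Z : Set (Fin m → ℝ)) (hZ : MeasurableSet Z)
    (h : ∀ s ∈ Z, ∀ s' ∈ Z, (∀ i, i ∉ J → s i = s' i) →
      ∑ j ∈ J, ξ j * s j = ∑ j ∈ J, ξ j * s' j → ∀ j ∈ J, |s j - s' j| ≤ w) :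
    gs m Z ≤ ENNReal.ofReal (w ^ 3) := by
  classical
  let E := MeasurableEquiv.piEquivPiSubtypeProd (fun _ : Fin m => ℝ) (fun i => i ∈ J)
  have hE : MeasurePreserving E.symm
      ((Measure.pi fun _ : {i // i ∈ J} => gaussianReal 0 1).prod
        (Measure.pi fun _ : {i // i ∉ J} => gaussianReal 0 1)) (gs m) :=
    by
      unfold gs
      have hk := (measurePreserving_piEquivPiSubtypeProd (fun _ : Fin m => gaussianReal 0 1)
        (fun i => i ∈ J)).symm
      have hinst : (Subtype.fintype fun i : Fin m => i ∈ J) = Finset.Subtype.fintype J :=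
        Subsingleton.elim _ _
      rw [hinst] at hk
      exact hk
  have hE1 : ∀ (x : {i // i ∈ J} → ℝ) (y : {i // i ∉ J} → ℝ) (i : Fin m) (hi : i ∈ J),
      E.symm (x, y) i = x ⟨i, hi⟩ := by
    intro x y i hi
    simp [E, MeasurableEquiv.piEquivPiSubtypeProd, Equiv.piEquivPiSubtypeProd, hi]
  have hE2 : ∀ (x : {i // i ∈ J} → ℝ) (y : {i // i ∉ J} → ℝ) (i : Fin m) (hi : i ∉ J),
      E.symm (x, y) i = y ⟨i, hi⟩ := by
    intro x y i hi
    simp [E, MeasurableEquiv.piEquivPiSubtypeProd, Equiv.piEquivPiSubtypeProd, hi]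
  rw [← hE.measure_preimage hZ.nullMeasurableSet,
    Measure.prod_apply_symm (E.symm.measurable hZ)]
  have hcard : Fintype.card {i // i ∈ J} = 4 := by
    rw [Fintype.card_coe, hJ]
  let e : Fin 4 ≃ {i // i ∈ J} := (Fintype.equivFinOfCardEq hcard).symm
  have hsec : ∀ y : {i // i ∉ J} → ℝ,
      (Measure.pi fun _ : {i // i ∈ J} => gaussianReal 0 1)
        ((fun x => (x, y)) ⁻¹' (E.symm ⁻¹' Z)) ≤ ENNReal.ofReal (w ^ 3) := by
    intro y
    refine GaussSec_four e (fun j => ξ j) (fun j => hξ j) hw _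
      (measurable_prodMk_right (E.symm.measurable hZ)) ?_
    intro s hs s' hs' heq j
    have hsum : ∀ x : {i // i ∈ J} → ℝ, ∑ j ∈ J, ξ j * E.symm (x, y) j =
        ∑ j : {i // i ∈ J}, ξ j * x j := by
      intro x
      rw [← Finset.sum_coe_sort]
      refine Finset.sum_congr rfl fun j _ => ?_
      rw [hE1 x y j j.2]
    have h1 := h _ hs _ hs' (fun i hi => by rw [hE2 _ _ _ hi, hE2 _ _ _ hi])
      (by rw [hsum, hsum]; exact heq) j j.2
    rwa [hE1 _ _ _ j.2, hE1 _ _ _ j.2] at h1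
  calc ∫⁻ y, (Measure.pi fun _ : {i // i ∈ J} => gaussianReal 0 1)
        ((fun x => (x, y)) ⁻¹' (E.symm ⁻¹' Z)) ∂(Measure.pi fun _ : {i // i ∉ J} => gaussianReal 0 1)
      ≤ ∫⁻ _, ENNReal.ofReal (w ^ 3) ∂(Measure.pi fun _ : {i // i ∉ J} => gaussianReal 0 1) :=
        lintegral_mono hsec
    _ = ENNReal.ofReal (w ^ 3) := by
        rw [lintegral_const, measure_univ, mul_one]

end H90SN
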