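import Pool.Agent.H90.SN.CountBad

/-!
Project SN (MP_43ee49_co), helper90, module GoodCount: the number of bad weights for `S → S.erase l`.

If `GoodXi` fails for `ι` there are `k ≤ K` and `y` with `Opt A (S.erase l) (obj …) y` such that (1) some
`Mult c` has a zero off `S.erase l`, or (2) some `Mult c` has at least three values `< ε`, or (3) at least
four rows have small positive slack; in case (3) take multipliers from `exists_coef`: either (1) holds or
`ι` is in the set of `hM`. For each `k` use `count_zero` and `count_small`; the union `Z` over `k ≤ K` of the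
sets (1), (2) satisfies `Z.card * N^3 ≤ (K+1) (m N^2 + m^3 b^3) N^m`, so `8 n Z.card ≤ N^m` by `hsmall`.
-/

set_option autoImplicit false

namespace H90SN

open H44SD Finset

variable {m n : ℕ} {A : Fin m → Fin n → ℝ}

open Classical in
theorem good_count (hN : Nondeg A) (S : Finset (Fin m)) (l : Fin m) {N K b : ℕ} (hN0 : 0 < N)
    {ε : ℝ} (hb : ε * N ≤ b) (hsmall : 8 * n * ((K + 1) * (m * N ^ 2 + m ^ 3 * b ^ 3)) ≤ N ^ 3)
    {M : ℕ} (hM : ((univ : Finset (Fin m → Fin N)).filter (fun ι => ∃ k ≤ K, ∃ y c,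
      Opt A (S.erase l) (obj A (xi ι) (k * ε ^ 2) l) y ∧ Mult A y (obj A (xi ι) (k * ε ^ 2) l) c ∧
      (∀ i ∈ tight A y \ S.erase l, c i ≠ 0) ∧
      4 ≤ ((univ : Finset (Fin m)).filter
        (fun j => 0 < slk A j y ∧ slk A j y ≤ ε * slk A l y)).card)).card ≤ M)
    (hM8 : 8 * n * M ≤ N ^ m) :
    4 * n * ((univ : Finset (Fin m → Fin N)).filter
      (fun ι => ¬ GoodXi A S l (xi ι) ε K)).card ≤ N ^ m := by
  set S' : Finset (Fin m) := S.erase l with hS'
  set Z1 : ℕ → Finset (Fin m → Fin N) := fun k => (univ : Finset (Fin m → Fin N)).filter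
    (fun ι => ∃ y c, Opt A S' (obj A (xi ι) (k * ε ^ 2) l) y ∧
      Mult A y (obj A (xi ι) (k * ε ^ 2) l) c ∧ ∃ i ∈ tight A y \ S', c i = 0) with hZ1
  set Z2 : ℕ → Finset (Fin m → Fin N) := fun k => (univ : Finset (Fin m → Fin N)).filter
    (fun ι => ∃ y c, Opt A S' (obj A (xi ι) (k * ε ^ 2) l) y ∧
      Mult A y (obj A (xi ι) (k * ε ^ 2) l) c ∧
      3 ≤ ((tight A y \ S').filter (fun i => c i < ε)).card) with hZ2
  set Z3 : Finset (Fin m → Fin N) := (univ : Finset (Fin m → Fin N)).filter (fun ι => ∃ k ≤ K, ∃ y c,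
      Opt A S' (obj A (xi ι) (k * ε ^ 2) l) y ∧ Mult A y (obj A (xi ι) (k * ε ^ 2) l) c ∧
      (∀ i ∈ tight A y \ S', c i ≠ 0) ∧
      4 ≤ ((univ : Finset (Fin m)).filter
        (fun j => 0 < slk A j y ∧ slk A j y ≤ ε * slk A l y)).card) with hZ3
  have hsub : (univ : Finset (Fin m → Fin N)).filter (fun ι => ¬ GoodXi A S l (xi ι) ε K) ⊆
      ((range (K + 1)).biUnion Z1 ∪ (range (K + 1)).biUnion Z2) ∪ Z3 := by
    intro ι hι
    rw [mem_filter] at hι
    have h1 := hι.2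
    unfold GoodXi at h1
    push Not at h1
    obtain ⟨k, hk, hbad⟩ := h1
    unfold GoodAt at hbad
    push Not at hbad
    obtain ⟨y, hy, hyc⟩ := hbad
    have hkr : k ∈ range (K + 1) := mem_range.2 (Nat.lt_succ_of_le hk)
    have key : ∀ c, Mult A y (obj A (xi ι) (k * ε ^ 2) l) c →
        ((∃ i ∈ tight A y \ S', c i = 0) ∨ 3 ≤ ((tight A y \ S').filter (fun i => c i < ε)).card) →
        ι ∈ ((range (K + 1)).biUnion Z1 ∪ (range (K + 1)).biUnion Z2) ∪ Z3 := by
      intro c hc hor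
      refine mem_union_left _ ?_
      rcases hor with h0 | h3
      · refine mem_union_left _ (mem_biUnion.2 ⟨k, hkr, ?_⟩)
        rw [hZ1]
        exact mem_filter.2 ⟨mem_univ _, y, c, hy, hc, h0⟩
      · refine mem_union_right _ (mem_biUnion.2 ⟨k, hkr, ?_⟩)
        rw [hZ2]
        exact mem_filter.2 ⟨mem_univ _, y, c, hy, hc, h3⟩
    by_cases hall : ∀ c, Mult A y (obj A (xi ι) (k * ε ^ 2) l) c →
        (∀ i ∈ tight A y \ S', c i ≠ 0) ∧ ((tight A y \ S').filter (fun i => c i < ε)).card ≤ 2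
    · have h4 := hyc hall
      obtain ⟨c, hc⟩ := exists_coef hN hy.1 (obj A (xi ι) (k * ε ^ 2) l)
      refine mem_union_right _ ?_
      rw [hZ3]
      exact mem_filter.2 ⟨mem_univ _, k, hk, y, c, hy, hc, (hall c hc).1, h4⟩
    · push Not at hall
      obtain ⟨c, hc, hc2⟩ := hall
      refine key c hc ?_
      by_cases h0 : ∃ i ∈ tight A y \ S', c i = 0
      · exact Or.inl h0
      · push Not at h0
        exact Or.inr (hc2 h0)
  have hcard : ((univ : Finset (Fin m → Fin N)).filter (fun ι => ¬ GoodXi A S l (xi ι) ε K)).card ≤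
      ((∑ k ∈ range (K + 1), (Z1 k).card) + ∑ k ∈ range (K + 1), (Z2 k).card) + M := by
    refine (card_le_card hsub).trans ((card_union_le _ _).trans (Nat.add_le_add ?_ hM))
    exact (card_union_le _ _).trans (Nat.add_le_add card_biUnion_le card_biUnion_le)
  have hz1 : ∀ k, (Z1 k).card * N ^ 3 ≤ m * N ^ 2 * N ^ m := by
    intro k
    have h := count_zero hN S' l ((k : ℝ) * ε ^ 2) hN0
    calc (Z1 k).card * N ^ 3 = ((Z1 k).card * N) * N ^ 2 := by ring
      _ ≤ (m * N ^ m) * N ^ 2 := Nat.mul_le_mul_right _ h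
      _ = m * N ^ 2 * N ^ m := by ring
  have hz2 : ∀ k, (Z2 k).card * N ^ 3 ≤ m ^ 3 * b ^ 3 * N ^ m := by
    intro k
    exact count_small hN S' l ((k : ℝ) * ε ^ 2) hN0 hb
  set s1 : ℕ := ∑ k ∈ range (K + 1), (Z1 k).card with hs1
  set s2 : ℕ := ∑ k ∈ range (K + 1), (Z2 k).card with hs2
  have h1 : s1 * N ^ 3 ≤ (K + 1) * (m * N ^ 2 * N ^ m) := by
    rw [hs1, sum_mul]
    refine (sum_le_sum fun k _ => hz1 k).trans ?_
    rw [sum_const, card_range, smul_eq_mul]
  have h2 : s2 * N ^ 3 ≤ (K + 1) * (m ^ 3 * b ^ 3 * N ^ m) := by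
    rw [hs2, sum_mul]
    refine (sum_le_sum fun k _ => hz2 k).trans ?_
    rw [sum_const, card_range, smul_eq_mul]
  have h3 : 8 * n * (s1 + s2) * N ^ 3 ≤ N ^ m * N ^ 3 := by
    calc 8 * n * (s1 + s2) * N ^ 3 = 8 * n * (s1 * N ^ 3 + s2 * N ^ 3) := by ring
      _ ≤ 8 * n * ((K + 1) * (m * N ^ 2 * N ^ m) + (K + 1) * (m ^ 3 * b ^ 3 * N ^ m)) :=
          Nat.mul_le_mul_left _ (Nat.add_le_add h1 h2)
      _ = (8 * n * ((K + 1) * (m * N ^ 2 + m ^ 3 * b ^ 3))) * N ^ m := by ring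
      _ ≤ N ^ 3 * N ^ m := Nat.mul_le_mul_right _ hsmall
      _ = N ^ m * N ^ 3 := by ring
  have h4 : 8 * n * (s1 + s2) ≤ N ^ m := Nat.le_of_mul_le_mul_right h3 (pow_pos hN0 3)
  have h5 : 8 * n * ((univ : Finset (Fin m → Fin N)).filter
      (fun ι => ¬ GoodXi A S l (xi ι) ε K)).card ≤ 2 * N ^ m := by
    calc 8 * n * ((univ : Finset (Fin m → Fin N)).filter
        (fun ι => ¬ GoodXi A S l (xi ι) ε K)).card ≤ 8 * n * ((s1 + s2) + M) := Nat.mul_le_mul_left _ hcard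
      _ = 8 * n * (s1 + s2) + 8 * n * M := by ring
      _ ≤ N ^ m + N ^ m := Nat.add_le_add h4 hM8
      _ = 2 * N ^ m := by ring
  nlinarith [h5]

end H90SN
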