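import Pool.Agent.H90.SN.GoodCount
import Pool.Agent.H90.SN.B2Opt

/-!
Project SN (MP_43ee49_co), helper90, module GoodOne: the same for the last release, `S = {l}`.

`good_count` with `S = {l}` and `M = ∑ k, CB …`: let `y` be a node vertex of `ι`. It has a tight row `i`
(`vert_card`, `n ≥ 1`): `1 = dot (A i) y ≤ R |y k|` where `|y k|` is maximal, and
`slk A l y ≤ 1 + R |y k| ≤ 2 R |y k| = (2 R / σ) |dot (σ • Pi.single k 1) y|`, so `B2_of_opt` applies with
this `k`. The set of `hM` is contained in the union over `k` of the sets counted by `CB`.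
-/

set_option autoImplicit false

namespace H90SN

open H44SD Finset

variable {m n : ℕ} {A : Fin m → Fin n → ℝ}

open Classical in
theorem good_one (hN : Nondeg A) (hn : 1 ≤ n) {R σ : ℝ} (hσ : 0 < σ)
    (hrow : ∀ i, ∑ k, |A i k| ≤ R) (l : Fin m) {N K b : ℕ} (hN0 : 0 < N) {ε : ℝ} (hε0 : 0 < ε)
    (hε : ε < 1) (hb : ε * N ≤ b)
    (hsmall : 8 * n * ((K + 1) * (m * N ^ 2 + m ^ 3 * b ^ 3)) ≤ N ^ 3)
    (hbad : ¬ (N ^ m < 8 * n * ∑ k : Fin n, CB A {l} l N K ε (2 * R / σ)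
      (σ • (Pi.single k 1 : Fin n → ℝ)))) :
    4 * n * ((univ : Finset (Fin m → Fin N)).filter
      (fun ι => ¬ GoodXi A {l} l (xi ι) ε K)).card ≤ N ^ m := by
  classical
  refine good_count hN {l} l hN0 hb hsmall
    (M := ∑ k : Fin n, CB A {l} l N K ε (2 * R / σ) (σ • (Pi.single k 1 : Fin n → ℝ))) ?_
    (not_lt.1 hbad)
  let s : Fin n → Finset (Fin m → Fin N) := fun k =>
    (univ : Finset (Fin m → Fin N)).filter (fun ι => ∃ k' ≤ K, ∃ J ∈ powersetCard 4 (univ \ {l}),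
      B2 A (({l} : Finset (Fin m)).erase l) l J (xi ι) (k' * ε ^ 2) ε (2 * R / σ)
        (σ • (Pi.single k 1 : Fin n → ℝ)))
  have hs : ∀ k, CB A {l} l N K ε (2 * R / σ) (σ • (Pi.single k 1 : Fin n → ℝ)) = (s k).card := by
    intro k
    unfold CB
    simp only [s]
  simp only [hs]
  refine (card_le_card ?_).trans (card_biUnion_le (s := (univ : Finset (Fin n))) (t := s))
  intro ι hι
  obtain ⟨-, k, hk, y, c, hy, hc, hc0, h4⟩ := mem_filter.1 hι
  have hn0 : (univ : Finset (Fin n)).Nonempty := ⟨⟨0, hn⟩, mem_univ _⟩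
  obtain ⟨k₀, -, hk₀⟩ := exists_max_image (univ : Finset (Fin n)) (fun j => |y j|) hn0
  have hX : ∀ j, |y j| ≤ |y k₀| := fun j => hk₀ j (mem_univ j)
  have hdot : ∀ i, |dot (A i) y| ≤ R * |y k₀| := fun i =>
    (abs_dot_le (A i) y hX).trans (mul_le_mul_of_nonneg_right (hrow i) (abs_nonneg _))
  have hcard : (tight A y).card = n := vert_card hN hy.1
  have hne : (tight A y).Nonempty := card_pos.1 (by omega)
  obtain ⟨i, hi⟩ := hne
  have h1 : 1 ≤ R * |y k₀| := by
    have h2 := hdot i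
    rw [mem_tight.1 hi, abs_one] at h2
    exact h2
  have hslk : slk A l y ≤ 2 * R / σ * |dot (σ • (Pi.single k₀ 1 : Fin n → ℝ)) y| := by
    have h2 : dot (σ • (Pi.single k₀ 1 : Fin n → ℝ)) y = σ * y k₀ := by
      rw [smul_dot]
      congr 1
      simp [dot, Pi.single_apply]
    rw [h2, abs_mul, abs_of_pos hσ]
    have h3 : 2 * R / σ * (σ * |y k₀|) = 2 * (R * |y k₀|) := by
      field_simp
    rw [h3]
    have h4 := (abs_le.1 (hdot l)).1
    unfold slk
    linarith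
  obtain ⟨J, hJ, hB⟩ := B2_of_opt hN (mem_singleton_self l) hε hy hc hc0 h4 hslk
  exact mem_biUnion.2 ⟨k₀, mem_univ _, mem_filter.2 ⟨mem_univ _, k, hk, J, hJ, hB⟩⟩

end H90SN
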