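import Pool.Agent.H90.SN.GoodCount
import Pool.Agent.H90.SN.B2Opt

/-!
Project SN (MP_43ee49_co), helper90, module GoodTwo: if the event of `prod_bound` does not hold for `l`
then at most `N^m / (4 n)` weights are bad for the release of `l`.

`good_count` with `M = CB …`: the set of `hM` is contained in the set counted by `CB`: `B2_of_opt` with
`κ = 2 R / σ`, `v = σ • unit u`, `u = A l0 - A l`: for `y` with `S.erase l` tight (`l0 ∈ S.erase l`)
`dot u y = slk A l y`, so `|dot v y| = σ slk A l y / |u|`, and `|u| = √(∑ u k²) ≤ ∑ |u k| ≤ 2 R`. `u ≠ 0`: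
both rows are tight at the vertex `x` and `exists_dir` at `x` for `l` separates them.
-/

set_option autoImplicit false

namespace H90SN

open H44SD Finset

variable {m n : ℕ} {A : Fin m → Fin n → ℝ}

private theorem gt_norm_le {n : ℕ} (u : Fin n → ℝ) : Real.sqrt (∑ k, u k ^ 2) ≤ ∑ k, |u k| := by
  have h0 : 0 ≤ ∑ k, |u k| := sum_nonneg fun k _ => abs_nonneg _
  rw [Real.sqrt_le_left h0]
  calc ∑ k, u k ^ 2 = ∑ k, |u k| * |u k| := by
        refine sum_congr rfl fun k _ => ?_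
        rw [← abs_mul, ← sq, abs_of_nonneg (sq_nonneg _)]
    _ ≤ ∑ k, |u k| * ∑ j, |u j| := by
        refine sum_le_sum fun k _ => ?_
        exact mul_le_mul_of_nonneg_left (single_le_sum (f := fun j => |u j|) (fun j _ => abs_nonneg _) (mem_univ k)) (abs_nonneg _)
    _ = (∑ k, |u k|) ^ 2 := by rw [← sum_mul, sq]

private theorem gt_norm_pos {n : ℕ} {u : Fin n → ℝ} (hu : u ≠ 0) : 0 < Real.sqrt (∑ k, u k ^ 2) := by
  apply Real.sqrt_pos.2
  obtain ⟨k, hk⟩ := Function.ne_iff.1 hu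
  have h1 : 0 < u k ^ 2 := by
    have : u k ≠ 0 := hk
    positivity
  exact lt_of_lt_of_le h1 (single_le_sum (f := fun j => u j ^ 2) (fun j _ => sq_nonneg _) (mem_univ k))

private theorem gt_kappa (hN : Nondeg A) {R σ : ℝ} (hσ : 0 < σ) (hrow : ∀ i, ∑ k, |A i k| ≤ R)
    {l l0 : Fin m} (hne : l ≠ l0) {x : Fin n → ℝ} (hx : x ∈ Vert A) (hl : l ∈ tight A x) (hl0 : l0 ∈ tight A x)
    {y : Fin n → ℝ} (hy : y ∈ poly A) (hl0y : l0 ∈ tight A y) :
    slk A l y ≤ 2 * R / σ * |dot (σ • unit (A l0 - A l)) y| := by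
  set u : Fin n → ℝ := A l0 - A l with hu
  have hu0 : u ≠ 0 := by
    intro h
    obtain ⟨d, hd, hd'⟩ := exists_dir hN hx hl
    have h1 : dot (A l0) d = 0 := hd' l0 hl0 (Ne.symm hne)
    have h2 : A l0 = A l := sub_eq_zero.1 h
    rw [h2, hd] at h1
    norm_num at h1
  have hpos := gt_norm_pos hu0
  have hle : Real.sqrt (∑ k, u k ^ 2) ≤ 2 * R := by
    refine (gt_norm_le u).trans ?_
    calc ∑ k, |u k| ≤ ∑ k, (|A l0 k| + |A l k|) := by
          refine sum_le_sum fun k _ => ?_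
          rw [hu, Pi.sub_apply]
          exact abs_sub _ _
      _ = ∑ k, |A l0 k| + ∑ k, |A l k| := sum_add_distrib
      _ ≤ R + R := add_le_add (hrow l0) (hrow l)
      _ = 2 * R := by ring
  have hdot : dot u y = slk A l y := by
    have h1 : dot (A l0) y = 1 := mem_tight.1 hl0y
    have h2 : dot u y = dot (A l0) y - dot (A l) y := by
      simp only [hu, dot, Pi.sub_apply, sub_mul, sum_sub_distrib]
    rw [h2, h1]
    rfl
  have hdot2 : dot (σ • unit u) y = σ / Real.sqrt (∑ k, u k ^ 2) * slk A l y := by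
    rw [← hdot]
    simp only [unit, dot, Pi.smul_apply, smul_eq_mul, mul_sum]
    refine sum_congr rfl fun k _ => ?_
    field_simp
  have hs0 : 0 ≤ slk A l y := slk_nonneg hy
  rw [hdot2, abs_of_nonneg (by positivity)]
  have h3 : 1 ≤ 2 * R / Real.sqrt (∑ k, u k ^ 2) := by
    rw [le_div_iff₀ hpos, one_mul]
    exact hle
  calc slk A l y = 1 * slk A l y := (one_mul _).symm
    _ ≤ 2 * R / Real.sqrt (∑ k, u k ^ 2) * slk A l y := by gcongr
    _ = 2 * R / σ * (σ / Real.sqrt (∑ k, u k ^ 2) * slk A l y) := by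
        field_simp

open Classical in
theorem good_two (hN : Nondeg A) {R σ : ℝ} (hσ : 0 < σ) (hrow : ∀ i, ∑ k, |A i k| ≤ R)
    {S : Finset (Fin m)} {l l0 : Fin m} (hl0 : l0 ∈ S) (hl : l ∈ S.erase l0) {x : Fin n → ℝ}
    (hx : x ∈ Vert A) (hS : S ⊆ tight A x) {N K b : ℕ} (hN0 : 0 < N) {ε : ℝ} (hε0 : 0 < ε)
    (hε : ε < 1) (hb : ε * N ≤ b)
    (hsmall : 8 * n * ((K + 1) * (m * N ^ 2 + m ^ 3 * b ^ 3)) ≤ N ^ 3)
    (hbad : ¬ (N ^ m < 8 * n * CB A S l N K ε (2 * R / σ) (σ • unit (A l0 - A l)))) :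
    4 * n * ((univ : Finset (Fin m → Fin N)).filter
      (fun ι => ¬ GoodXi A S l (xi ι) ε K)).card ≤ N ^ m := by
  have hne : l ≠ l0 := ne_of_mem_erase hl
  have hlS : l ∈ S := mem_of_mem_erase hl
  have hl0S : l0 ∈ S.erase l := mem_erase.2 ⟨hne.symm, hl0⟩
  refine good_count hN S l hN0 hb hsmall (M := CB A S l N K ε (2 * R / σ) (σ • unit (A l0 - A l))) ?_ (not_lt.1 hbad)
  unfold CB
  apply card_le_card
  intro ι hι
  rw [mem_filter] at hι ⊢
  obtain ⟨_, k, hk, y, c, hOpt, hMult, hc0, h4⟩ := hι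
  refine ⟨mem_univ _, k, hk, ?_⟩
  have hyp : y ∈ poly A := ((mem_vert_iff A y).1 hOpt.1).1
  exact B2_of_opt hN hlS hε hOpt hMult hc0 h4
    (gt_kappa hN hσ hrow hne hx (hS hlS) (hS hl0) hyp (hOpt.2.1 hl0S))

end H90SN
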