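import Pool.Agent.H90.SN.OptMult

/-!
Project SN (MP_43ee49_co), helper90, module Hop: consecutive nodes share all but five tight rows.

`y` is optimal for `f' = f + ε² A l`, `y'` for `f`, both on the face `S'`. By `dot_sub_eq` for `f'` at `y`,
`∑_{i ∈ tight A y} c i * slk A i y' = dot f' y - dot f' y' = (dot f y - dot f y') + ε² (dot (A l) y -
dot (A l) y') ≤ ε² (slk A l y' - slk A l y) ≤ ε² * slk A l y'` (`y'` is optimal for `f`; slacks are `≥ 0`).
All terms are `≥ 0` (`opt_iff`: `c i ≥ 0` off `S'`; the slack is `0` for `i ∈ S'`), so for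
`i ∈ tight A y \ S'` with `ε ≤ c i`: `slk A i y' ≤ ε * slk A l y'`. Hence such `i` is tight at `y'` or belongs
to the set of `h2` (at most three rows). `(tight A y).card = n` (`vert_card`); the rows of
`tight A y` which are not tight at `y'` are not in `S'` and are among the `≤ 2` rows of `h1` or the `≤ 3` rows
of `h2`.
-/

set_option autoImplicit false

namespace H90SN

open H44SD Finset

variable {m n : ℕ} {A : Fin m → Fin n → ℝ}

theorem hop_card (hN : Nondeg A) {S' : Finset (Fin m)} {l : Fin m} {f y y' : Fin n → ℝ}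
    {c : Fin m → ℝ} {ε : ℝ} (hε0 : 0 < ε) (hy : Opt A S' (f + ε ^ 2 • A l) y) (hy' : Opt A S' f y')
    (hc : Mult A y (f + ε ^ 2 • A l) c)
    (h1 : ((tight A y \ S').filter (fun i => c i < ε)).card ≤ 2)
    (h2 : ((univ : Finset (Fin m)).filter
      (fun j => 0 < slk A j y' ∧ slk A j y' ≤ ε * slk A l y')).card ≤ 3) :
    n ≤ (tight A y ∩ tight A y').card + 5 := by
  have hyP : y ∈ poly A := ((mem_vert_iff A y).mp hy.1).1
  have hyP' : y' ∈ poly A := ((mem_vert_iff A y').mp hy'.1).1
  have hD := dot_sub_eq hc y'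
  have hle : dot f y ≤ dot f y' := hy'.2.2 y hyP hy.2.1
  have hsl : dot (A l) y - dot (A l) y' ≤ slk A l y' := by
    have := mem_poly.1 hyP l
    unfold slk
    linarith
  have hsum : ∑ i ∈ tight A y, c i * slk A i y' ≤ ε ^ 2 * slk A l y' := by
    rw [← hD, add_dot, add_dot, smul_dot, smul_dot]
    have h3 : ε ^ 2 * (dot (A l) y - dot (A l) y') ≤ ε ^ 2 * slk A l y' := mul_le_mul_of_nonneg_left hsl (by positivity)
    linarith
  have hcn : ∀ i ∈ tight A y \ S', 0 ≤ c i := (opt_iff hN hy.1 hc hy.2.1).1 hy.2.2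
  have hterm : ∀ i ∈ tight A y, 0 ≤ c i * slk A i y' := by
    intro i hi
    by_cases hiS : i ∈ S'
    · rw [slk_eq_zero.2 (hy'.2.1 hiS), mul_zero]
    · exact mul_nonneg (hcn i (mem_sdiff.2 ⟨hi, hiS⟩)) (slk_nonneg hyP')
  have hsub : tight A y \ tight A y' ⊆ ((tight A y \ S').filter (fun i => c i < ε)) ∪
      ((univ : Finset (Fin m)).filter (fun j => 0 < slk A j y' ∧ slk A j y' ≤ ε * slk A l y')) := by
    intro i hi
    rw [mem_sdiff] at hi
    have hiS : i ∉ S' := fun h => hi.2 (hy'.2.1 h)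
    have h0 : slk A i y' ≠ 0 := fun h => hi.2 (slk_eq_zero.1 h)
    have hpos : 0 < slk A i y' := lt_of_le_of_ne (slk_nonneg hyP') (Ne.symm h0)
    rw [mem_union]
    by_cases hci : c i < ε
    · left
      exact mem_filter.2 ⟨mem_sdiff.2 ⟨hi.1, hiS⟩, hci⟩
    · right
      rw [not_lt] at hci
      refine mem_filter.2 ⟨mem_univ _, hpos, ?_⟩
      have h1 : c i * slk A i y' ≤ ε ^ 2 * slk A l y' := (single_le_sum hterm hi.1).trans hsum
      have h2 : ε * slk A i y' ≤ c i * slk A i y' := mul_le_mul_of_nonneg_right hci hpos.le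
      have h3 : ε * slk A i y' ≤ ε * (ε * slk A l y') := by
        have h4 : ε ^ 2 * slk A l y' = ε * (ε * slk A l y') := by ring
        linarith
      exact le_of_mul_le_mul_left h3 hε0
  have hcard : (tight A y \ tight A y').card ≤ 5 := by
    refine (card_le_card hsub).trans ((card_union_le _ _).trans ?_)
    omega
  have htot := card_inter_add_card_sdiff (tight A y) (tight A y')
  rw [vert_card hN hy.1] at htot
  omega

end H90SN
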