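import Pool.Agent.H90.SN.Defs

/-!
Project SN (MP_43ee49_co), helper90, module InvB2: the bad event on the face `S'` does not change when
the rows outside `S` are moved in the direction `A a - A b` with `a, b ∈ S'`.

Let `u = A a - A b`, `A' = line A S u s`; the rows of `S` are the same in `A` and `A'`. If `S' ⊆ tight A z`
then `dot u z = 0`, so `dot (A' j) z = dot (A j) z` for all `j`; in particular `tight`, `slk` of all rows at
`z` are the same, and `z ∈ poly A'` iff `z ∈ poly A`. Given a witness `T, y, c` for `A` (`y` has `S'` tight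
because every `i ∈ S'` is some `T k`): take the same `T` and `y`. Nonsingular: if
`dot (A' (T k)) d = 0` for all `k`, then `dot (A i) d = 0` for `i ∈ S'` (they are some `T k`, and `i ∈ S`),
so `dot u d = 0` and `dot (A (T k)) d = 0` for all `k`. The objective changes by
`(∑_{j ∉ S} ξ j s j) • u` (`l ∈ S`), the sum `∑ c k • A' (T k)` by `(∑_{T k ∉ S} c k s (T k)) • u`; with
`ρ` the difference of the two numbers and `T k_a = a`, `T k_b = b` replace `c` by
`c + ρ [· = k_a] - ρ [· = k_b]`; the signs are only required for `T k ∉ S'`.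
`CB_line_inv` : `(S.erase l')`, `l' ≠ l`, contains `a = l0` and `b = l`; and `line (line A S u s) S u (-s) = A`.
-/

set_option autoImplicit false

namespace H90SN

open H44SD Finset

variable {m n : ℕ}

theorem line_line (A : Fin m → Fin n → ℝ) (S : Finset (Fin m)) (v : Fin n → ℝ) (s s' : Fin m → ℝ) :
    line (line A S v s) S v s' = line A S v (s + s') := by
  funext j
  unfold line
  split_ifs
  · rfl
  · rw [Pi.add_apply, add_smul, add_assoc]

theorem line_zero (A : Fin m → Fin n → ℝ) (S : Finset (Fin m)) (v : Fin n → ℝ) :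
    line A S v 0 = A := by
  funext j
  unfold line
  split_ifs
  · rfl
  · rw [Pi.zero_apply, zero_smul, add_zero]

private theorem InvB2_mem {A : Fin m → Fin n → ℝ} {S : Finset (Fin m)} {v : Fin n → ℝ} {s : Fin m → ℝ} {j : Fin m}
    (hj : j ∈ S) : line A S v s j = A j := by
  unfold line
  rw [if_pos hj]

private theorem InvB2_eq (A : Fin m → Fin n → ℝ) (S : Finset (Fin m)) (v : Fin n → ℝ) (s : Fin m → ℝ) (j : Fin m) :
    line A S v s j = A j + (if j ∈ S then 0 else s j) • v := by
  unfold line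
  split_ifs
  · rw [zero_smul, add_zero]
  · rfl

private theorem InvB2_dot {A : Fin m → Fin n → ℝ} {S : Finset (Fin m)} {v : Fin n → ℝ} {s : Fin m → ℝ} {z : Fin n → ℝ}
    (hz : dot v z = 0) (j : Fin m) : dot (line A S v s j) z = dot (A j) z := by
  rw [InvB2_eq, add_dot, smul_dot, hz, mul_zero, add_zero]

theorem B2_line {A : Fin m → Fin n → ℝ} {S S' : Finset (Fin m)} {l : Fin m} {J : Finset (Fin m)}
    {ξ : Fin m → ℝ} {θ ε κ : ℝ} {v : Fin n → ℝ} {a b : Fin m} (ha : a ∈ S') (hb : b ∈ S')
    (hS' : S' ⊆ S) (hl : l ∈ S) (s : Fin m → ℝ) (h : B2 A S' l J ξ θ ε κ v) :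
    B2 (line A S (A a - A b) s) S' l J ξ θ ε κ v := by
  obtain ⟨T, hT, hST, hns, y, c, hy, hobj, hpos, hyP, hJ, hκ⟩ := h
  obtain ⟨ka, hka⟩ := hST a ha
  obtain ⟨kb, hkb⟩ := hST b hb
  set u : Fin n → ℝ := A a - A b with hu
  set A' := line A S u s with hA'
  have hAa : A' a = A a := InvB2_mem (hS' ha)
  have hAb : A' b = A b := InvB2_mem (hS' hb)
  set σ : Fin m → ℝ := fun j => if j ∈ S then 0 else s j with hσ
  have hA'eq : ∀ j, A' j = A j + σ j • u := fun j => InvB2_eq A S u s j
  have huy : dot u y = 0 := by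
    have h1 := hy ka
    have h2 := hy kb
    rw [hka] at h1
    rw [hkb] at h2
    rw [hu, sub_dot, h1, h2, sub_self]
  have hdy : ∀ j, dot (A' j) y = dot (A j) y := fun j => InvB2_dot huy j
  have hsl : ∀ j, slk A' j y = slk A j y := fun j => by unfold slk; rw [hdy]
  set ρ : ℝ := (∑ j, ξ j * σ j) - ∑ k, c k * σ (T k) with hρ
  refine ⟨T, hT, hST, ?_, y, fun k => c k + (if k = ka then ρ else 0) - (if k = kb then ρ else 0), fun k => ?_, ?_, fun k hk => ?_, ?_, fun j hj => ?_, ?_⟩
  · intro d hd
    have h1 := hd ka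
    have h2 := hd kb
    rw [hka, hAa] at h1
    rw [hkb, hAb] at h2
    have hud : dot u d = 0 := by rw [hu, sub_dot, h1, h2, sub_self]
    refine hns d fun k => ?_
    rw [← InvB2_dot (A := A) (S := S) (s := s) hud (T k)]
    exact hd k
  · rw [hdy]
    exact hy k
  · have hw : w0 A' ξ = w0 A ξ + (∑ j, ξ j * σ j) • u := by
      unfold w0
      rw [Finset.sum_smul, ← Finset.sum_add_distrib]
      refine Finset.sum_congr rfl fun j _ => ?_
      rw [hA'eq, smul_add, smul_smul]
    have hl' : A' l = A l := InvB2_mem hl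
    have h1 : obj A' ξ θ l = obj A ξ θ l + (∑ j, ξ j * σ j) • u := by
      unfold obj
      rw [hw, hl']
      abel
    have h2 : ∑ k, c k • A' (T k) = ∑ k, c k • A (T k) + (∑ k, c k * σ (T k)) • u := by
      rw [Finset.sum_smul, ← Finset.sum_add_distrib]
      refine Finset.sum_congr rfl fun k _ => ?_
      rw [hA'eq, smul_add, smul_smul]
    have h3 : ∑ k, (c k + (if k = ka then ρ else 0) - (if k = kb then ρ else 0)) • A' (T k) =
        ∑ k, c k • A' (T k) + (ρ • A' (T ka) - ρ • A' (T kb)) := by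
      have e1 : ∑ k, (if k = ka then ρ else 0) • A' (T k) = ρ • A' (T ka) := by
        simp only [ite_smul, zero_smul]
        rw [Finset.sum_ite_eq' Finset.univ ka, if_pos (Finset.mem_univ _)]
      have e2 : ∑ k, (if k = kb then ρ else 0) • A' (T k) = ρ • A' (T kb) := by
        simp only [ite_smul, zero_smul]
        rw [Finset.sum_ite_eq' Finset.univ kb, if_pos (Finset.mem_univ _)]
      simp only [sub_smul, add_smul, Finset.sum_sub_distrib, Finset.sum_add_distrib]
      rw [e1, e2]
      abel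
    have h4 : ρ • A' (T ka) - ρ • A' (T kb) = ρ • u := by
      rw [hka, hkb, hAa, hAb, hu, smul_sub]
    rw [h1, h3, h4, h2, hobj, hρ, sub_smul]
    abel
  · have h1 : k ≠ ka := by
      rintro rfl
      exact hk (hka ▸ ha)
    have h2 : k ≠ kb := by
      rintro rfl
      exact hk (hkb ▸ hb)
    simp only [if_neg h1, if_neg h2, add_zero, sub_zero]
    exact hpos k hk
  · rw [mem_poly]
    intro i
    rw [hdy]
    exact mem_poly.1 hyP i
  · rw [hsl, hsl]
    exact hJ j hj
  · rw [hsl]
    exact hκ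

theorem CB_line {A : Fin m → Fin n → ℝ} {S : Finset (Fin m)} {l : Fin m} {N K : ℕ} {ε κ : ℝ}
    {v : Fin n → ℝ} {a b : Fin m} (ha : a ∈ S.erase l) (hb : b ∈ S.erase l) (hl : l ∈ S)
    (s : Fin m → ℝ) : CB (line A S (A a - A b) s) S l N K ε κ v = CB A S l N K ε κ v := by
  have hsub : S.erase l ⊆ S := Finset.erase_subset _ _
  have key : ∀ (J : Finset (Fin m)) (ξ : Fin m → ℝ) (θ : ℝ),
      B2 (line A S (A a - A b) s) (S.erase l) l J ξ θ ε κ v ↔ B2 A (S.erase l) l J ξ θ ε κ v := by
    intro J ξ θ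
    constructor
    · intro h
      have h1 := B2_line ha hb hsub hl (-s) h
      rw [InvB2_mem (hsub ha), InvB2_mem (hsub hb), line_line, add_neg_cancel, line_zero] at h1
      exact h1
    · exact B2_line ha hb hsub hl s
  unfold CB
  congr 1
  ext ι
  simp only [Finset.mem_filter, Finset.mem_univ, true_and, key]

end H90SN
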