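import Pool.Agent.H90.SN.Defs

/-!
Project SN (MP_43ee49_co), helper90, module MeasB2: measurability of the bad events.

`B2` is a finite union over `T : Fin n → Fin m`. For a fixed injective `T` whose image contains `S'` let
`M = Matrix.of fun k j => A (T k) j`. The rows `A (T k)` are nonsingular iff `M.det ≠ 0`, and then the only
possible `y`, `c` are `y = M⁻¹ *ᵥ 1`, `c = (obj A ξ θ l) ᵥ* M⁻¹`. The entries of
`M⁻¹ = (M.det)⁻¹ • M.adjugate` (`Matrix.inv_def`, `Ring.inverse_eq_inv'`) are measurable functions of `A`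
(determinant and adjugate are continuous, inversion in `ℝ` is measurable), so all the conditions become
measurable inequalities (`measurableSet_le`, `measurableSet_lt`, finite intersections).
`measurable_CB`: `CB` takes finitely many values; `{CB ≥ a}` is a finite union (over sets `W` of weights)
of finite intersections of events `⋃ k ≤ K, ⋃ J, B2`; or write
`CB = ∑ ι, (indicator of a measurable set)`.
-/

set_option autoImplicit false

namespace H90SN

open H44SD Finset MeasureTheory

/-- the matrix of the rows of `T` -/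
private def mt {m n : ℕ} (A : Fin m → Fin n → ℝ) (T : Fin n → Fin m) : Matrix (Fin n) (Fin n) ℝ :=
  Matrix.of fun k j => A (T k) j

/-- the vertex of the basis `T` -/
private noncomputable def yv {m n : ℕ} (A : Fin m → Fin n → ℝ) (T : Fin n → Fin m) : Fin n → ℝ :=
  Matrix.mulVec (mt A T)⁻¹ 1

/-- the multipliers of the basis `T` -/
private noncomputable def cv {m n : ℕ} (A : Fin m → Fin n → ℝ) (f : Fin n → ℝ) (T : Fin n → Fin m) : Fin n → ℝ :=
  Matrix.vecMul f (mt A T)⁻¹

private theorem dot_mt {m n : ℕ} (A : Fin m → Fin n → ℝ) (T : Fin n → Fin m) (d : Fin n → ℝ) (k : Fin n) :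
    dot (A (T k)) d = Matrix.mulVec (mt A T) d k := rfl

private theorem sum_mt {m n : ℕ} (A : Fin m → Fin n → ℝ) (T : Fin n → Fin m) (c : Fin n → ℝ) :
    ∑ k, c k • A (T k) = Matrix.vecMul c (mt A T) := by
  funext j
  rw [Finset.sum_apply]
  rfl

private theorem nonsing_iff {m n : ℕ} (A : Fin m → Fin n → ℝ) (T : Fin n → Fin m) :
    (∀ d : Fin n → ℝ, (∀ k, dot (A (T k)) d = 0) → d = 0) ↔ (mt A T).det ≠ 0 := by
  constructor
  · intro h hdet
    obtain ⟨v, hv, hv0⟩ := Matrix.exists_mulVec_eq_zero_iff.mpr hdet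
    exact hv (h v fun k => by rw [dot_mt, hv0]; rfl)
  · intro h d hd
    by_contra hne
    refine h (Matrix.exists_mulVec_eq_zero_iff.mp ⟨d, hne, ?_⟩)
    funext k
    exact hd k

private theorem BT_iff {m n : ℕ} (A : Fin m → Fin n → ℝ) (S' : Finset (Fin m)) (l : Fin m) (J : Finset (Fin m))
    (ξ : Fin m → ℝ) (θ ε κ : ℝ) (v : Fin n → ℝ) (T : Fin n → Fin m) :
    BT A S' l J ξ θ ε κ v T ↔ (Function.Injective T ∧ (∀ i ∈ S', ∃ k, T k = i)) ∧ (mt A T).det ≠ 0 ∧
      (∀ k, T k ∉ S' → 0 < cv A (obj A ξ θ l) T k) ∧ (∀ i, dot (A i) (yv A T) ≤ 1) ∧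
      (∀ j, j ∈ J → 0 < slk A j (yv A T) ∧ slk A j (yv A T) ≤ ε * slk A l (yv A T)) ∧
      slk A l (yv A T) ≤ κ * |dot v (yv A T)| := by
  unfold BT
  rw [nonsing_iff]
  constructor
  · rintro ⟨h1, h2, h3, y, c, hy, hc, hc0, hyp, hJ, hl⟩
    have hu : IsUnit (mt A T).det := isUnit_iff_ne_zero.mpr h3
    have ey : yv A T = y := by
      unfold yv
      have : Matrix.mulVec (mt A T) y = 1 := by
        funext k
        exact hy k
      rw [← this, Matrix.mulVec_mulVec, Matrix.nonsing_inv_mul _ hu, Matrix.one_mulVec]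
    have ec : cv A (obj A ξ θ l) T = c := by
      unfold cv
      rw [hc, sum_mt, Matrix.vecMul_vecMul, Matrix.mul_nonsing_inv _ hu, Matrix.vecMul_one]
    rw [ey, ec]
    exact ⟨⟨h1, h2⟩, h3, hc0, mem_poly.1 hyp, hJ, hl⟩
  · rintro ⟨⟨h1, h2⟩, h3, hc0, hyp, hJ, hl⟩
    have hu : IsUnit (mt A T).det := isUnit_iff_ne_zero.mpr h3
    refine ⟨h1, h2, h3, yv A T, cv A (obj A ξ θ l) T, ?_, ?_, hc0, mem_poly.2 hyp, hJ, hl⟩
    · intro k
      rw [dot_mt, yv, Matrix.mulVec_mulVec, Matrix.mul_nonsing_inv _ hu, Matrix.one_mulVec]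
      rfl
    · rw [sum_mt, cv, Matrix.vecMul_vecMul, Matrix.nonsing_inv_mul _ hu, Matrix.vecMul_one]

section

variable {Ω : Type*} [MeasurableSpace Ω] {m n : ℕ} {A : Ω → Fin m → Fin n → ℝ} {v : Ω → Fin n → ℝ}

private theorem meas_entry (hA : Measurable A) (i : Fin m) (j : Fin n) : Measurable fun ω => A ω i j :=
  (measurable_pi_apply j).comp ((measurable_pi_apply i).comp hA)

private theorem meas_det (hA : Measurable A) (T : Fin n → Fin m) : Measurable fun ω => (mt (A ω) T).det := by
  have h : Continuous fun B : Fin m → Fin n → ℝ => (mt B T).det := by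
    refine Continuous.matrix_det (continuous_matrix fun k j => ?_)
    exact (continuous_apply j).comp (continuous_apply (T k))
  exact h.measurable.comp hA

private theorem meas_adj (hA : Measurable A) (T : Fin n → Fin m) (k j : Fin n) : Measurable fun ω => (mt (A ω) T).adjugate k j := by
  have h : Continuous fun B : Fin m → Fin n → ℝ => (mt B T).adjugate k j := by
    refine Continuous.matrix_elem (Continuous.matrix_adjugate (continuous_matrix fun k j => ?_)) k j
    exact (continuous_apply j).comp (continuous_apply (T k))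
  exact h.measurable.comp hA

private theorem meas_inv (hA : Measurable A) (T : Fin n → Fin m) (k j : Fin n) : Measurable fun ω => (mt (A ω) T)⁻¹ k j := by
  have h : (fun ω => (mt (A ω) T)⁻¹ k j) = fun ω => ((mt (A ω) T).det)⁻¹ * (mt (A ω) T).adjugate k j := by
    funext ω
    rw [Matrix.inv_def, Ring.inverse_eq_inv', Matrix.smul_apply, smul_eq_mul]
  rw [h]
  exact (meas_det hA T).inv.mul (meas_adj hA T k j)

private theorem meas_yv (hA : Measurable A) (T : Fin n → Fin m) (k : Fin n) : Measurable fun ω => yv (A ω) T k := by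
  have h : (fun ω => yv (A ω) T k) = fun ω => ∑ j, (mt (A ω) T)⁻¹ k j * 1 := by
    funext ω
    rfl
  rw [h]
  exact Finset.measurable_sum _ fun j _ => (meas_inv hA T k j).mul_const 1

private theorem meas_dot {f g : Ω → Fin n → ℝ} (hf : ∀ j, Measurable fun ω => f ω j) (hg : ∀ j, Measurable fun ω => g ω j) :
    Measurable fun ω => dot (f ω) (g ω) := by
  unfold dot
  exact Finset.measurable_sum _ fun j _ => (hf j).mul (hg j)

private theorem meas_obj (hA : Measurable A) (ξ : Fin m → ℝ) (θ : ℝ) (l : Fin m) (j : Fin n) :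
    Measurable fun ω => obj (A ω) ξ θ l j := by
  have h : (fun ω => obj (A ω) ξ θ l j) = fun ω => ∑ i, ξ i * A ω i j + θ * A ω l j := by
    funext ω
    unfold obj w0
    rw [Pi.add_apply, Finset.sum_apply]
    rfl
  rw [h]
  exact (Finset.measurable_sum _ fun i _ => (meas_entry hA i j).const_mul (ξ i)).add ((meas_entry hA l j).const_mul θ)

private theorem meas_cv (hA : Measurable A) (ξ : Fin m → ℝ) (θ : ℝ) (l : Fin m) (T : Fin n → Fin m) (k : Fin n) :
    Measurable fun ω => cv (A ω) (obj (A ω) ξ θ l) T k := by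
  have h : (fun ω => cv (A ω) (obj (A ω) ξ θ l) T k) = fun ω => ∑ j, obj (A ω) ξ θ l j * (mt (A ω) T)⁻¹ j k := by
    funext ω
    rfl
  rw [h]
  exact Finset.measurable_sum _ fun j _ => (meas_obj hA ξ θ l j).mul (meas_inv hA T j k)

private theorem meas_slk (hA : Measurable A) (T : Fin n → Fin m) (i : Fin m) : Measurable fun ω => slk (A ω) i (yv (A ω) T) := by
  unfold slk
  exact (meas_dot (fun j => meas_entry hA i j) fun j => meas_yv hA T j).const_sub 1

private theorem meas_BT (hA : Measurable A) (hv : Measurable v) (S' : Finset (Fin m)) (l : Fin m)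
    (J : Finset (Fin m)) (ξ : Fin m → ℝ) (θ ε κ : ℝ) (T : Fin n → Fin m) :
    Measurable fun ω => BT (A ω) S' l J ξ θ ε κ (v ω) T := by
  have h : (fun ω => BT (A ω) S' l J ξ θ ε κ (v ω) T) = fun ω => (Function.Injective T ∧ (∀ i ∈ S', ∃ k, T k = i)) ∧
      (mt (A ω) T).det ≠ 0 ∧ (∀ k, T k ∉ S' → 0 < cv (A ω) (obj (A ω) ξ θ l) T k) ∧ (∀ i, dot (A ω i) (yv (A ω) T) ≤ 1) ∧
      (∀ j, j ∈ J → 0 < slk (A ω) j (yv (A ω) T) ∧ slk (A ω) j (yv (A ω) T) ≤ ε * slk (A ω) l (yv (A ω) T)) ∧
      slk (A ω) l (yv (A ω) T) ≤ κ * |dot (v ω) (yv (A ω) T)| := by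
    funext ω
    exact propext (BT_iff _ _ _ _ _ _ _ _ _ _)
  rw [h]
  have hvj : ∀ j, Measurable fun ω => v ω j := fun j => (measurable_pi_apply j).comp hv
  refine measurable_const.and (Measurable.and ?_ (Measurable.and ?_ (Measurable.and ?_ (Measurable.and ?_ ?_))))
  · refine measurableSet_setOfPred.1 ?_
    exact (measurableSet_eq_fun (meas_det hA T) measurable_const).compl
  · refine Measurable.forall fun k => Measurable.imp measurable_const ?_
    exact measurableSet_setOfPred.1 (measurableSet_lt measurable_const (meas_cv hA ξ θ l T k))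
  · refine Measurable.forall fun i => ?_
    exact measurableSet_setOfPred.1 (measurableSet_le (meas_dot (fun j => meas_entry hA i j) fun j => meas_yv hA T j) measurable_const)
  · refine Measurable.forall fun j => Measurable.imp measurable_const (Measurable.and ?_ ?_)
    · exact measurableSet_setOfPred.1 (measurableSet_lt measurable_const (meas_slk hA T j))
    · exact measurableSet_setOfPred.1 (measurableSet_le (meas_slk hA T j) ((meas_slk hA T l).const_mul ε))
  · refine measurableSet_setOfPred.1 (measurableSet_le (meas_slk hA T l) (Measurable.const_mul ?_ κ))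
    exact (meas_dot hvj fun j => meas_yv hA T j).abs

end


theorem measurableSet_B2 {Ω : Type*} [MeasurableSpace Ω] {m n : ℕ} (A : Ω → Fin m → Fin n → ℝ)
    (hA : Measurable A) (v : Ω → Fin n → ℝ) (hv : Measurable v) (S' : Finset (Fin m)) (l : Fin m)
    (J : Finset (Fin m)) (ξ : Fin m → ℝ) (θ ε κ : ℝ) :
    MeasurableSet {ω | B2 (A ω) S' l J ξ θ ε κ (v ω)} := by
  refine measurableSet_setOfPred.2 ?_
  unfold B2
  exact Measurable.exists fun T => meas_BT hA hv S' l J ξ θ ε κ T

theorem measurable_CB {Ω : Type*} [MeasurableSpace Ω] {m n : ℕ} (A : Ω → Fin m → Fin n → ℝ)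
    (hA : Measurable A) (v : Ω → Fin n → ℝ) (hv : Measurable v) (S : Finset (Fin m)) (l : Fin m)
    (N K : ℕ) (ε κ : ℝ) : Measurable (fun ω => CB (A ω) S l N K ε κ (v ω)) := by
  classical
  have h : (fun ω => CB (A ω) S l N K ε κ (v ω)) = fun ω => ∑ ι : Fin m → Fin N,
      if ∃ k ≤ K, ∃ J ∈ powersetCard 4 (univ \ S), B2 (A ω) (S.erase l) l J (xi ι) (k * ε ^ 2) ε κ (v ω) then 1 else 0 := by
    funext ω
    unfold CB
    rw [← Finset.card_filter]
  rw [h]
  refine Finset.measurable_sum _ fun ι _ => Measurable.ite ?_ measurable_const measurable_const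
  refine measurableSet_setOfPred.2 ?_
  refine Measurable.exists fun k => measurable_const.and (Measurable.exists fun J => measurable_const.and ?_)
  exact measurableSet_setOfPred.1 (measurableSet_B2 A hA v hv (S.erase l) l J (xi ι) (k * ε ^ 2) ε κ)

end H90SN
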