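import Pool.Agent.H90.SN.GaussSec
import Pool.Agent.H90.SN.B2Sec
import Pool.Agent.H90.SN.MeasB2
import Pool.Agent.H90.SN.CBInt

/-!
Project SN (MP_43ee49_co), helper90, module LineProb: probability of the bad events on a line.

`gs_B2_le`: `gauss_section` with `Z = {s | B2 …}` (`measurableSet_B2`), `w = κ ε`, `B2_section`, `xi_bounds`.
`gs_CB_le`: Markov's inequality (`meas_ge_le_lintegral_div` or `mul_meas_ge_le_lintegral`) and
`lintegral_CB_le` with `q = ofReal ((κ ε)^3)`: if `N^m < 8 n CB` then `CB ≥ N^m / (8 n)`.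
-/

set_option autoImplicit false

namespace H90SN

open H44SD Finset MeasureTheory ProbabilityTheory

private theorem measurable_line {m n : ℕ} (A : Fin m → Fin n → ℝ) (S : Finset (Fin m))
    (v : Fin n → ℝ) : Measurable (fun s : Fin m → ℝ => line A S v s) := by
  refine measurable_pi_iff.2 fun j => ?_
  by_cases hj : j ∈ S
  · simp only [line, hj, if_true]
    exact measurable_const
  · simp only [line, hj, if_false]
    refine measurable_pi_iff.2 fun k => ?_
    simp only [Pi.add_apply, Pi.smul_apply, smul_eq_mul]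
    exact measurable_const.add ((measurable_pi_apply j).mul_const _)

theorem gs_B2_le {m n : ℕ} (A : Fin m → Fin n → ℝ) {S : Finset (Fin m)} {l : Fin m} (hl : l ∈ S)
    {J : Finset (Fin m)} (hJ : J ∈ powersetCard 4 (univ \ S)) (ξ : Fin m → ℝ)
    (hξ : ∀ j, 1 ≤ ξ j ∧ ξ j ≤ 2) (θ : ℝ) {ε κ : ℝ} (hε : 0 ≤ ε) (hκ : 0 ≤ κ) (v : Fin n → ℝ) :
    gs m {s | B2 (line A S v s) (S.erase l) l J ξ θ ε κ v} ≤ ENNReal.ofReal ((κ * ε) ^ 3) := by
  rw [mem_powersetCard] at hJ
  have hdis : Disjoint J S := by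
    rw [Finset.disjoint_left]
    intro a ha
    exact (Finset.mem_sdiff.1 (hJ.1 ha)).2
  refine gauss_section J hJ.2 ξ hξ (mul_nonneg hκ hε) _
    (measurableSet_B2 (fun s : Fin m → ℝ => line A S v s) (measurable_line A S v) (fun _ => v)
      measurable_const (S.erase l) l J ξ θ ε κ) ?_
  intro s hs s' hs' he hsum
  exact B2_section hdis (Finset.erase_subset l S) hl hε hs hs' he hsum

theorem gs_CB_le {m n : ℕ} (A : Fin m → Fin n → ℝ) {S : Finset (Fin m)} {l : Fin m} (hl : l ∈ S)
    (N K : ℕ) (hN : 0 < N) {ε κ : ℝ} (hε : 0 ≤ ε) (hκ : 0 ≤ κ) (v : Fin n → ℝ) :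
    gs m {s | N ^ m < 8 * n * CB (line A S v s) S l N K ε κ v} ≤
      ENNReal.ofReal (8 * n * (K + 1) * m ^ 4 * (κ * ε) ^ 3) := by
  set f : (Fin m → ℝ) → ENNReal := fun s => ((CB (line A S v s) S l N K ε κ v : ℕ) : ENNReal)
    with hf
  have hfm : Measurable f :=
    (measurable_of_countable (fun k : ℕ => (k : ENNReal))).comp
      (measurable_CB (fun s : Fin m → ℝ => line A S v s) (measurable_line A S v) (fun _ => v)
        measurable_const S l N K ε κ)
  have hq : ∀ J ∈ powersetCard 4 (univ \ S), ∀ (ι : Fin m → Fin N) (θ : ℝ),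
      gs m {s | B2 (line A S v s) (S.erase l) l J (xi ι) θ ε κ v} ≤
        ENNReal.ofReal ((κ * ε) ^ 3) := fun J hJ ι θ =>
    gs_B2_le A hl hJ (xi ι) (fun j => xi_bounds ι j) θ hε hκ v
  have hint := lintegral_CB_le (gs m) (fun s : Fin m → ℝ => line A S v s) (fun _ => v) S l N K ε κ
    (fun J ξ θ => measurableSet_B2 (fun s : Fin m → ℝ => line A S v s) (measurable_line A S v)
      (fun _ => v) measurable_const (S.erase l) l J ξ θ ε κ) _ hq
  have hmark := mul_meas_ge_le_lintegral (μ := gs m) (hfm.const_mul (8 * (n : ENNReal)))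
    ((N : ENNReal) ^ m)
  rw [lintegral_const_mul _ hfm] at hmark
  have hsub : gs m {s | N ^ m < 8 * n * CB (line A S v s) S l N K ε κ v} ≤
      gs m {s | (N : ENNReal) ^ m ≤ 8 * (n : ENNReal) * f s} := by
    refine measure_mono fun s hs => ?_
    have hs' : N ^ m < 8 * n * CB (line A S v s) S l N K ε κ v := hs
    show (N : ENNReal) ^ m ≤
      8 * (n : ENNReal) * ((CB (line A S v s) S l N K ε κ v : ℕ) : ENNReal)
    exact_mod_cast hs'.le
  have hN0 : ((N : ENNReal) ^ m) ≠ 0 := by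
    have : (N : ENNReal) ≠ 0 := by exact_mod_cast hN.ne'
    exact pow_ne_zero _ this
  have hNt : ((N : ENNReal) ^ m) ≠ ⊤ := ENNReal.pow_ne_top (ENNReal.natCast_ne_top N)
  refine hsub.trans ?_
  have hchain : (N : ENNReal) ^ m * gs m {s | (N : ENNReal) ^ m ≤ 8 * (n : ENNReal) * f s} ≤
      (N : ENNReal) ^ m * ENNReal.ofReal (8 * n * (K + 1) * m ^ 4 * (κ * ε) ^ 3) := by
    refine hmark.trans ?_
    refine (mul_le_mul_right hint (8 * (n : ENNReal))).trans (le_of_eq ?_)
    have hr : ENNReal.ofReal (8 * n * (K + 1) * m ^ 4 * (κ * ε) ^ 3) =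
        8 * (n : ENNReal) * (K + 1) * (m : ENNReal) ^ 4 * ENNReal.ofReal ((κ * ε) ^ 3) := by
      rw [ENNReal.ofReal_mul (by positivity), ENNReal.ofReal_mul (by positivity),
        ENNReal.ofReal_mul (by positivity), ENNReal.ofReal_mul (by positivity),
        ENNReal.ofReal_pow (by positivity), ENNReal.ofReal_natCast, ENNReal.ofReal_natCast,
        ENNReal.ofReal_add (by positivity) (by positivity), ENNReal.ofReal_natCast,
        ENNReal.ofReal_one]
      norm_num
    rw [hr]
    ring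
  exact (ENNReal.mul_le_mul_iff_right hN0 hNt).1 hchain

end H90SN
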