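import Pool.Agent.H90.SN.Union

/-!
Project SN (MP_43ee49_co), helper90, module Num: choice of the parameters.

`num_q`: `union_bound` with `Λ = q^3`, `R = q^5`, `ε = 1/q^60`, `K = q^144`, `b = q^90`, `N = q^150`,
`p = 1/q^8`. Checks for `q ≥ 3`: `n (1 + σ Λ) ≤ q + q^4 ≤ q^5`; `14 m n R^3 / δ^4 ≤ 14 q^21 ≤ q^24 = K ε²`;
`8 n (K+1) (m N² + m³ b³) ≤ 16 q^146 N² + 16 q^148 b³ ≤ N³` (`N = b q^60`);
`8 n (K+1) m^4 (2 R ε/σ)^3 ≤ 128 q^(1+144+4+18-180) = 128 q^(-13) ≤ q^(-8)` (`128 ≤ 3^5`);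
`m p ≤ q^(-7) ≤ 1/2`; failure `≤ 2 q² exp(-q^6/2) + 3 q^(-6) ≤ 4 q^(-4) + q^(-5) ≤ 1/q`
(`exp(-x) ≤ 1/x`); distance `2 n K (m+1)^5 ≤ 2 q^150 ≤ q^151` (`m + 1 ≤ q`). For `n = 0` all vertices are
equal.
`main`: `q = ⌈s⌉₊` with `s = 1 + m + n + 1/σ + 1/δ + 1/ε ≥ 3`, so `q ≤ 2 s`; `C = 2^151`, `k = 151`; a
finite `edist` is the length of a walk (`SimpleGraph.exists_walk_of_edist_ne_top`).
-/

set_option autoImplicit false

namespace H90SN

open H44SD Finset MeasureTheory ProbabilityTheory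

/-- the counting condition -/
private theorem Num_small {m n q : ℕ} (hq : 3 ≤ q) (hm : m ≤ q) (hn : n ≤ q) :
    8 * n * ((q ^ 144 + 1) * (m * (q ^ 150) ^ 2 + m ^ 3 * (q ^ 90) ^ 3)) ≤ (q ^ 150) ^ 3 := by
  have hq1 : 1 ≤ q := by omega
  have h1 : q ^ 144 + 1 ≤ 2 * q ^ 144 := by
    have := Nat.one_le_pow 144 q (by omega)
    omega
  have h2 : m * (q ^ 150) ^ 2 + m ^ 3 * (q ^ 90) ^ 3 ≤ 2 * q ^ 301 := by
    have e1 : m * (q ^ 150) ^ 2 ≤ q ^ 301 := by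
      calc m * (q ^ 150) ^ 2 ≤ q * (q ^ 150) ^ 2 := Nat.mul_le_mul_right _ hm
        _ = q ^ 301 := by ring
    have e2 : m ^ 3 * (q ^ 90) ^ 3 ≤ q ^ 301 := by
      calc m ^ 3 * (q ^ 90) ^ 3 ≤ q ^ 3 * (q ^ 90) ^ 3 := Nat.mul_le_mul_right _ (Nat.pow_le_pow_left hm 3)
        _ = q ^ 273 := by rw [← pow_mul, ← pow_add]
        _ ≤ q ^ 301 := Nat.pow_le_pow_right (by omega) (by norm_num)
    omega
  have h3 : 32 ≤ q ^ 4 := by
    calc 32 ≤ 3 ^ 4 := by norm_num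
      _ ≤ q ^ 4 := Nat.pow_le_pow_left hq 4
  calc 8 * n * ((q ^ 144 + 1) * (m * (q ^ 150) ^ 2 + m ^ 3 * (q ^ 90) ^ 3))
      ≤ 8 * q * ((2 * q ^ 144) * (2 * q ^ 301)) :=
        Nat.mul_le_mul (Nat.mul_le_mul_left _ hn) (Nat.mul_le_mul h1 h2)
    _ = 32 * q ^ 446 := by ring
    _ ≤ q ^ 4 * q ^ 446 := Nat.mul_le_mul_right _ h3
    _ = (q ^ 150) ^ 3 := by ring

theorem num_q {m n q : ℕ} (Abar : Fin m → Fin n → ℝ) (hA : ∑ i, ∑ j, Abar i j ^ 2 ≤ 1) {σ δ : ℝ}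
    (hσ : 0 < σ) (hσ1 : σ ≤ 1) (hδ : 0 < δ) (hδ1 : δ ≤ 1) (hq : 3 ≤ q) (hm : m + 1 ≤ q) (hn : n ≤ q)
    (hσq : 1 / σ ≤ q) (hδq : 1 / δ ≤ q) :
    gm m n {G | ¬ ∀ x y : ↥(Vert (pert Abar σ G)), Nice (pert Abar σ G) δ x →
      Nice (pert Abar σ G) δ y →
      (pgraph (pert Abar σ G)).edist x y ≤ ((q ^ 151 : ℕ) : ℕ∞)} ≤ ENNReal.ofReal (1 / q) := by
  rcases Nat.eq_zero_or_pos n with h0 | h0
  · subst h0
    have he : {G | ¬ ∀ x y : ↥(Vert (pert Abar σ G)), Nice (pert Abar σ G) δ x →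
      Nice (pert Abar σ G) δ y →
      (pgraph (pert Abar σ G)).edist x y ≤ ((q ^ 151 : ℕ) : ℕ∞)} = ∅ := by
      rw [Set.eq_empty_iff_forall_notMem]
      intro G hG
      refine hG fun x y _ _ => ?_
      have hxy : x = y := Subtype.ext (Subsingleton.elim _ _)
      rw [hxy, SimpleGraph.edist_self]
      exact zero_le
    rw [he, measure_empty]
    exact zero_le
  · obtain ⟨Q, hQ⟩ : ∃ Q : ℝ, Q = (q : ℝ) := ⟨_, rfl⟩
    have hQ3 : 3 ≤ Q := by rw [hQ]; exact_mod_cast hq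
    have hQ0 : 0 < Q := by linarith
    have hQ1 : 1 ≤ Q := by linarith
    have hmQ : (m : ℝ) ≤ Q := by rw [hQ]; exact_mod_cast (by omega : m ≤ q)
    have hnQ : (n : ℝ) ≤ Q := by rw [hQ]; exact_mod_cast hn
    have hm0 : (0 : ℝ) ≤ m := Nat.cast_nonneg m
    have hn0 : (0 : ℝ) ≤ n := Nat.cast_nonneg n
    rw [← hQ] at hσq hδq
    have p1 : Q ^ 4 * 3 ≤ Q ^ 5 := by
      calc Q ^ 4 * 3 ≤ Q ^ 4 * Q := mul_le_mul_of_nonneg_left hQ3 (by positivity)
        _ = Q ^ 5 := by ring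
    have hub := union_bound (m := m) (n := n) (δ := δ) (R := Q ^ 5) (Λ := Q ^ 3) (ε := 1 / Q ^ 60)
      (p := 1 / Q ^ 8) (N := q ^ 150) (K := q ^ 144) (b := q ^ 90) h0 Abar hA hσ hδ hδ1
      (one_le_pow₀ hQ1) (by positivity) (by
        have e1 : σ * Q ^ 3 ≤ Q ^ 3 := by
          have := mul_le_mul_of_nonneg_right hσ1 (show 0 ≤ Q ^ 3 by positivity)
          linarith
        have e2 : (n : ℝ) * (1 + σ * Q ^ 3) ≤ Q * (1 + Q ^ 3) :=
          mul_le_mul hnQ (by linarith) (by positivity) hQ0.le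
        have e3 : Q ≤ Q ^ 4 := by
          calc Q = Q ^ 1 := (pow_one Q).symm
            _ ≤ Q ^ 4 := pow_le_pow_right₀ hQ1 (by norm_num)
        have e4 : Q * (1 + Q ^ 3) = Q + Q ^ 4 := by ring
        linarith) (by positivity) (by
        rw [div_lt_one (by positivity)]
        exact one_lt_pow₀ (by linarith) (by norm_num)) (Nat.pos_of_ne_zero (by positivity)) (by
        push_cast
        rw [← hQ, div_mul_eq_mul_div, div_le_iff₀ (by positivity)]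
        refine le_of_eq ?_
        ring) (Num_small hq (by omega) hn) (by
        push_cast
        rw [← hQ]
        have e1 : 1 / δ ^ 4 ≤ Q ^ 4 := by
          have := pow_le_pow_left₀ (by positivity) hδq 4
          rwa [div_pow, one_pow] at this
        have e2 : 14 * (m : ℝ) * n * (Q ^ 5) ^ 3 / δ ^ 4 ≤ 14 * Q * Q * (Q ^ 5) ^ 3 * Q ^ 4 := by
          rw [div_eq_mul_one_div]
          refine mul_le_mul ?_ e1 (by positivity) (by positivity)
          refine mul_le_mul_of_nonneg_right ?_ (by positivity)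
          refine mul_le_mul (mul_le_mul_of_nonneg_left hmQ (by norm_num)) hnQ hn0 (by positivity)
        refine e2.trans ?_
        have e3 : Q ^ 144 * (1 / Q ^ 60) ^ 2 = Q ^ 24 := by
          field_simp
        rw [e3]
        have e4 : (14 : ℝ) ≤ Q ^ 3 := by
          have := pow_le_pow_left₀ (by norm_num) hQ3 3
          linarith
        calc 14 * Q * Q * (Q ^ 5) ^ 3 * Q ^ 4 = 14 * Q ^ 21 := by ring
          _ ≤ Q ^ 3 * Q ^ 21 := mul_le_mul_of_nonneg_right e4 (by positivity)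
          _ = Q ^ 24 := by ring) (by
        push_cast
        rw [← hQ]
        have e1 : 2 * Q ^ 5 / σ * (1 / Q ^ 60) ≤ 2 * Q ^ 6 * (1 / Q ^ 60) := by
          refine mul_le_mul_of_nonneg_right ?_ (by positivity)
          calc 2 * Q ^ 5 / σ = 2 * Q ^ 5 * (1 / σ) := by ring
            _ ≤ 2 * Q ^ 5 * Q := mul_le_mul_of_nonneg_left hσq (by positivity)
            _ = 2 * Q ^ 6 := by ring
        have e2 : (2 * Q ^ 5 / σ * (1 / Q ^ 60)) ^ 3 ≤ (2 * Q ^ 6 * (1 / Q ^ 60)) ^ 3 :=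
          pow_le_pow_left₀ (by positivity) e1 3
        have e3 : Q ^ 144 + 1 ≤ 2 * Q ^ 144 := by
          have : 1 ≤ Q ^ 144 := one_le_pow₀ hQ1
          linarith
        have e4 : (m : ℝ) ^ 4 ≤ Q ^ 4 := pow_le_pow_left₀ hm0 hmQ 4
        have e5 : 8 * (n : ℝ) * (Q ^ 144 + 1) * (m : ℝ) ^ 4 * (2 * Q ^ 5 / σ * (1 / Q ^ 60)) ^ 3 ≤
            8 * Q * (2 * Q ^ 144) * Q ^ 4 * (2 * Q ^ 6 * (1 / Q ^ 60)) ^ 3 := by
          refine mul_le_mul (mul_le_mul (mul_le_mul (mul_le_mul_of_nonneg_left hnQ (by norm_num)) e3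
            (by positivity) (by positivity)) e4 (by positivity) (by positivity)) e2 (by positivity) (by positivity)
        refine e5.trans ?_
        rw [le_div_iff₀ (by positivity)]
        have e6 : 8 * Q * (2 * Q ^ 144) * Q ^ 4 * (2 * Q ^ 6 * (1 / Q ^ 60)) ^ 3 * Q ^ 8 = 128 / Q ^ 5 := by
          field_simp
          ring
        rw [e6, div_le_one (by positivity)]
        have := pow_le_pow_left₀ (by norm_num) hQ3 5
        linarith) (by
        rw [mul_one_div, div_le_iff₀ (by positivity)]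
        have e1 : (2 : ℝ) ≤ Q ^ 7 := by
          calc (2 : ℝ) ≤ Q := by linarith
            _ = Q ^ 1 := (pow_one Q).symm
            _ ≤ Q ^ 7 := pow_le_pow_right₀ hQ1 (by norm_num)
        have e2 : Q * 2 ≤ Q ^ 8 := by
          calc Q * 2 ≤ Q * Q ^ 7 := mul_le_mul_of_nonneg_left e1 hQ0.le
            _ = Q ^ 8 := by ring
        linarith)
    refine le_trans (measure_mono ?_) (hub.trans (ENNReal.ofReal_le_ofReal ?_))
    · intro G hG hcon
      refine hG fun x y hx hy => (hcon x y hx hy).trans ?_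
      rw [Nat.cast_le]
      have e1 : (m + 1) ^ 5 ≤ q ^ 5 := Nat.pow_le_pow_left hm 5
      calc 2 * (n * (q ^ 144 * (m + 1) ^ 5)) ≤ q * (q * (q ^ 144 * q ^ 5)) :=
            Nat.mul_le_mul (by omega) (Nat.mul_le_mul hn (Nat.mul_le_mul_left _ e1))
        _ = q ^ 151 := by ring
    · rw [← hQ]
      have e1 : Real.exp (-(Q ^ 3) ^ 2 / 2) ≤ 2 / Q ^ 6 := by
        have h1 : Real.exp (-(Q ^ 3) ^ 2 / 2) = (Real.exp (Q ^ 6 / 2))⁻¹ := by
          rw [← Real.exp_neg]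
          congr 1
          ring
        have h2 : Q ^ 6 / 2 ≤ Real.exp (Q ^ 6 / 2) := by
          have := Real.add_one_le_exp (Q ^ 6 / 2)
          linarith
        rw [h1, inv_eq_one_div, div_le_div_iff₀ (Real.exp_pos _) (by positivity)]
        linarith
      have e2 : (m : ℝ) * n * (2 * Real.exp (-(Q ^ 3) ^ 2 / 2)) ≤ Q * Q * (2 * (2 / Q ^ 6)) :=
        mul_le_mul (mul_le_mul hmQ hnQ hn0 hQ0.le) (mul_le_mul_of_nonneg_left e1 (by norm_num))
          (by positivity) (by positivity)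
      have e3 : 2 * (m : ℝ) ^ 2 * (1 / Q ^ 8) ≤ 2 * Q ^ 2 * (1 / Q ^ 8) :=
        mul_le_mul_of_nonneg_right (mul_le_mul_of_nonneg_left (pow_le_pow_left₀ hm0 hmQ 2) (by norm_num))
          (by positivity)
      have e4 : (m : ℝ) * (n * (1 / Q ^ 8)) ≤ Q * (Q * (1 / Q ^ 8)) :=
        mul_le_mul hmQ (mul_le_mul_of_nonneg_right hnQ (by positivity)) (by positivity) hQ0.le
      have e5 : Q * Q * (2 * (2 / Q ^ 6)) + 2 * Q ^ 2 * (1 / Q ^ 8) + Q * (Q * (1 / Q ^ 8)) =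
          (4 * Q ^ 2 + 3) / Q ^ 6 := by
        field_simp
        ring
      have e6 : (4 * Q ^ 2 + 3) / Q ^ 6 ≤ 1 / Q := by
        rw [div_le_div_iff₀ (by positivity) hQ0]
        have e7 : (27 : ℝ) ≤ Q ^ 3 := by
          have := pow_le_pow_left₀ (by norm_num) hQ3 3
          linarith
        have e8 : (9 : ℝ) ≤ Q ^ 2 := by
          have := pow_le_pow_left₀ (by norm_num) hQ3 2
          linarith
        have e9 : (4 * Q ^ 2 + 3) ≤ Q ^ 2 * Q ^ 3 := by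
          have := mul_le_mul_of_nonneg_left e7 (show 0 ≤ Q ^ 2 by positivity)
          linarith
        calc (4 * Q ^ 2 + 3) * Q ≤ Q ^ 2 * Q ^ 3 * Q := mul_le_mul_of_nonneg_right e9 hQ0.le
          _ = 1 * Q ^ 6 := by ring
      linarith

theorem main : ∃ C k : ℕ, ∀ (m n : ℕ) (σ δ ε : ℝ), 0 < σ → σ ≤ 1 → 0 < δ → δ ≤ 1 → 0 < ε →
    ∀ Abar : Fin m → Fin n → ℝ, (∑ i, ∑ j, Abar i j ^ 2 ≤ 1) →
      gm m n {G | ¬ ∀ x y : ↥(Vert (pert Abar σ G)), Nice (pert Abar σ G) δ x →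
        Nice (pert Abar σ G) δ y →
        ∃ w : (pgraph (pert Abar σ G)).Walk x y,
          (w.length : ℝ) ≤ C * (1 + m + n + 1 / σ + 1 / δ + 1 / ε) ^ k} ≤ ENNReal.ofReal ε := by
  refine ⟨2 ^ 151, 151, fun m n σ δ ε hσ hσ1 hδ hδ1 hε Abar hA => ?_⟩
  obtain ⟨s, hs⟩ : ∃ s : ℝ, s = 1 + m + n + 1 / σ + 1 / δ + 1 / ε := ⟨_, rfl⟩
  obtain ⟨q, hq⟩ : ∃ q : ℕ, q = ⌈s⌉₊ := ⟨_, rfl⟩
  have hm0 : (0 : ℝ) ≤ m := Nat.cast_nonneg m
  have hn0 : (0 : ℝ) ≤ n := Nat.cast_nonneg n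
  have h1σ : 1 ≤ 1 / σ := by
    rw [le_div_iff₀ hσ]
    linarith
  have h1δ : 1 ≤ 1 / δ := by
    rw [le_div_iff₀ hδ]
    linarith
  have h1ε : 0 < 1 / ε := by positivity
  have hs3 : 3 ≤ s := by
    rw [hs]
    linarith
  have hsq : s ≤ q := by rw [hq]; exact Nat.le_ceil s
  have hq2 : (q : ℝ) ≤ 2 * s := by
    have := Nat.ceil_lt_add_one (show 0 ≤ s by linarith)
    rw [← hq] at this
    linarith
  have hq3 : 3 ≤ q := by
    have : (3 : ℝ) ≤ q := by linarith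
    exact_mod_cast this
  have hmq : m + 1 ≤ q := by
    have : (m : ℝ) + 1 ≤ q := by
      refine le_trans ?_ hsq
      rw [hs]
      linarith
    exact_mod_cast this
  have hnq : n ≤ q := by
    have : (n : ℝ) ≤ q := by
      refine le_trans ?_ hsq
      rw [hs]
      linarith
    exact_mod_cast this
  have hnum := num_q (m := m) (n := n) (q := q) Abar hA hσ hσ1 hδ hδ1 hq3 hmq hnq
    (by refine le_trans ?_ hsq; rw [hs]; linarith) (by refine le_trans ?_ hsq; rw [hs]; linarith)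
  refine le_trans (measure_mono ?_) (hnum.trans (ENNReal.ofReal_le_ofReal ?_))
  · intro G hG hcon
    refine hG fun x y hx hy => ?_
    have hd := hcon x y hx hy
    have hne : (pgraph (pert Abar σ G)).edist x y ≠ ⊤ := ne_top_of_le_ne_top (ENat.natCast_ne_top _) hd
    obtain ⟨w, hw⟩ := SimpleGraph.exists_walk_of_edist_ne_top hne
    refine ⟨w, ?_⟩
    rw [← hw, Nat.cast_le] at hd
    have h1 : (w.length : ℝ) ≤ (q : ℝ) ^ 151 := by exact_mod_cast hd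
    refine h1.trans ?_
    rw [← hs, Nat.cast_pow, Nat.cast_ofNat]
    calc (q : ℝ) ^ 151 ≤ (2 * s) ^ 151 := pow_le_pow_left₀ (Nat.cast_nonneg q) hq2 151
      _ = 2 ^ 151 * s ^ 151 := mul_pow _ _ _
  · have hq0 : (0 : ℝ) < q := by linarith
    rw [div_le_iff₀ hq0]
    have h2 : 1 / ε ≤ q := by
      refine le_trans ?_ hsq
      rw [hs]
      linarith
    rw [div_le_iff₀ hε] at h2
    linarith

end H90SN
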