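import Pool.Agent.H90.SN.ProdBound

/-!
Project SN (MP_43ee49_co), helper90, module OneBound: the last release (`S = {l}`).

For each `k' : Fin n` put `v = σ • Pi.single k' 1`. For `J ∈ powersetCard 4 (univ \ {l})`:
`gm {G | B2 (pert G) ({l}.erase l) l J (xi ι) θ ε κ v} ≤ ofReal ((κ ε)^3)` by `fib_le` with `S = {l}`,
`u = Pi.single k' 1` (constant), `E` this event, `F = univ`, `pert_resam` and `gs_B2_le`. Then
`lintegral_CB_le` for each `k'`, the sum over `k'` and Markov's inequality.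
-/

set_option autoImplicit false

namespace H90SN

open H44SD Finset MeasureTheory ProbabilityTheory

theorem one_bound_aux_meas_pert {m n : ℕ} (Abar : Fin m → Fin n → ℝ) (σ : ℝ) :
    Measurable (fun G : Fin m → Fin n → ℝ => pert Abar σ G) := by
  unfold pert
  refine measurable_pi_lambda _ (fun i => measurable_pi_lambda _ (fun j => ?_))
  exact measurable_const.add (measurable_const.mul ((measurable_pi_apply j).comp
    (measurable_pi_apply i)))

theorem one_bound_aux_B2 {m n : ℕ} (Abar : Fin m → Fin n → ℝ) (σ : ℝ) (l : Fin m) (k' : Fin n)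
    {ε κ : ℝ} (hε : 0 ≤ ε) (hκ : 0 ≤ κ) {J : Finset (Fin m)}
    (hJ : J ∈ powersetCard 4 (univ \ ({l} : Finset (Fin m)))) (ξ : Fin m → ℝ)
    (hξ : ∀ j, 1 ≤ ξ j ∧ ξ j ≤ 2) (θ : ℝ) :
    gm m n {G | B2 (pert Abar σ G) (({l} : Finset (Fin m)).erase l) l J ξ θ ε κ
      (σ • (Pi.single k' 1 : Fin n → ℝ))} ≤ ENNReal.ofReal ((κ * ε) ^ 3) := by
  classical
  set E : Set (Fin m → Fin n → ℝ) := {G | B2 (pert Abar σ G) (({l} : Finset (Fin m)).erase l) l J
    ξ θ ε κ (σ • (Pi.single k' 1 : Fin n → ℝ))} with hEdef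
  have hE : MeasurableSet E :=
    measurableSet_B2 (fun G => pert Abar σ G) (one_bound_aux_meas_pert Abar σ)
      (fun _ => σ • (Pi.single k' 1 : Fin n → ℝ)) measurable_const _ l J ξ θ ε κ
  have h := fib_le ({l} : Finset (Fin m)) (fun _ => (Pi.single k' 1 : Fin n → ℝ))
    measurable_const (fun _ => Or.inl (by
      rw [Finset.sum_eq_single k']
      · simp
      · intro b _ hb
        simp [Pi.single_eq_of_ne hb]
      · intro h
        exact absurd (Finset.mem_univ _) h)) (fun _ _ _ => rfl) E Set.univ hE MeasurableSet.univ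
    (fun G s => iff_of_true (Set.mem_univ _) (Set.mem_univ _)) (ENNReal.ofReal ((κ * ε) ^ 3)) (by
      intro G
      have h1 := gs_B2_le (line (pert Abar σ G) {l} (σ • (Pi.single k' 1 : Fin n → ℝ))
        (fun j => - dot (G j) (Pi.single k' 1 : Fin n → ℝ))) (S := {l}) (l := l)
        (Finset.mem_singleton_self l) hJ ξ hξ θ hε hκ (σ • (Pi.single k' 1 : Fin n → ℝ))
      refine le_trans (le_of_eq ?_) h1
      congr 1
      ext s
      simp only [hEdef, Set.mem_ofPred_eq, pert_resam])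
  rw [Set.inter_univ, measure_univ, mul_one] at h
  exact h

theorem one_bound {m n : ℕ} (Abar : Fin m → Fin n → ℝ) (σ : ℝ) (l : Fin m) (N K : ℕ) (hN : 0 < N)
    {ε κ : ℝ} (hε : 0 ≤ ε) (hκ : 0 ≤ κ) :
    gm m n {G | N ^ m < 8 * n * ∑ k : Fin n, CB (pert Abar σ G) {l} l N K ε κ
      (σ • (Pi.single k 1 : Fin n → ℝ))} ≤
      ENNReal.ofReal (n * (8 * n * (K + 1) * m ^ 4 * (κ * ε) ^ 3)) := by
  classical
  have hmeas : ∀ k : Fin n, Measurable (fun G : Fin m → Fin n → ℝ =>
      ((CB (pert Abar σ G) {l} l N K ε κ (σ • (Pi.single k 1 : Fin n → ℝ)) : ℕ) : ENNReal)) := by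
    intro k
    have h := measurable_CB (fun G : Fin m → Fin n → ℝ => pert Abar σ G)
      (one_bound_aux_meas_pert Abar σ) (fun _ => σ • (Pi.single k 1 : Fin n → ℝ))
      measurable_const {l} l N K ε κ
    exact (measurable_from_top (f := fun a : ℕ => (a : ENNReal))).comp h
  -- expectation for each direction
  have hint : ∀ k : Fin n, ∫⁻ G, ((CB (pert Abar σ G) {l} l N K ε κ
      (σ • (Pi.single k 1 : Fin n → ℝ)) : ℕ) : ENNReal) ∂(gm m n) ≤
      (N : ENNReal) ^ m * (K + 1) * (m : ENNReal) ^ 4 * ENNReal.ofReal ((κ * ε) ^ 3) := by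
    intro k
    exact lintegral_CB_le (gm m n) (fun G => pert Abar σ G)
      (fun _ => σ • (Pi.single k 1 : Fin n → ℝ)) {l} l N K ε κ
      (fun J ξ θ => measurableSet_B2 (fun G => pert Abar σ G) (one_bound_aux_meas_pert Abar σ)
        (fun _ => σ • (Pi.single k 1 : Fin n → ℝ)) measurable_const _ l J ξ θ ε κ) _
      (fun J hJ ι θ => one_bound_aux_B2 Abar σ l k hε hκ hJ (xi ι) (fun j => xi_bounds ι j) θ)
  set q : ENNReal := ENNReal.ofReal ((κ * ε) ^ 3) with hq
  have hsum : ∫⁻ G, (8 * n * ∑ k : Fin n, ((CB (pert Abar σ G) {l} l N K ε κ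
      (σ • (Pi.single k 1 : Fin n → ℝ)) : ℕ) : ENNReal)) ∂(gm m n) ≤
      8 * n * (n * ((N : ENNReal) ^ m * (K + 1) * (m : ENNReal) ^ 4 * q)) := by
    rw [lintegral_const_mul _ (Finset.measurable_sum _ (fun k _ => hmeas k)),
      lintegral_finsetSum _ (fun k _ => hmeas k)]
    gcongr
    calc ∑ k : Fin n, ∫⁻ G, ((CB (pert Abar σ G) {l} l N K ε κ
          (σ • (Pi.single k 1 : Fin n → ℝ)) : ℕ) : ENNReal) ∂(gm m n)
        ≤ ∑ _k : Fin n, ((N : ENNReal) ^ m * (K + 1) * (m : ENNReal) ^ 4 * q) :=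
          Finset.sum_le_sum (fun k _ => hint k)
      _ = n * ((N : ENNReal) ^ m * (K + 1) * (m : ENNReal) ^ 4 * q) := by
          rw [Finset.sum_const, Finset.card_univ, Fintype.card_fin, nsmul_eq_mul]
  have hNm0 : ((N : ENNReal) ^ m) ≠ 0 := by
    apply pow_ne_zero
    exact_mod_cast hN.ne'
  have hNmt : ((N : ENNReal) ^ m) ≠ ⊤ := ENNReal.pow_ne_top (ENNReal.natCast_ne_top N)
  have hmarkov := mul_meas_ge_le_lintegral (μ := gm m n)
    (f := fun G : Fin m → Fin n → ℝ => (8 * n * ∑ k : Fin n, ((CB (pert Abar σ G) {l} l N K ε κ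
      (σ • (Pi.single k 1 : Fin n → ℝ)) : ℕ) : ENNReal)))
    ((Finset.measurable_sum _ (fun k _ => hmeas k)).const_mul _) ((N : ENNReal) ^ m)
  have hsub : {G : Fin m → Fin n → ℝ | N ^ m < 8 * n * ∑ k : Fin n, CB (pert Abar σ G) {l} l N K ε κ
      (σ • (Pi.single k 1 : Fin n → ℝ))} ⊆ {G | ((N : ENNReal) ^ m) ≤
      (8 * n * ∑ k : Fin n, ((CB (pert Abar σ G) {l} l N K ε κ
      (σ • (Pi.single k 1 : Fin n → ℝ)) : ℕ) : ENNReal))} := by
    intro G hG
    simp only [Set.mem_ofPred_eq] at hG ⊢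
    exact_mod_cast hG.le
  have hfin : ((N : ENNReal) ^ m) * gm m n {G | N ^ m < 8 * n * ∑ k : Fin n,
      CB (pert Abar σ G) {l} l N K ε κ (σ • (Pi.single k 1 : Fin n → ℝ))} ≤
      ((N : ENNReal) ^ m) * (n * (8 * n * (K + 1) * (m : ENNReal) ^ 4 * q)) := by
    refine le_trans (mul_le_mul_right (measure_mono hsub) _) (le_trans hmarkov (le_trans hsum ?_))
    refine le_of_eq ?_
    ring
  have h2 := (ENNReal.mul_le_mul_iff_right hNm0 hNmt).1 hfin
  refine le_trans h2 (le_of_eq ?_)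
  have hp : 0 ≤ (κ * ε) ^ 3 := by positivity
  rw [ENNReal.ofReal_mul (by positivity), ENNReal.ofReal_mul (by positivity),
    ENNReal.ofReal_mul (by positivity), ENNReal.ofReal_mul (by positivity),
    ENNReal.ofReal_mul (by positivity), ENNReal.ofReal_natCast, ENNReal.ofReal_pow (by positivity),
    ENNReal.ofReal_natCast, ENNReal.ofReal_add (by positivity) (by positivity),
    ENNReal.ofReal_natCast, ENNReal.ofReal_one]
  have h8 : ENNReal.ofReal 8 = 8 := by norm_num
  rw [h8, hq]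

end H90SN
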