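import Pool.Agent.H90.SN.Defs

/-!
Project SN (MP_43ee49_co), helper90, module OptMult: multipliers and optimality at a vertex.

Everything follows from `H44SD.vert_card`, `exists_dir`, `exists_coef`, `mem_vert_iff`.
* `dot_sub_eq`: `dot f y - dot f z = ∑ i ∈ tight A y, c i * slk A i z` (rows tight at `y` have value `1` at
  `y`).
* `mult_unique`: pair `∑ (c i - c' i) • A i = 0` with the direction of `exists_dir` for `i`.
* `opt_iff`: (←) from `dot_sub_eq`: for `i ∈ S` the slack at `z` is `0`. (→) if `c i < 0` for a tight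
  `i ∉ S` let `d` be its direction (`dot (A i) d = -1`, `0` on the other tight rows): for small `t > 0` the point
  `y + t d` is in `poly A` (rows which are not tight have positive slack), `S` is tight there and
  `dot f (y + t d) = dot f y - t c i > dot f y`.
* `opt_unique`: `dot_sub_eq` is a sum of nonnegative terms which is `≤ 0`, so all slacks at `z` of the rows
  in `tight A y \ S` are `0`, hence `tight A y ⊆ tight A z` and `z - y` is orthogonal to the tight rows.
-/

set_option autoImplicit false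

namespace H90SN

open H44SD Finset

variable {m n : ℕ} {A : Fin m → Fin n → ℝ}

theorem dot_sub_eq {y f : Fin n → ℝ} {c : Fin m → ℝ} (h : Mult A y f c) (z : Fin n → ℝ) :
    dot f y - dot f z = ∑ i ∈ tight A y, c i * slk A i z := by
  have h' : f = ∑ i ∈ tight A y, c i • A i := h
  rw [h', sum_dot, sum_dot, ← Finset.sum_sub_distrib]
  refine Finset.sum_congr rfl fun i hi => ?_
  rw [smul_dot, smul_dot, mem_tight.1 hi]
  unfold slk
  ring

private theorem OptMult_dir {y f d : Fin n → ℝ} {c : Fin m → ℝ} (h : Mult A y f c) {i : Fin m}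
    (hi : i ∈ tight A y) (h1 : dot (A i) d = -1)
    (h2 : ∀ j ∈ tight A y, j ≠ i → dot (A j) d = 0) : dot f d = - c i := by
  have h' : f = ∑ i ∈ tight A y, c i • A i := h
  rw [h', sum_dot, Finset.sum_eq_single_of_mem i hi (fun j hj hji => by
    rw [smul_dot, h2 j hj hji, mul_zero]), smul_dot, h1]
  ring

theorem mult_unique (hN : Nondeg A) {y f : Fin n → ℝ} (hy : y ∈ Vert A) {c c' : Fin m → ℝ}
    (h : Mult A y f c) (h' : Mult A y f c') : ∀ i ∈ tight A y, c i = c' i := by
  intro i hi
  obtain ⟨d, hd1, hd2⟩ := exists_dir hN hy hi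
  have e1 := OptMult_dir h hi hd1 hd2
  have e2 := OptMult_dir h' hi hd1 hd2
  linarith

theorem opt_iff (hN : Nondeg A) {y f : Fin n → ℝ} (hy : y ∈ Vert A) {c : Fin m → ℝ}
    (h : Mult A y f c) {S : Finset (Fin m)} (hS : S ⊆ tight A y) :
    (∀ z ∈ poly A, S ⊆ tight A z → dot f z ≤ dot f y) ↔ ∀ i ∈ tight A y \ S, 0 ≤ c i := by
  have hyp := ((mem_vert_iff A y).mp hy).1
  constructor
  · intro hmax i hi
    rw [Finset.mem_sdiff] at hi
    by_contra hneg
    push Not at hneg
    obtain ⟨d, hd1, hd2⟩ := exists_dir hN hy hi.1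
    have e1 := OptMult_dir h hi.1 hd1 hd2
    have hev : ∀ j, ∀ᶠ e : ℝ in nhdsWithin 0 (Set.Ioi 0), dot (A j) (y + e • d) ≤ 1 := by
      intro j
      by_cases hj : j ∈ tight A y
      · by_cases hji : j = i
        · subst hji
          refine Filter.Eventually.mono self_mem_nhdsWithin fun e he => ?_
          have he' : 0 < e := he
          rw [dot_add, dot_smul, hd1, mem_tight.mp hj]
          linarith
        · refine Filter.Eventually.of_forall fun e => ?_
          rw [dot_add, dot_smul, hd2 j hj hji, mem_tight.mp hj]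
          simp
      · have hlt : dot (A j) y < 1 :=
          lt_of_le_of_ne (mem_poly.1 hyp j) fun h => hj (mem_tight.mpr h)
        have hcont : Continuous fun e : ℝ => dot (A j) y + e * dot (A j) d := by fun_prop
        have h0 : Filter.Tendsto (fun e : ℝ => dot (A j) y + e * dot (A j) d)
            (nhdsWithin 0 (Set.Ioi 0)) (nhds (dot (A j) y + 0 * dot (A j) d)) :=
          (hcont.tendsto 0).mono_left nhdsWithin_le_nhds
        have h1' : ∀ᶠ e : ℝ in nhdsWithin 0 (Set.Ioi 0), dot (A j) y + e * dot (A j) d < 1 :=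
          (tendsto_order.mp h0).2 1 (by rw [zero_mul, add_zero]; exact hlt)
        refine h1'.mono fun e he => ?_
        rw [dot_add, dot_smul]
        exact he.le
    obtain ⟨e, h1, he⟩ := ((Filter.eventually_all.mpr hev).and self_mem_nhdsWithin).exists
    have he' : 0 < e := he
    have h2 : y + e • d ∈ poly A := mem_poly.2 h1
    have h3 : S ⊆ tight A (y + e • d) := by
      intro j hj
      have hji : j ≠ i := fun hji => hi.2 (hji ▸ hj)
      rw [mem_tight, dot_add, dot_smul, hd2 j (hS hj) hji, mem_tight.mp (hS hj)]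
      simp
    have h4 := hmax _ h2 h3
    rw [dot_add, dot_smul, e1] at h4
    nlinarith
  · intro hc z hz hSz
    have h1 := dot_sub_eq h z
    have h2 : 0 ≤ ∑ i ∈ tight A y, c i * slk A i z := by
      refine Finset.sum_nonneg fun i hi => ?_
      by_cases hiS : i ∈ S
      · rw [slk_eq_zero.2 (hSz hiS), mul_zero]
      · exact mul_nonneg (hc i (Finset.mem_sdiff.2 ⟨hi, hiS⟩)) (slk_nonneg hz)
    linarith

theorem opt_unique {y f : Fin n → ℝ} (hy : y ∈ Vert A) {c : Fin m → ℝ} (h : Mult A y f c)
    {S : Finset (Fin m)} (hpos : ∀ i ∈ tight A y \ S, 0 < c i) {z : Fin n → ℝ}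
    (hz : z ∈ poly A) (hSz : S ⊆ tight A z) (hle : dot f y ≤ dot f z) : z = y := by
  have h1 := dot_sub_eq h z
  have h2 : ∀ i ∈ tight A y, 0 ≤ c i * slk A i z := by
    intro i hi
    by_cases hiS : i ∈ S
    · rw [slk_eq_zero.2 (hSz hiS), mul_zero]
    · exact mul_nonneg (hpos i (Finset.mem_sdiff.2 ⟨hi, hiS⟩)).le (slk_nonneg hz)
  have h3 : ∑ i ∈ tight A y, c i * slk A i z = 0 :=
    le_antisymm (by linarith) (Finset.sum_nonneg h2)
  have h4 := (Finset.sum_eq_zero_iff_of_nonneg h2).1 h3
  have h5 : tight A y ⊆ tight A z := by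
    intro i hi
    by_cases hiS : i ∈ S
    · exact hSz hiS
    · have h6 := h4 i hi
      have h7 := hpos i (Finset.mem_sdiff.2 ⟨hi, hiS⟩)
      exact slk_eq_zero.1 ((mul_eq_zero.1 h6).resolve_left h7.ne')
  exact (vert_eq_of_subset hy h5).symm

end H90SN
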