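import Pool.Agent.H90.SN.Fib
import Pool.Agent.H90.SN.LineProb
import Pool.Agent.H90.SN.InvB2

/-!
Project SN (MP_43ee49_co), helper90, module ProdBound: for a fixed set `S` all releases `l ∈ S \ {l0}` are
bad only with probability `p^(S.card - 1)`.

Induction on subsets `T ⊆ S.erase l0` for
`F_T = {G | ∀ l ∈ T, N^m < 8 n CB (pert G) S l … (σ • unit (pert G l0 - pert G l))}`: `gm F_T ≤ p^T.card`.
For `T = insert l T'` use `fib_le` with `E = F_{l}`, `F = F_{T'}` and `u G = unit (pert G l0 - pert G l)`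
(function of the rows in `S`, measurable; `∑ unit² = 1` or `unit = 0`).
* invariance: `pert Abar σ (resam S (u G) G s) = line (pert Abar σ G) S (pert G l0 - pert G l) s''` with
  `s'' j = σ (s j - dot (G j) (u G)) / √(∑ (pert G l0 - pert G l)²)` (both sides are `pert G` if that vector
  is `0`); the rows in `S` do not change, so the direction of `l' ∈ T'` does not change, and `CB_line` for
  `l'` with `a = l0`, `b = l` (`l ≠ l'`).
* fibre: `pert Abar σ (resam S u G s) = line A0 S (σ • u) s` with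
  `A0 = line (pert Abar σ G) S (σ • u) (fun j => - dot (G j) u)`, and `gs_CB_le`.
Measurability: `measurable_CB`.
-/

set_option autoImplicit false

namespace H90SN

open H44SD Finset MeasureTheory ProbabilityTheory

theorem unit_norm {n : ℕ} (v : Fin n → ℝ) : ∑ k, unit v k ^ 2 = 1 ∨ unit v = 0 := by
  have hq : 0 ≤ ∑ k, v k ^ 2 := Finset.sum_nonneg fun k _ => sq_nonneg _
  rcases hq.eq_or_lt with h | h
  · right
    rw [unit, ← h, Real.sqrt_zero, div_zero, zero_smul]
  · left
    have h1 : ∀ k, unit v k ^ 2 = (∑ k, v k ^ 2)⁻¹ * v k ^ 2 := by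
      intro k
      rw [unit, Pi.smul_apply, smul_eq_mul, mul_pow, div_pow, one_pow, Real.sq_sqrt hq, one_div]
    rw [Finset.sum_congr rfl fun k _ => h1 k, ← Finset.mul_sum, inv_mul_cancel₀ h.ne']

theorem measurable_unit {n : ℕ} : Measurable (unit : (Fin n → ℝ) → Fin n → ℝ) := by
  refine measurable_pi_iff.2 fun k => ?_
  have h1 : Measurable (fun v : Fin n → ℝ => 1 / Real.sqrt (∑ k, v k ^ 2)) := by
    have h2 : Measurable (fun v : Fin n → ℝ => ∑ k, v k ^ 2) :=
      Finset.measurable_sum _ fun k _ => (measurable_pi_apply k).pow_const 2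
    exact measurable_const.div (Real.continuous_sqrt.measurable.comp h2)
  exact h1.mul (measurable_pi_apply k)

theorem pert_resam {m n : ℕ} (Abar : Fin m → Fin n → ℝ) (σ : ℝ) (S : Finset (Fin m))
    (u : Fin n → ℝ) (G : Fin m → Fin n → ℝ) (s : Fin m → ℝ) :
    pert Abar σ (resam S u G s) =
      line (line (pert Abar σ G) S (σ • u) (fun j => - dot (G j) u)) S (σ • u) s := by
  funext j k
  by_cases hj : j ∈ S
  · simp only [pert, resam, line, if_pos hj]
  · simp only [pert, resam, line, if_neg hj, Pi.add_apply, Pi.smul_apply, smul_eq_mul]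
    ring

private lemma pb_row {m n : ℕ} (Abar : Fin m → Fin n → ℝ) (σ : ℝ) (S : Finset (Fin m))
    (u : Fin n → ℝ) (G : Fin m → Fin n → ℝ) (s : Fin m → ℝ) {j : Fin m} (hj : j ∈ S) :
    pert Abar σ (resam S u G s) j = pert Abar σ G j := by
  funext k
  simp only [pert, resam, if_pos hj]

private lemma pb_line {m n : ℕ} (Abar : Fin m → Fin n → ℝ) (σ : ℝ) (S : Finset (Fin m))
    (v : Fin n → ℝ) (G : Fin m → Fin n → ℝ) (s : Fin m → ℝ) :
    pert Abar σ (resam S (unit v) G s) =
      line (pert Abar σ G) S v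
        (fun j => σ * (s j - dot (G j) (unit v)) * (1 / Real.sqrt (∑ k, v k ^ 2))) := by
  funext j k
  by_cases hj : j ∈ S
  · simp only [pert, resam, line, if_pos hj]
  · have h1 : unit v k = 1 / Real.sqrt (∑ k, v k ^ 2) * v k := rfl
    simp only [pert, resam, line, if_neg hj, Pi.add_apply, Pi.smul_apply, smul_eq_mul]
    rw [h1]
    ring

private lemma pb_meas {m n : ℕ} (Abar : Fin m → Fin n → ℝ) (σ : ℝ) :
    Measurable (fun G : Fin m → Fin n → ℝ => pert Abar σ G) := by
  refine measurable_pi_iff.2 fun i => measurable_pi_iff.2 fun k => ?_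
  have h1 : Measurable (fun G : Fin m → Fin n → ℝ => G i k) :=
    (measurable_pi_apply k).comp (measurable_pi_apply i)
  exact measurable_const.add (measurable_const.mul h1)

private lemma pb_u {m n : ℕ} (Abar : Fin m → Fin n → ℝ) (σ : ℝ) (l0 l : Fin m) :
    Measurable (fun G : Fin m → Fin n → ℝ => unit (pert Abar σ G l0 - pert Abar σ G l)) := by
  have h1 := pb_meas (n := n) Abar σ
  exact measurable_unit.comp (((measurable_pi_apply l0).comp h1).sub ((measurable_pi_apply l).comp h1))

private lemma pb_E {m n : ℕ} (Abar : Fin m → Fin n → ℝ) (σ : ℝ) (S : Finset (Fin m)) (l0 l : Fin m)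
    (N K : ℕ) (ε κ : ℝ) :
    MeasurableSet {G : Fin m → Fin n → ℝ | N ^ m < 8 * n * CB (pert Abar σ G) S l N K ε κ
      (σ • unit (pert Abar σ G l0 - pert Abar σ G l))} := by
  have h1 : Measurable (fun G : Fin m → Fin n → ℝ => CB (pert Abar σ G) S l N K ε κ
      (σ • unit (pert Abar σ G l0 - pert Abar σ G l))) :=
    measurable_CB _ (pb_meas Abar σ) _ ((pb_u Abar σ l0 l).const_smul σ) S l N K ε κ
  exact h1 (MeasurableSet.of_discrete (s := {c : ℕ | N ^ m < 8 * n * c}))

private lemma pb_ind {m n : ℕ} (Abar : Fin m → Fin n → ℝ) (σ : ℝ) (S : Finset (Fin m)) {l0 : Fin m}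
    (hl0 : l0 ∈ S) (N K : ℕ) (hN : 0 < N) {ε κ : ℝ} (hε : 0 ≤ ε) (hκ : 0 ≤ κ) (T : Finset (Fin m)) :
    T ⊆ S.erase l0 →
    gm m n {G | ∀ l ∈ T, N ^ m < 8 * n * CB (pert Abar σ G) S l N K ε κ
      (σ • unit (pert Abar σ G l0 - pert Abar σ G l))} ≤
      ENNReal.ofReal (8 * n * (K + 1) * m ^ 4 * (κ * ε) ^ 3) ^ T.card := by
  classical
  induction T using Finset.induction_on with
  | empty =>
    intro _
    rw [Finset.card_empty, pow_zero]
    exact prob_le_one
  | insert l T' hlT ih =>
    intro hT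
    have hlS0 : l ∈ S.erase l0 := hT (Finset.mem_insert_self l T')
    have hlS : l ∈ S := Finset.mem_of_mem_erase hlS0
    have hll0 : l ≠ l0 := Finset.ne_of_mem_erase hlS0
    have hT' : T' ⊆ S.erase l0 := fun j hj => hT (Finset.mem_insert_of_mem hj)
    set p : ENNReal := ENNReal.ofReal (8 * n * (K + 1) * m ^ 4 * (κ * ε) ^ 3) with hp
    set u : (Fin m → Fin n → ℝ) → Fin n → ℝ := fun G => unit (pert Abar σ G l0 - pert Abar σ G l) with hu
    set E : Set (Fin m → Fin n → ℝ) := {G | N ^ m < 8 * n * CB (pert Abar σ G) S l N K ε κ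
      (σ • unit (pert Abar σ G l0 - pert Abar σ G l))} with hE
    set F : Set (Fin m → Fin n → ℝ) := {G | ∀ l ∈ T', N ^ m < 8 * n * CB (pert Abar σ G) S l N K ε κ
      (σ • unit (pert Abar σ G l0 - pert Abar σ G l))} with hF
    have hEm : MeasurableSet E := pb_E Abar σ S l0 l N K ε κ
    have hFm : MeasurableSet F := by
      have h1 : F = ⋂ l' ∈ T', {G : Fin m → Fin n → ℝ | N ^ m < 8 * n * CB (pert Abar σ G) S l' N K ε κ
          (σ • unit (pert Abar σ G l0 - pert Abar σ G l'))} := by
        ext G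
        simp only [hF, Set.mem_ofPred_eq, Set.mem_iInter]
      rw [h1]
      exact Finset.measurableSet_biInter T' fun l' _ => pb_E Abar σ S l0 l' N K ε κ
    have hinv : ∀ G s, resam S (u G) G s ∈ F ↔ G ∈ F := by
      intro G s
      have hl : pert Abar σ (resam S (u G) G s) = line (pert Abar σ G) S (pert Abar σ G l0 - pert Abar σ G l)
          (fun j => σ * (s j - dot (G j) (u G)) *
            (1 / Real.sqrt (∑ k, (pert Abar σ G l0 - pert Abar σ G l) k ^ 2))) :=
        pb_line Abar σ S (pert Abar σ G l0 - pert Abar σ G l) G s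
      have hkey : ∀ l' ∈ T', CB (pert Abar σ (resam S (u G) G s)) S l' N K ε κ
          (σ • unit (pert Abar σ (resam S (u G) G s) l0 - pert Abar σ (resam S (u G) G s) l')) =
          CB (pert Abar σ G) S l' N K ε κ (σ • unit (pert Abar σ G l0 - pert Abar σ G l')) := by
        intro l' hl'
        have hl'S0 := hT' hl'
        have hl'S : l' ∈ S := Finset.mem_of_mem_erase hl'S0
        have hne : l ≠ l' := fun h => hlT (h ▸ hl')
        rw [pb_row Abar σ S (u G) G s hl0, pb_row Abar σ S (u G) G s hl'S, hl]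
        exact CB_line (Finset.mem_erase.2 ⟨(Finset.ne_of_mem_erase hl'S0).symm, hl0⟩)
          (Finset.mem_erase.2 ⟨hne, hlS⟩) hl'S _
      constructor
      · intro h l' hl'
        have h1 := h l' hl'
        rwa [hkey l' hl'] at h1
      · intro h l' hl'
        rw [hkey l' hl']
        exact h l' hl'
    have hfib : ∀ G, gs m {s | resam S (u G) G s ∈ E} ≤ p := by
      intro G
      have h1 : {s | resam S (u G) G s ∈ E} =
          {s | N ^ m < 8 * n * CB (line (line (pert Abar σ G) S (σ • u G) (fun j => - dot (G j) (u G))) S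
            (σ • u G) s) S l N K ε κ (σ • u G)} := by
        ext s
        simp only [hE, Set.mem_ofPred_eq]
        rw [pb_row Abar σ S (u G) G s hl0, pb_row Abar σ S (u G) G s hlS, pert_resam]
      rw [h1]
      exact gs_CB_le _ hlS N K hN hε hκ (σ • u G)
    have hmain := fib_le S u (pb_u Abar σ l0 l) (fun G => unit_norm _) (fun G G' h => by
      have h0 : pert Abar σ G l0 = pert Abar σ G' l0 := by
        funext k
        simp only [pert, h l0 hl0]
      have h1 : pert Abar σ G l = pert Abar σ G' l := by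
        funext k
        simp only [pert, h l hlS]
      simp only [hu, h0, h1]) E F hEm hFm hinv p hfib
    have hset : {G : Fin m → Fin n → ℝ | ∀ l' ∈ insert l T', N ^ m < 8 * n * CB (pert Abar σ G) S l' N K ε κ
        (σ • unit (pert Abar σ G l0 - pert Abar σ G l'))} ⊆ E ∩ F := by
      intro G hG
      exact ⟨hG l (Finset.mem_insert_self l T'), fun l' hl' => hG l' (Finset.mem_insert_of_mem hl')⟩
    rw [Finset.card_insert_of_notMem hlT, pow_succ']
    exact (measure_mono hset).trans (hmain.trans (mul_le_mul_right (ih hT') p))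

theorem prod_bound {m n : ℕ} (Abar : Fin m → Fin n → ℝ) (σ : ℝ) (S : Finset (Fin m)) {l0 : Fin m}
    (hl0 : l0 ∈ S) (N K : ℕ) (hN : 0 < N) {ε κ : ℝ} (hε : 0 ≤ ε) (hκ : 0 ≤ κ) :
    gm m n {G | ∀ l ∈ S.erase l0, N ^ m < 8 * n * CB (pert Abar σ G) S l N K ε κ
      (σ • unit (pert Abar σ G l0 - pert Abar σ G l))} ≤
      ENNReal.ofReal (8 * n * (K + 1) * m ^ 4 * (κ * ε) ^ 3) ^ (S.card - 1) := by
  rw [← Finset.card_erase_of_mem hl0]
  exact pb_ind Abar σ S hl0 N K hN hε hκ (S.erase l0) (Finset.Subset.refl _)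

end H90SN
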