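import Pool.Agent.H90.SN.RowMP

/-!
Project SN (MP_43ee49_co), helper90, module ResamMP: resampling of the rows outside `S` in a direction
which is a function of the rows in `S`.

Split `gm m n` (`measurePreserving_piEquivPiSubtypeProd`, `p i = (i ∈ S)`) into the rows `a` in `S` and the
rows `b` outside `S`, and `gs m` in the same way. For a fixed `a` the vector `u` is fixed and the map
`(b, s) ↦ (b j + (s j - b j·u) u)_{j ∉ S}` is measure preserving from
`∏ (rowm n) × ∏ gaussianReal 0 1` to `∏ rowm n` (a product over `j` of the maps of `row_mp`; e.g.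
`measurePreserving_pi` together with the rearrangement `∏ X_j × ∏ Y_j ≃ ∏ (X_j × Y_j)`, or by
`Measure.pi_eq` on boxes). Then `MeasurePreserving.skew_product` with `a ↦ a` in the first component
(measurability of the joint map from `hum`), or directly: for measurable `W` compute
`((gm m n).prod (gs m)) (Ψ⁻¹ W)` by Fubini. The coordinates `s j`, `j ∈ S`, are not used.
-/

set_option autoImplicit false

namespace H90SN

open H44SD Finset MeasureTheory ProbabilityTheory

/-- the direction as a function of the rows in the set `p` -/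
private noncomputable def uS {m n : ℕ} (p : Fin m → Prop) [DecidablePred p]
    (u : (Fin m → Fin n → ℝ) → Fin n → ℝ) (a : Subtype p → (Fin n → ℝ) × ℝ) : Fin n → ℝ :=
  u fun i => if h : p i then (a ⟨i, h⟩).1 else 0

private theorem measurable_uS {m n : ℕ} (p : Fin m → Prop) [DecidablePred p]
    (u : (Fin m → Fin n → ℝ) → Fin n → ℝ) (hum : Measurable u) : Measurable (uS p u) := by
  unfold uS
  refine hum.comp (measurable_pi_iff.2 fun i => ?_)
  by_cases h : p i
  · simp only [h, dite_true]
    exact measurable_fst.comp (measurable_pi_apply _)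
  · simp only [h, dite_false]
    exact measurable_const

private theorem measurable_step {n : ℕ} :
    Measurable (fun q : (Fin n → ℝ) × ((Fin n → ℝ) × ℝ) =>
      q.2.1 + (q.2.2 - dot q.2.1 q.1) • q.1) := by
  refine measurable_pi_iff.2 fun k => ?_
  simp only [Pi.add_apply, Pi.smul_apply, smul_eq_mul, dot]
  fun_prop

private theorem resam_mp_aux {m n : ℕ} (p : Fin m → Prop) [DecidablePred p]
    (u : (Fin m → Fin n → ℝ) → Fin n → ℝ)
    (hum : Measurable u) (hu : ∀ G, ∑ k, u G k ^ 2 = 1 ∨ u G = 0)
    (hdep : ∀ G G' : Fin m → Fin n → ℝ, (∀ i, p i → G i = G' i) → u G = u G') :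
    MeasurePreserving (fun q : (Fin m → Fin n → ℝ) × (Fin m → ℝ) =>
      (fun j => if p j then q.1 j else q.1 j + (q.2 j - dot (q.1 j) (u q.1)) • u q.1 :
        Fin m → Fin n → ℝ))
      ((gm m n).prod (gs m)) (gm m n) := by
  have h1 := (measurePreserving_arrowProdEquivProdArrow (Fin n → ℝ) ℝ (Fin m)
    (fun _ => rowm n) (fun _ => gaussianReal 0 1)).symm
  have h2 := measurePreserving_piEquivPiSubtypeProd
    (fun _ : Fin m => (rowm n).prod (gaussianReal 0 1)) p
  have h3 : MeasurePreserving
      (fun q : (Subtype p → (Fin n → ℝ) × ℝ) × ({i // ¬ p i} → (Fin n → ℝ) × ℝ) =>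
        ((fun i => (q.1 i).1 : Subtype p → Fin n → ℝ),
         (fun j => (q.2 j).1 + ((q.2 j).2 - dot (q.2 j).1 (uS p u q.1)) • uS p u q.1 :
           {i // ¬ p i} → Fin n → ℝ)))
      ((Measure.pi fun _ => (rowm n).prod (gaussianReal 0 1)).prod
        (Measure.pi fun _ => (rowm n).prod (gaussianReal 0 1)))
      ((Measure.pi fun _ => rowm n).prod (Measure.pi fun _ => rowm n)) := by
    refine MeasurePreserving.skew_product
      (f := fun (a : Subtype p → (Fin n → ℝ) × ℝ) i => (a i).1)
      (g := fun (a : Subtype p → (Fin n → ℝ) × ℝ) (b : {i // ¬ p i} → (Fin n → ℝ) × ℝ) j =>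
        (b j).1 + ((b j).2 - dot (b j).1 (uS p u a)) • uS p u a) ?_ ?_ ?_
    · exact measurePreserving_pi _ _ (fun _ => measurePreserving_fst)
    · refine measurable_pi_iff.2 fun j => ?_
      exact measurable_step.comp
        (((measurable_uS p u hum).comp measurable_fst).prodMk
          ((measurable_pi_apply j).comp measurable_snd))
    · refine Filter.Eventually.of_forall fun a => ?_
      exact (measurePreserving_pi _ _ (fun _ => row_mp (uS p u a) (hu _))).map_eq
  have h4 := (measurePreserving_piEquivPiSubtypeProd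
    (fun _ : Fin m => rowm n) p).symm
  have h5 := h4.comp (h3.comp (h2.comp h1))
  rw [gm_eq]
  unfold gs
  convert h5 using 1
  funext q j
  have hq : uS p u (fun i : Subtype p => (q.1 i, q.2 i)) = u q.1 := by
    unfold uS
    refine hdep _ _ fun i hi => ?_
    simp only [hi, dite_true]
  by_cases hj : p j
  · simp [hj, MeasurableEquiv.piEquivPiSubtypeProd, MeasurableEquiv.arrowProdEquivProdArrow,
      Equiv.arrowProdEquivProdArrow, Equiv.piEquivPiSubtypeProd]
  · rw [if_neg hj]
    have hR : (⇑(MeasurableEquiv.piEquivPiSubtypeProd (fun _ : Fin m => Fin n → ℝ) p).symm ∘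
        (fun q : (Subtype p → (Fin n → ℝ) × ℝ) × ({i // ¬ p i} → (Fin n → ℝ) × ℝ) =>
        ((fun i => (q.1 i).1 : Subtype p → Fin n → ℝ),
         (fun j => (q.2 j).1 + ((q.2 j).2 - dot (q.2 j).1 (uS p u q.1)) • uS p u q.1 :
           {i // ¬ p i} → Fin n → ℝ))) ∘
        ⇑(MeasurableEquiv.piEquivPiSubtypeProd (fun _ : Fin m => (Fin n → ℝ) × ℝ) p) ∘
        ⇑(MeasurableEquiv.arrowProdEquivProdArrow (Fin n → ℝ) ℝ (Fin m)).symm) q j =
        if h : p j then q.1 j else q.1 j + (q.2 j - dot (q.1 j)
          (uS p u (fun i : Subtype p => (q.1 i, q.2 i)))) •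
          uS p u (fun i : Subtype p => (q.1 i, q.2 i)) := rfl
    refine Eq.symm (hR.trans ?_)
    rw [dif_neg hj, hq]

theorem resam_mp {m n : ℕ} (S : Finset (Fin m)) (u : (Fin m → Fin n → ℝ) → Fin n → ℝ)
    (hum : Measurable u) (hu : ∀ G, ∑ k, u G k ^ 2 = 1 ∨ u G = 0)
    (hdep : ∀ G G' : Fin m → Fin n → ℝ, (∀ i ∈ S, G i = G' i) → u G = u G') :
    MeasurePreserving (fun p : (Fin m → Fin n → ℝ) × (Fin m → ℝ) => resam S (u p.1) p.1 p.2)
      ((gm m n).prod (gs m)) (gm m n) :=
  resam_mp_aux (fun i => i ∈ S) u hum hu hdep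

end H90SN
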