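import Pool.Agent.H90.SN.Defs

/-!
Project SN (MP_43ee49_co), helper90, module RowMP: resampling one component of a standard Gaussian
vector does not change its law.

For a unit vector `u` and independent `g` (law `rowm n`), `s` (law `gaussianReal 0 1`) the vector
`g + (s - g·u) u` has law `rowm n`: by characteristic functions (`Measure.ext_of_charFun` on
`EuclideanSpace`, or `charFunDual`/`charFun_pi`): for `t` the form
`t·g' = g·(t - (t·u) u) + s (t·u)` has characteristic function
`exp(-|t - (t·u)u|²/2) exp(-(t·u)²/2) = exp(-|t|²/2)`; or because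
`(g, s) ↦ (g + (s - g·u) u, g·u)` is a linear isometry of `ℝ^n × ℝ` (`stdGaussian_map`,
`map_pi_eq_stdGaussian` in `Mathlib.Probability.Distributions.Gaussian.Multivariate`). For `u = 0` the map is
the first projection.
-/

set_option autoImplicit false

namespace H90SN

open H44SD Finset MeasureTheory ProbabilityTheory

theorem char_one (L : StrongDual ℝ ℝ) :
    charFunDual (gaussianReal 0 1) L = Complex.exp (-((L 1 ^ 2 / 2 : ℝ) : ℂ)) := by
  have h1 : charFunDual (gaussianReal 0 1) L = charFun (gaussianReal 0 1) (L 1) := by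
    rw [charFunDual_apply, charFun_apply_real]
    congr 1
    ext v
    have h2 : L v = L 1 * v := by
      have h3 := L.map_smul v (1 : ℝ)
      simp only [smul_eq_mul, mul_one] at h3
      rw [h3]; ring
    rw [h2]
    push_cast
    ring_nf
  rw [h1, charFun_gaussianReal]
  congr 1
  push_cast
  ring

theorem row_char {n : ℕ} (L : StrongDual ℝ (Fin n → ℝ)) :
    charFunDual (rowm n) L =
      Complex.exp (-(((∑ k, L (Pi.single k 1) ^ 2) / 2 : ℝ) : ℂ)) := by
  unfold rowm
  rw [charFunDual_pi]
  simp_rw [char_one]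
  rw [← Complex.exp_sum]
  congr 1
  rw [Finset.sum_neg_distrib, Finset.sum_div]
  push_cast
  congr 1

/-- `g ↦ g·u` as a continuous linear map -/
noncomputable def dotL {n : ℕ} (u : Fin n → ℝ) : (Fin n → ℝ) →L[ℝ] ℝ :=
  ∑ j, u j • ContinuousLinearMap.proj (R := ℝ) (φ := fun _ : Fin n => ℝ) j

theorem dotL_apply {n : ℕ} (u g : Fin n → ℝ) : dotL u g = dot g u := by
  unfold dotL dot
  simp only [FunLike.coe_sum, Finset.sum_apply, FunLike.coe_smul,
    Pi.smul_apply, ContinuousLinearMap.proj_apply, smul_eq_mul]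
  exact Finset.sum_congr rfl fun j _ => mul_comm _ _

/-- the resampling map as a continuous linear map -/
noncomputable def resL {n : ℕ} (u : Fin n → ℝ) : ((Fin n → ℝ) × ℝ) →L[ℝ] (Fin n → ℝ) :=
  ContinuousLinearMap.fst ℝ (Fin n → ℝ) ℝ +
    (ContinuousLinearMap.snd ℝ (Fin n → ℝ) ℝ -
      (dotL u).comp (ContinuousLinearMap.fst ℝ (Fin n → ℝ) ℝ)).smulRight u

theorem resL_apply {n : ℕ} (u : Fin n → ℝ) (p : (Fin n → ℝ) × ℝ) :
    resL u p = p.1 + (p.2 - dot p.1 u) • u := by
  unfold resL
  simp [dotL_apply]

theorem row_mp {n : ℕ} (u : Fin n → ℝ) (hu : ∑ k, u k ^ 2 = 1 ∨ u = 0) :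
    MeasurePreserving (fun p : (Fin n → ℝ) × ℝ => p.1 + (p.2 - dot p.1 u) • u)
      ((rowm n).prod (gaussianReal 0 1)) (rowm n) := by
  rcases hu with hu | hu
  · have hf : (fun p : (Fin n → ℝ) × ℝ => p.1 + (p.2 - dot p.1 u) • u) = resL u :=
      funext fun p => (resL_apply u p).symm
    rw [hf]
    refine ⟨(resL u).continuous.measurable, ?_⟩
    have : IsProbabilityMeasure (((rowm n).prod (gaussianReal 0 1)).map (resL u)) :=
      Measure.isProbabilityMeasure_map (resL u).continuous.measurable.aemeasurable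
    apply Measure.ext_of_charFunDual
    ext L
    rw [charFunDual_map, charFunDual_prod, row_char, char_one, row_char, ← Complex.exp_add]
    congr 1
    rw [← neg_add, ← Complex.ofReal_add]
    congr 2
    have hLu : L u = ∑ k, L (Pi.single k 1) * u k := by
      have h1 : u = ∑ k, u k • (Pi.single k (1 : ℝ) : Fin n → ℝ) := by
        ext j
        simp [Finset.sum_apply, Pi.single_apply]
      conv_lhs => rw [h1]
      rw [map_sum]
      refine Finset.sum_congr rfl fun k _ => ?_
      rw [map_smul, smul_eq_mul, mul_comm]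
    have h2 : ∀ k, ((L.comp (resL u)).comp (ContinuousLinearMap.inl ℝ (Fin n → ℝ) ℝ))
        (Pi.single k 1) = L (Pi.single k 1) - u k * L u := by
      intro k
      have h3 : dot (Pi.single k (1 : ℝ)) u = u k := by
        unfold dot
        simp [Pi.single_apply]
      simp only [ContinuousLinearMap.comp_apply, ContinuousLinearMap.inl_apply, resL_apply, h3,
        map_add, map_smul, smul_eq_mul]
      ring
    have h4 : ((L.comp (resL u)).comp (ContinuousLinearMap.inr ℝ (Fin n → ℝ) ℝ)) 1 = L u := by
      have h3 : dot (0 : Fin n → ℝ) u = 0 := by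
        unfold dot
        simp
      simp only [ContinuousLinearMap.comp_apply, ContinuousLinearMap.inr_apply, resL_apply, h3]
      simp
    simp_rw [h2, h4]
    have h5 : ∑ k, (L (Pi.single k 1) - u k * L u) ^ 2 =
        ∑ k, L (Pi.single k 1) ^ 2 - 2 * L u * (∑ k, L (Pi.single k 1) * u k) +
          L u ^ 2 * ∑ k, u k ^ 2 := by
      rw [Finset.mul_sum, Finset.mul_sum, ← Finset.sum_sub_distrib, ← Finset.sum_add_distrib]
      exact Finset.sum_congr rfl fun k _ => by ring
    rw [h5, ← hLu, hu]
    ring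
  · subst hu
    have hf : (fun p : (Fin n → ℝ) × ℝ => p.1 + (p.2 - dot p.1 (0 : Fin n → ℝ)) •
        (0 : Fin n → ℝ)) = Prod.fst := by
      funext p
      simp
    rw [hf]
    exact measurePreserving_fst

end H90SN
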