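import Pool.Agent.H90.SN.Defs

/-!
Project SN (MP_43ee49_co), helper90, module Shear: Gaussian measure of a set whose sections over the
values of a linear form are in small cubes.

`gaussianReal 0 1 = volume.withDensity (gaussianPDF 0 1)`, `gaussianPDFReal 0 1 x = (√(2π))⁻¹ exp(-x²/2)`.
The measure of `Z` is `∫⁻ p ∫⁻ t 1_Z(p, t) φ(p 0) φ(p 1) φ(p 2) φ(t)`. For fixed `p` substitute
`t = V - ∑ a i p i` (translation invariance), then exchange the integrals (Tonelli):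
`∫⁻ V ∫⁻ p 1_Z(p, V - a·p) φ(p 0) φ(p 1) φ(p 2) φ(V - a·p)`. For fixed `V` the set of the `p` is contained in
a closed cube of side `w` by `h` (each coordinate has diameter at most `w`), volume at most `w^3`, and there
the product is at most `(2π)^(-2) exp(-V²/26)`: Cauchy-Schwarz
`V² = (t + ∑ a i p i)² ≤ (1 + ∑ a i ²) (t² + ∑ p i ²) ≤ 13 (t² + ∑ p i²)`. Finally
`∫ exp(-V²/26) dV = √(26 π) ≤ (2π)²` (`integral_gaussian`).
-/

set_option autoImplicit false

namespace H90SN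

open MeasureTheory ProbabilityTheory Finset

private theorem shear_density :
    gs 3 = (volume : Measure (Fin 3 → ℝ)).withDensity (fun p => ∏ i, gaussianPDF 0 1 (p i)) := by
  classical
  unfold gs
  refine Measure.pi_eq fun s hs => ?_
  rw [withDensity_apply _ (MeasurableSet.univ_pi hs)]
  have h1 : ∀ p : Fin 3 → ℝ, (Set.univ.pi s).indicator (fun p => ∏ i, gaussianPDF 0 1 (p i)) p
      = ENNReal.ofReal (∏ i, (s i).indicator (gaussianPDFReal 0 1) (p i)) := fun p => by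
    rw [ENNReal.ofReal_prod_of_nonneg fun i _ => Set.indicator_nonneg (fun x _ => gaussianPDFReal_nonneg 0 1 x) _]
    by_cases hp : p ∈ Set.univ.pi s
    · rw [Set.indicator_of_mem hp]
      refine Finset.prod_congr rfl fun i _ => ?_
      rw [Set.indicator_of_mem (hp i (Set.mem_univ i))]
      rfl
    · rw [Set.indicator_of_notMem hp]
      obtain ⟨i, hi⟩ : ∃ i, p i ∉ s i := by
        by_contra hcon
        push Not at hcon
        exact hp fun i _ => hcon i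
      symm
      refine Finset.prod_eq_zero (Finset.mem_univ i) ?_
      rw [Set.indicator_of_notMem hi, ENNReal.ofReal_zero]
  rw [← lintegral_indicator (MeasurableSet.univ_pi hs)]
  simp_rw [h1]
  have hint : ∀ i : Fin 3, Integrable ((s i).indicator (gaussianPDFReal 0 1)) := fun i =>
    (integrable_gaussianPDFReal 0 1).indicator (hs i)
  have hI : Integrable (fun p : Fin 3 → ℝ => ∏ i, (s i).indicator (gaussianPDFReal 0 1) (p i)) := Integrable.fintype_prod hint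
  rw [← ofReal_integral_eq_lintegral_ofReal hI (Filter.Eventually.of_forall fun p =>
    Finset.prod_nonneg fun i _ => Set.indicator_nonneg (fun x _ => gaussianPDFReal_nonneg 0 1 x) _),
    integral_fintype_prod_volume_eq_prod (fun i => (s i).indicator (gaussianPDFReal 0 1)),
    ENNReal.ofReal_prod_of_nonneg fun i _ => integral_nonneg fun x => Set.indicator_nonneg (fun x _ => gaussianPDFReal_nonneg 0 1 x) _]
  refine Finset.prod_congr rfl fun i _ => ?_
  rw [gaussianReal_apply_eq_integral 0 one_ne_zero, integral_indicator (hs i)]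

/-- a set in which each coordinate has diameter at most `w` -/
private theorem shear_cube {w : ℝ} (hw : 0 ≤ w) (C : Set (Fin 3 → ℝ)) (h : ∀ p ∈ C, ∀ p' ∈ C, ∀ i, |p i - p' i| ≤ w) :
    volume C ≤ ENNReal.ofReal (w ^ 3) := by
  rcases C.eq_empty_or_nonempty with rfl | ⟨q, hq⟩
  · simp
  · have hb : ∀ i, BddBelow ((fun p : Fin 3 → ℝ => p i) '' C) := fun i => ⟨q i - w, by
      rintro x ⟨p, hp, rfl⟩
      have := (abs_le.1 (h q hq p hp i)).2
      simp only
      linarith⟩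
    set m : Fin 3 → ℝ := fun i => sInf ((fun p : Fin 3 → ℝ => p i) '' C) with hm
    have hsub : C ⊆ Set.Icc m (fun i => m i + w) := by
      intro p hp
      refine ⟨fun i => csInf_le (hb i) ⟨p, hp, rfl⟩, fun i => ?_⟩
      have : p i - w ≤ m i := by
        refine le_csInf ⟨_, ⟨p, hp, rfl⟩⟩ ?_
        rintro x ⟨p', hp', rfl⟩
        have := (abs_le.1 (h p hp p' hp' i)).2
        simp only
        linarith
      simp only
      linarith
    refine (measure_mono hsub).trans ?_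
    rw [Real.volume_Icc_pi]
    simp only [add_sub_cancel_left, Finset.prod_const, Finset.card_univ, Fintype.card_fin]
    rw [ENNReal.ofReal_pow hw]

private theorem shear_pdf (a : Fin 3 → ℝ) (ha : ∀ i, |a i| ≤ 2) (p : Fin 3 → ℝ) (V : ℝ) :
    (∏ i, gaussianPDF 0 1 (p i)) * gaussianPDF 0 1 (V - ∑ i, a i * p i)
      ≤ ENNReal.ofReal (((2 * Real.pi) ^ 2)⁻¹ * Real.exp (-(1 / 26) * V ^ 2)) := by
  have hg : ∀ x : ℝ, gaussianPDFReal 0 1 x = (Real.sqrt (2 * Real.pi))⁻¹ * Real.exp (-x ^ 2 / 2) := fun x => by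
    rw [gaussianPDFReal_def]
    simp
  have h0 : ∀ x : ℝ, 0 ≤ gaussianPDFReal 0 1 x := gaussianPDFReal_nonneg 0 1
  have hprod : (∏ i, gaussianPDF 0 1 (p i)) * gaussianPDF 0 1 (V - ∑ i, a i * p i)
      = ENNReal.ofReal ((∏ i, gaussianPDFReal 0 1 (p i)) * gaussianPDFReal 0 1 (V - ∑ i, a i * p i)) := by
    rw [ENNReal.ofReal_mul (Finset.prod_nonneg fun i _ => h0 _), ENNReal.ofReal_prod_of_nonneg fun i _ => h0 _]
    rfl
  rw [hprod]
  apply ENNReal.ofReal_le_ofReal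
  set t : ℝ := V - ∑ i, a i * p i with ht
  have hV : V = t + ∑ i, a i * p i := by rw [ht]; ring
  rw [Fin.prod_univ_three, hg, hg, hg, hg]
  rw [Fin.sum_univ_three] at hV
  have hs : Real.sqrt (2 * Real.pi) ^ 2 = 2 * Real.pi := Real.sq_sqrt (by positivity)
  have hs4 : ((2 * Real.pi) ^ 2)⁻¹ = (Real.sqrt (2 * Real.pi))⁻¹ ^ 4 := by
    rw [inv_pow, show (4 : ℕ) = 2 * 2 from rfl, pow_mul, hs]
  have hexp : Real.exp (-p 0 ^ 2 / 2) * Real.exp (-p 1 ^ 2 / 2) * Real.exp (-p 2 ^ 2 / 2) * Real.exp (-t ^ 2 / 2)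
      ≤ Real.exp (-(1 / 26) * V ^ 2) := by
    rw [← Real.exp_add, ← Real.exp_add, ← Real.exp_add]
    apply Real.exp_le_exp.2
    have h1 : ∀ i, a i ^ 2 ≤ 4 := fun i => by
      have h2 := ha i
      have h3 := abs_nonneg (a i)
      rw [← sq_abs]
      nlinarith
    have hA : 1 + a 0 ^ 2 + a 1 ^ 2 + a 2 ^ 2 ≤ 13 := by linarith [h1 0, h1 1, h1 2]
    have hS : 0 ≤ t ^ 2 + p 0 ^ 2 + p 1 ^ 2 + p 2 ^ 2 := by positivity
    have hCS : V ^ 2 ≤ (1 + a 0 ^ 2 + a 1 ^ 2 + a 2 ^ 2) * (t ^ 2 + p 0 ^ 2 + p 1 ^ 2 + p 2 ^ 2) := by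
      rw [hV]
      nlinarith [sq_nonneg (p 0 - a 0 * t), sq_nonneg (p 1 - a 1 * t), sq_nonneg (p 2 - a 2 * t), sq_nonneg (a 0 * p 1 - a 1 * p 0),
        sq_nonneg (a 0 * p 2 - a 2 * p 0), sq_nonneg (a 1 * p 2 - a 2 * p 1)]
    have h13 : V ^ 2 ≤ 13 * (t ^ 2 + p 0 ^ 2 + p 1 ^ 2 + p 2 ^ 2) := hCS.trans (mul_le_mul_of_nonneg_right hA hS)
    linarith
  rw [hs4]
  calc (Real.sqrt (2 * Real.pi))⁻¹ * Real.exp (-p 0 ^ 2 / 2) * ((Real.sqrt (2 * Real.pi))⁻¹ * Real.exp (-p 1 ^ 2 / 2)) *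
        ((Real.sqrt (2 * Real.pi))⁻¹ * Real.exp (-p 2 ^ 2 / 2)) * ((Real.sqrt (2 * Real.pi))⁻¹ * Real.exp (-t ^ 2 / 2))
      = (Real.sqrt (2 * Real.pi))⁻¹ ^ 4 * (Real.exp (-p 0 ^ 2 / 2) * Real.exp (-p 1 ^ 2 / 2) * Real.exp (-p 2 ^ 2 / 2) * Real.exp (-t ^ 2 / 2)) := by ring
    _ ≤ (Real.sqrt (2 * Real.pi))⁻¹ ^ 4 * Real.exp (-(1 / 26) * V ^ 2) := by gcongr

theorem shear_gauss {w : ℝ} (hw : 0 ≤ w) (a : Fin 3 → ℝ) (ha : ∀ i, |a i| ≤ 2)
    (Z : Set ((Fin 3 → ℝ) × ℝ)) (hZ : MeasurableSet Z)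
    (h : ∀ p ∈ Z, ∀ p' ∈ Z, p.2 + ∑ i, a i * p.1 i = p'.2 + ∑ i, a i * p'.1 i →
      ∀ i, |p.1 i - p'.1 i| ≤ w) :
    ((gs 3).prod (gaussianReal 0 1)) Z ≤ ENNReal.ofReal (w ^ 3) := by
  have hpdf : Measurable (gaussianPDF 0 1) := measurable_gaussianPDF 0 1
  have hpi : Measurable (fun p : Fin 3 → ℝ => ∏ i, gaussianPDF 0 1 (p i)) :=
    Finset.measurable_prod _ fun i _ => hpdf.comp (measurable_pi_apply i)
  rw [shear_density, gaussianReal_of_var_ne_zero 0 one_ne_zero, prod_withDensity hpi hpdf, withDensity_apply _ hZ, ← lintegral_indicator hZ]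
  set F : (Fin 3 → ℝ) × ℝ → ENNReal := Z.indicator (fun z => (∏ i, gaussianPDF 0 1 (z.1 i)) * gaussianPDF 0 1 z.2) with hF
  have hFm : Measurable F := ((hpi.comp measurable_fst).mul (hpdf.comp measurable_snd)).indicator hZ
  have hlin : Measurable (fun p : Fin 3 → ℝ => ∑ i, a i * p i) := by fun_prop
  rw [lintegral_prod _ hFm.aemeasurable]
  have hshift : ∀ p : Fin 3 → ℝ, ∫⁻ t : ℝ, F (p, t) = ∫⁻ V : ℝ, F (p, V - ∑ i, a i * p i) := fun p =>
    (lintegral_sub_right_eq_self (fun t : ℝ => F (p, t)) (∑ i, a i * p i)).symm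
  simp_rw [hshift]
  have hjoint : Measurable (fun z : (Fin 3 → ℝ) × ℝ => F (z.1, z.2 - ∑ i, a i * z.1 i)) :=
    hFm.comp (measurable_fst.prodMk (measurable_snd.sub (hlin.comp measurable_fst)))
  rw [lintegral_lintegral_swap (f := fun (p : Fin 3 → ℝ) (V : ℝ) => F (p, V - ∑ i, a i * p i)) hjoint.aemeasurable]
  have hV : ∀ V : ℝ, ∫⁻ p : Fin 3 → ℝ, F (p, V - ∑ i, a i * p i)
      ≤ ENNReal.ofReal (((2 * Real.pi) ^ 2)⁻¹ * Real.exp (-(1 / 26) * V ^ 2)) * ENNReal.ofReal (w ^ 3) := fun V => by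
    set C : Set (Fin 3 → ℝ) := {p | (p, V - ∑ i, a i * p i) ∈ Z} with hC
    have hCm : MeasurableSet C := hZ.preimage (measurable_id.prodMk (measurable_const.sub hlin))
    have hle : ∀ p : Fin 3 → ℝ, F (p, V - ∑ i, a i * p i)
        ≤ C.indicator (fun _ => ENNReal.ofReal (((2 * Real.pi) ^ 2)⁻¹ * Real.exp (-(1 / 26) * V ^ 2))) p := fun p => by
      by_cases hp : (p, V - ∑ i, a i * p i) ∈ Z
      · rw [hF, Set.indicator_of_mem hp, Set.indicator_of_mem (show p ∈ C from hp)]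
        exact shear_pdf a ha p V
      · rw [hF, Set.indicator_of_notMem hp]
        exact zero_le
    refine (lintegral_mono hle).trans ?_
    rw [lintegral_indicator hCm, setLIntegral_const]
    refine mul_le_mul_right ?_ _
    refine shear_cube hw C fun p hp p' hp' i => ?_
    refine h (p, V - ∑ i, a i * p i) hp (p', V - ∑ i, a i * p' i) hp' ?_ i
    simp only
    ring
  refine (lintegral_mono hV).trans ?_
  have hint : Integrable (fun V : ℝ => ((2 * Real.pi) ^ 2)⁻¹ * Real.exp (-(1 / 26) * V ^ 2)) :=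
    (integrable_exp_neg_mul_sq (by norm_num)).const_mul _
  rw [lintegral_mul_const _ (by fun_prop), ← ofReal_integral_eq_lintegral_ofReal hint (Filter.Eventually.of_forall fun V => by positivity),
    integral_const_mul, integral_gaussian]
  have hconst : ((2 * Real.pi) ^ 2)⁻¹ * Real.sqrt (Real.pi / (1 / 26)) ≤ 1 := by
    rw [inv_mul_le_iff₀ (by positivity), mul_one, Real.sqrt_le_left (by positivity)]
    have h3 : (3 : ℝ) < Real.pi := Real.pi_gt_three
    have h4 : Real.pi < 4 := Real.pi_lt_four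
    have h5 : (6 : ℝ) ^ 2 ≤ (2 * Real.pi) ^ 2 := by gcongr; linarith
    have h6 : ((6 : ℝ) ^ 2) ^ 2 ≤ ((2 * Real.pi) ^ 2) ^ 2 := by gcongr
    have h7 : Real.pi / (1 / 26) = 26 * Real.pi := by ring
    rw [h7]
    nlinarith
  calc ENNReal.ofReal (((2 * Real.pi) ^ 2)⁻¹ * Real.sqrt (Real.pi / (1 / 26))) * ENNReal.ofReal (w ^ 3)
      ≤ ENNReal.ofReal 1 * ENNReal.ofReal (w ^ 3) := by gcongr
    _ = ENNReal.ofReal (w ^ 3) := by rw [ENNReal.ofReal_one, one_mul]

end H90SN
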