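import Pool.Agent.H90.SN.Hop
import Pool.Agent.H90.SN.OptExists
import Pool.Agent.H90.SN.FaceDist

/-!
Project SN (MP_43ee49_co), helper90, module Trans: one step `S → S.erase l` of the chain.

Nodes `f_k = w0 A ξ + (k ε²) A l = obj A ξ (k ε²) l`, `k = 0, …, K`, on the face `S' = S.erase l`. `y'` is
optimal for `f_0`. `y` is optimal for `f_K` on `S'`: `c' = c + K ε² [· = l]` are its multipliers
(`l ∈ S ⊆ tight A y`), nonnegative off `S'`: for `i ∉ S` by `opt_iff` applied to `hy`, for `i = l` by `hcl`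
(`opt_iff` (←)). For the other `k` choose optimal vertices `y_k` (`obj_opt_exists` with the vertex `y`,
`S' ⊆ tight A y`). For each `k < K` use `hop_card` with `f = f_k`, `f + ε² A l = f_{k+1}`: the hypothesis
`h1` is `GoodAt` at `k+1` for `y_{k+1}` (multipliers exist by `exists_coef`), `h2` is `GoodAt` at `k` for
`y_k`. Then `face_dist` and the triangle inequality `SimpleGraph.edist_triangle`. (Case `K = 0`: `y` and `y'`
are both optimal for `f_0` on `S'`, multipliers off `S'` are `≥ 0` and, by `GoodAt`, `≠ 0`, so `y = y'` by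
`opt_unique`.)
-/

set_option autoImplicit false

namespace H90SN

open H44SD Finset

variable {m n : ℕ} {A : Fin m → Fin n → ℝ}

private theorem trans_obj_zero (ξ : Fin m → ℝ) (l : Fin m) (ε : ℝ) :
    obj A ξ (((0 : ℕ) : ℝ) * ε ^ 2) l = w0 A ξ := by
  unfold obj
  rw [Nat.cast_zero, zero_mul, zero_smul, add_zero]

private theorem trans_obj_succ (ξ : Fin m → ℝ) (l : Fin m) (ε : ℝ) (k : ℕ) :
    obj A ξ (((k + 1 : ℕ) : ℝ) * ε ^ 2) l = obj A ξ ((k : ℝ) * ε ^ 2) l + ε ^ 2 • A l := by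
  unfold obj
  rw [Nat.cast_succ, add_mul, one_mul, add_smul, add_assoc]

/-- the optimum is unique -/
private theorem trans_unique (hN : Nondeg A) {S' : Finset (Fin m)} {l : Fin m} {f : Fin n → ℝ} {ε : ℝ}
    (hG : GoodAt A S' f l ε) {y z : Fin n → ℝ} (hy : Opt A S' f y) (hz : Opt A S' f z) : z = y := by
  obtain ⟨c, hc⟩ := exists_coef hN hy.1 f
  have h1 := ((hG y hy).1 c hc).1
  have h2 := (opt_iff hN hy.1 hc hy.2.1).1 hy.2.2
  have hp : ∀ v ∈ Vert A, v ∈ poly A := fun v hv => ((mem_vert_iff A v).1 hv).1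
  exact opt_unique hy.1 hc (fun i hi => lt_of_le_of_ne (h2 i hi) (Ne.symm (h1 i hi))) (hp z hz.1)
    hz.2.1 (hz.2.2 y (hp y hy.1) hy.2.1)

/-- the induction -/
private theorem trans_ind (hN : Nondeg A) {S : Finset (Fin m)} {l : Fin m} {ξ : Fin m → ℝ}
    (hξ : ∀ j, 0 ≤ ξ j ∧ ξ j ≤ 2) {ε : ℝ} (hε : 0 < ε) {K : ℕ} (hG : GoodXi A S l ξ ε K)
    (x y' : ↥(Vert A)) (hx : S.erase l ⊆ tight A (x : Fin n → ℝ))
    (hy' : Opt A (S.erase l) (w0 A ξ) y') :
    ∀ k : ℕ, k ≤ K → ∀ z : ↥(Vert A), Opt A (S.erase l) (obj A ξ ((k : ℝ) * ε ^ 2) l) z →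
      (pgraph A).edist z y' ≤ ((k * (m + 1) ^ 5 : ℕ) : ℕ∞) := by
  intro k
  induction k with
  | zero =>
    intro hk z hz
    have h0 := hG 0 hk
    rw [trans_obj_zero] at h0 hz
    have h1 : z = y' := Subtype.ext (trans_unique hN h0 hy' hz)
    rw [h1, SimpleGraph.edist_self]
    exact zero_le
  | succ k ih =>
    intro hk z hz
    obtain ⟨v, hv⟩ := obj_opt_exists hN x.2 hx hξ (θ := (k : ℝ) * ε ^ 2) (by positivity) l
    have h1 := hG (k + 1) hk z hz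
    have h2 := hG k (by omega) v hv
    obtain ⟨c, hc⟩ := exists_coef hN z.2 (obj A ξ (((k + 1 : ℕ) : ℝ) * ε ^ 2) l)
    have h3 := (h1.1 c hc).2
    have hz' := hz
    have hc' : Mult A (z : Fin n → ℝ) (obj A ξ (((k + 1 : ℕ) : ℝ) * ε ^ 2) l) c := hc
    rw [trans_obj_succ] at hz' hc'
    have h4 := hop_card hN hε hz' hv hc' h3 h2.2
    have h5 := face_dist hN z ⟨v, hv.1⟩ h4
    have h6 := ih (by omega) ⟨v, hv.1⟩ hv
    calc (pgraph A).edist z y' ≤ (pgraph A).edist z ⟨v, hv.1⟩ + (pgraph A).edist ⟨v, hv.1⟩ y' :=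
          SimpleGraph.edist_triangle
      _ ≤ (((m + 1) ^ 5 : ℕ) : ℕ∞) + ((k * (m + 1) ^ 5 : ℕ) : ℕ∞) := add_le_add h5 h6
      _ = (((k + 1) * (m + 1) ^ 5 : ℕ) : ℕ∞) := by
          rw [← Nat.cast_add]
          congr 1
          ring

theorem trans_dist (hN : Nondeg A) {S : Finset (Fin m)} {l : Fin m} (hl : l ∈ S) {ξ : Fin m → ℝ}
    (hξ : ∀ j, 0 ≤ ξ j ∧ ξ j ≤ 2) {ε : ℝ} (hε : 0 < ε) {K : ℕ} (hG : GoodXi A S l ξ ε K)
    (y y' : ↥(Vert A)) (hy : Opt A S (w0 A ξ) y) {c : Fin m → ℝ}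
    (hc : Mult A (y : Fin n → ℝ) (w0 A ξ) c) (hcl : -(K * ε ^ 2) ≤ c l)
    (hy' : Opt A (S.erase l) (w0 A ξ) y') :
    (pgraph A).edist y y' ≤ ((K * (m + 1) ^ 5 : ℕ) : ℕ∞) := by
  have hS' : S.erase l ⊆ tight A (y : Fin n → ℝ) := (erase_subset l S).trans hy.2.1
  refine trans_ind hN hξ hε hG y y' hS' hy' K le_rfl y ?_
  have hlt : l ∈ tight A (y : Fin n → ℝ) := hy.2.1 hl
  have hmult : Mult A (y : Fin n → ℝ) (obj A ξ ((K : ℝ) * ε ^ 2) l)
      (fun i => c i + if i = l then (K : ℝ) * ε ^ 2 else 0) := by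
    have h1 : ∑ i ∈ tight A (y : Fin n → ℝ), (c i + if i = l then (K : ℝ) * ε ^ 2 else 0) • A i =
        ∑ i ∈ tight A (y : Fin n → ℝ), c i • A i +
          ∑ i ∈ tight A (y : Fin n → ℝ), (if i = l then (K : ℝ) * ε ^ 2 else 0) • A i := by
      rw [← sum_add_distrib]
      exact sum_congr rfl fun i _ => add_smul _ _ _
    have h2 : ∑ i ∈ tight A (y : Fin n → ℝ), (if i = l then (K : ℝ) * ε ^ 2 else 0) • A i =
        ((K : ℝ) * ε ^ 2) • A l := by
      rw [sum_eq_single_of_mem l hlt fun i _ hi => by rw [if_neg hi, zero_smul], if_pos rfl]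
    unfold Mult
    rw [h1, h2]
    unfold obj
    rw [show w0 A ξ = _ from hc]
  refine ⟨y.2, hS', (opt_iff hN y.2 hmult hS').2 fun i hi => ?_⟩
  obtain ⟨hi1, hi2⟩ := mem_sdiff.1 hi
  have h3 := (opt_iff hN y.2 hc hy.2.1).1 hy.2.2
  by_cases hil : i = l
  · simp only [hil, if_true]
    linarith
  · simp only [hil, if_false, add_zero]
    refine h3 i (mem_sdiff.2 ⟨hi1, fun hiS => hi2 (mem_erase.2 ⟨hil, hiS⟩)⟩)

end H90SN
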