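import Pool.Agent.H90.SN.Chain
import Pool.Agent.H90.SN.GoodTwo
import Pool.Agent.H90.SN.GoodOne
import Pool.Agent.H90.SN.OneBound
import Pool.Agent.H44.SD.NondegAE
import Pool.Agent.H44.SD.TailProb

/-!
Project SN (MP_43ee49_co), helper90, module Union: the probability that two nice vertices are far apart.

`p = 8 n (K+1) m^4 ((2R/σ) ε)^3`. For each `S` with `2 ≤ S.card` choose `l0 S ∈ S`. The set is contained in
`{¬ Nondeg}` (measure `0`, `nondeg_ae`) ∪ `{∃ i j, Λ < |G i j|}` (`tail_prob`) ∪ the sets of `prod_bound` for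
all `S` with at least two elements ∪ the sets of `one_bound` for all `l`: outside these, `row_l1` gives the
row bound `R`, `HS` of `chain_dist` holds (for `S = {l}` by `good_one`, for `2 ≤ S.card` some `l ∈ S.erase l0`
fails the event and `good_two` applies), and `chain_dist` gives the bound. Sum of the measures:
`∑_{2 ≤ |S|} p^(|S|-1) ≤ ∑_{t ≥ 2} m^t p^(t-1) ≤ 2 m² p` (`m p ≤ 1/2`) and `m * (n p)`.
-/

set_option autoImplicit false

namespace H90SN

open H44SD Finset MeasureTheory ProbabilityTheory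

/-- the sum over the sets with at least two elements -/
private theorem sum_sets {m : ℕ} {p : ℝ} (hp0 : 0 ≤ p) (hmp : m * p ≤ 1 / 2) :
    ∑ S ∈ (univ : Finset (Finset (Fin m))).filter (fun S => 2 ≤ S.card), p ^ (S.card - 1) ≤
      2 * m ^ 2 * p := by
  rcases hp0.eq_or_lt with h0 | h0
  · subst h0
    refine (Finset.sum_eq_zero ?_).trans_le (by simp)
    intro S hS
    have h2 : 2 ≤ S.card := (Finset.mem_filter.1 hS).2
    exact zero_pow (by omega)
  · have hm0 : (0 : ℝ) ≤ m := Nat.cast_nonneg m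
    have hx0 : 0 ≤ m * p := mul_nonneg hm0 h0.le
    -- the full sum
    have h1 : ∑ S : Finset (Fin m), p ^ S.card = (p + 1) ^ m := by
      rw [← Fin.sum_pow_mul_eq_add_pow]
      exact Finset.sum_congr rfl fun S _ => by rw [one_pow, mul_one]
    have h2 : (p + 1) ^ m ≤ 1 + m * p + (m * p) ^ 2 := by
      have h3 : (p + 1) ^ m ≤ Real.exp (m * p) := by
        have h4 : p + 1 ≤ Real.exp p := Real.add_one_le_exp p
        calc (p + 1) ^ m ≤ Real.exp p ^ m := pow_le_pow_left₀ (by linarith) h4 m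
          _ = Real.exp (m * p) := by rw [← Real.exp_nat_mul]
      have h5 := Real.abs_exp_sub_one_sub_id_le (x := m * p)
        (by rw [abs_of_nonneg hx0]; linarith)
      have h6 := (abs_le.1 h5).2
      linarith
    -- the small sets
    have h3 : 1 + m * p ≤
        ∑ S ∈ (univ : Finset (Finset (Fin m))).filter (fun S => ¬ 2 ≤ S.card), p ^ S.card := by
      have hsub : insert ∅ ((univ : Finset (Fin m)).image (fun i => ({i} : Finset (Fin m)))) ⊆
          (univ : Finset (Finset (Fin m))).filter (fun S => ¬ 2 ≤ S.card) := by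
        intro S hS
        rw [Finset.mem_insert, Finset.mem_image] at hS
        rw [Finset.mem_filter]
        refine ⟨Finset.mem_univ _, ?_⟩
        rcases hS with hS | ⟨i, _, hS⟩
        · subst hS; simp
        · subst hS; simp
      have hnot : ∅ ∉ (univ : Finset (Fin m)).image (fun i => ({i} : Finset (Fin m))) := by
        simp
      have h4 : ∑ S ∈ insert ∅ ((univ : Finset (Fin m)).image (fun i => ({i} : Finset (Fin m)))),
          p ^ S.card = 1 + m * p := by
        rw [Finset.sum_insert hnot, Finset.sum_image (by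
          intro a _ b _ hab
          exact Finset.singleton_injective hab)]
        simp
      rw [← h4]
      exact Finset.sum_le_sum_of_subset_of_nonneg hsub fun _ _ _ => pow_nonneg h0.le _
    have h4 := Finset.sum_filter_add_sum_filter_not (univ : Finset (Finset (Fin m)))
      (fun S => 2 ≤ S.card) (fun S => p ^ S.card)
    have h5 : ∑ S ∈ (univ : Finset (Finset (Fin m))).filter (fun S => 2 ≤ S.card), p ^ S.card =
        p * ∑ S ∈ (univ : Finset (Finset (Fin m))).filter (fun S => 2 ≤ S.card),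
          p ^ (S.card - 1) := by
      rw [Finset.mul_sum]
      refine Finset.sum_congr rfl ?_
      intro S hS
      have h2 : 2 ≤ S.card := (Finset.mem_filter.1 hS).2
      rw [← pow_succ']
      congr 1
      omega
    have h6 : p * ∑ S ∈ (univ : Finset (Finset (Fin m))).filter (fun S => 2 ≤ S.card),
        p ^ (S.card - 1) ≤ p * (m ^ 2 * p) := by
      rw [← h5]
      have : p * (m ^ 2 * p) = (m * p) ^ 2 := by ring
      rw [this]
      linarith
    have h7 := le_of_mul_le_mul_left h6 h0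
    have h8 : (m : ℝ) ^ 2 * p ≤ 2 * m ^ 2 * p := by
      have : 0 ≤ (m : ℝ) ^ 2 * p := by positivity
      linarith
    linarith

theorem union_bound {m n : ℕ} (hn : 1 ≤ n) (Abar : Fin m → Fin n → ℝ)
    (hA : ∑ i, ∑ j, Abar i j ^ 2 ≤ 1) {σ δ R Λ ε p : ℝ} (hσ : 0 < σ) (hδ : 0 < δ) (hδ1 : δ ≤ 1)
    (hR : 1 ≤ R) (hΛ : 0 ≤ Λ) (hRΛ : n * (1 + σ * Λ) ≤ R) (hε0 : 0 < ε) (hε : ε < 1)
    {N K b : ℕ} (hN0 : 0 < N) (hb : ε * N ≤ b)
    (hsmall : 8 * n * ((K + 1) * (m * N ^ 2 + m ^ 3 * b ^ 3)) ≤ N ^ 3)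
    (hK : 14 * m * n * R ^ 3 / δ ^ 4 ≤ K * ε ^ 2)
    (hp : 8 * n * (K + 1) * m ^ 4 * (2 * R / σ * ε) ^ 3 ≤ p) (hmp : m * p ≤ 1 / 2) :
    gm m n {G | ¬ ∀ x y : ↥(Vert (pert Abar σ G)), Nice (pert Abar σ G) δ x →
      Nice (pert Abar σ G) δ y →
      (pgraph (pert Abar σ G)).edist x y ≤ ((2 * (n * (K * (m + 1) ^ 5)) : ℕ) : ℕ∞)} ≤
      ENNReal.ofReal (m * n * (2 * Real.exp (-Λ ^ 2 / 2)) + 2 * m ^ 2 * p + m * (n * p)) := by
  classical
  have hR0 : 0 < R := by linarith
  have hκ : 0 ≤ 2 * R / σ := by positivity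
  have hp00 : 0 ≤ 8 * n * (K + 1) * (m : ℝ) ^ 4 * (2 * R / σ * ε) ^ 3 := by positivity
  have hp0 : 0 ≤ p := hp00.trans hp
  set κ : ℝ := 2 * R / σ with hκd
  -- the exceptional sets
  let A1 : Set (Fin m → Fin n → ℝ) := {G | ¬ Nondeg (pert Abar σ G)}
  let A2 : Set (Fin m → Fin n → ℝ) := {G | ∃ i j, Λ < |G i j|}
  let PB : Finset (Fin m) → Set (Fin m → Fin n → ℝ) := fun S =>
    {G | ∃ h : S.Nonempty, ∀ l ∈ S.erase h.choose, N ^ m < 8 * n * CB (pert Abar σ G) S l N K ε κ
      (σ • unit (pert Abar σ G h.choose - pert Abar σ G l))}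
  let OB : Fin m → Set (Fin m → Fin n → ℝ) := fun l =>
    {G | N ^ m < 8 * n * ∑ k : Fin n, CB (pert Abar σ G) {l} l N K ε κ
      (σ • (Pi.single k 1 : Fin n → ℝ))}
  let W : Finset (Finset (Fin m)) := univ.filter (fun S => 2 ≤ S.card)
  have hsub : {G | ¬ ∀ x y : ↥(Vert (pert Abar σ G)), Nice (pert Abar σ G) δ x →
      Nice (pert Abar σ G) δ y →
      (pgraph (pert Abar σ G)).edist x y ≤ ((2 * (n * (K * (m + 1) ^ 5)) : ℕ) : ℕ∞)} ⊆
      ((A1 ∪ A2) ∪ (⋃ S ∈ W, PB S)) ∪ (⋃ l : Fin m, OB l) := by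
    intro G hG
    by_contra hcon
    rw [Set.mem_union, Set.mem_union, Set.mem_union] at hcon
    push Not at hcon
    obtain ⟨⟨⟨h1, h2⟩, h3⟩, h4⟩ := hcon
    apply hG
    have hN : Nondeg (pert Abar σ G) := by
      by_contra h
      exact h1 h
    have hbd : ∀ i j, |G i j| ≤ Λ := by
      intro i j
      by_contra h
      exact h2 ⟨i, j, not_le.1 h⟩
    have hrow : ∀ i, ∑ k, |pert Abar σ G i k| ≤ R := row_l1 Abar hA hσ hRΛ hbd
    have HS : ∀ S : Finset (Fin m), S.Nonempty → ∀ x ∈ Vert (pert Abar σ G),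
        S ⊆ tight (pert Abar σ G) x → ∃ l ∈ S,
        4 * n * ((univ : Finset (Fin m → Fin N)).filter
          (fun ι => ¬ GoodXi (pert Abar σ G) S l (xi ι) ε K)).card ≤ N ^ m := by
      intro S hS x hx hSx
      by_cases hc : 2 ≤ S.card
      · have h5 : G ∉ PB S := by
          intro h
          exact h3 (Set.mem_iUnion₂.2 ⟨S, Finset.mem_filter.2 ⟨Finset.mem_univ _, hc⟩, h⟩)
        have h6 : ¬ ∀ l ∈ S.erase hS.choose, N ^ m < 8 * n * CB (pert Abar σ G) S l N K ε κ
            (σ • unit (pert Abar σ G hS.choose - pert Abar σ G l)) := fun h => h5 ⟨hS, h⟩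
        push Not at h6
        obtain ⟨l, hl, h7⟩ := h6
        refine ⟨l, Finset.mem_of_mem_erase hl, ?_⟩
        have := good_two hN hσ hrow hS.choose_spec hl hx hSx hN0 hε0 hε hb hsmall (not_lt.2 h7)
        convert this
      · have hc1 : S.card = 1 := by
          have := hS.card_pos
          omega
        obtain ⟨l, hl⟩ := Finset.card_eq_one.1 hc1
        subst hl
        refine ⟨l, Finset.mem_singleton_self l, ?_⟩
        have h5 : ¬ (N ^ m < 8 * n * ∑ k : Fin n, CB (pert Abar σ G) {l} l N K ε κ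
            (σ • (Pi.single k 1 : Fin n → ℝ))) := by
          intro h
          exact h4 (Set.mem_iUnion.2 ⟨l, h⟩)
        have := good_one hN hn hσ hrow l hN0 hε0 hε hb hsmall h5
        convert this
    intro x y hx hy
    refine chain_dist hN hδ hδ1 hR hrow hN0 hε0 hK ?_ x y hx hy
    intro S hS x hx hSx
    obtain ⟨l, hl, h⟩ := HS S hS x hx hSx
    refine ⟨l, hl, ?_⟩
    convert h
  -- the measures
  have hm1 : gm m n A1 = 0 := by
    have := nondeg_ae Abar hA hσ
    rw [ae_iff] at this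
    exact this
  have hm2 : gm m n A2 ≤ ENNReal.ofReal (m * n * (2 * Real.exp (-Λ ^ 2 / 2))) := tail_prob m n hΛ
  have hm3 : gm m n (⋃ S ∈ W, PB S) ≤ ENNReal.ofReal (2 * m ^ 2 * p) := by
    refine (measure_biUnion_finset_le W PB).trans ?_
    refine (Finset.sum_le_sum (g := fun S : Finset (Fin m) => ENNReal.ofReal (p ^ (S.card - 1)))
      ?_).trans ?_
    · intro S hS
      have hc : 2 ≤ S.card := (Finset.mem_filter.1 hS).2
      have hne : S.Nonempty := Finset.card_pos.1 (by omega)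
      have h1 : PB S ⊆ {G | ∀ l ∈ S.erase hne.choose, N ^ m < 8 * n *
          CB (pert Abar σ G) S l N K ε κ
          (σ • unit (pert Abar σ G hne.choose - pert Abar σ G l))} := by
        rintro G ⟨h, hG⟩
        exact hG
      refine (measure_mono h1).trans ?_
      refine (prod_bound Abar σ S hne.choose_spec N K hN0 hε0.le hκ).trans ?_
      rw [ENNReal.ofReal_pow hp0]
      exact pow_le_pow_left' (ENNReal.ofReal_le_ofReal hp) _
    · rw [← ENNReal.ofReal_sum_of_nonneg (fun S _ => pow_nonneg hp0 _)]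
      exact ENNReal.ofReal_le_ofReal (sum_sets hp0 hmp)
  have hm4 : gm m n (⋃ l : Fin m, OB l) ≤ ENNReal.ofReal (m * (n * p)) := by
    refine (measure_iUnion_fintype_le _ _).trans ?_
    have h1 : ∀ l : Fin m, gm m n (OB l) ≤ ENNReal.ofReal (n * p) := by
      intro l
      refine (one_bound Abar σ l N K hN0 hε0.le hκ).trans ?_
      exact ENNReal.ofReal_le_ofReal (mul_le_mul_of_nonneg_left hp (Nat.cast_nonneg n))
    calc ∑ l : Fin m, gm m n (OB l) ≤ ∑ _l : Fin m, ENNReal.ofReal (n * p) :=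
          Finset.sum_le_sum fun l _ => h1 l
      _ = ENNReal.ofReal (m * (n * p)) := by
          rw [← ENNReal.ofReal_sum_of_nonneg (fun _ _ => mul_nonneg (Nat.cast_nonneg n) hp0)]
          simp
  have hnn1 : 0 ≤ m * n * (2 * Real.exp (-Λ ^ 2 / 2)) := by positivity
  have hnn2 : 0 ≤ 2 * (m : ℝ) ^ 2 * p := by positivity
  have hnn3 : 0 ≤ (m : ℝ) * (n * p) := by positivity
  calc gm m n {G | ¬ ∀ x y : ↥(Vert (pert Abar σ G)), Nice (pert Abar σ G) δ x →
      Nice (pert Abar σ G) δ y →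
      (pgraph (pert Abar σ G)).edist x y ≤ ((2 * (n * (K * (m + 1) ^ 5)) : ℕ) : ℕ∞)}
      ≤ gm m n (((A1 ∪ A2) ∪ (⋃ S ∈ W, PB S)) ∪ (⋃ l : Fin m, OB l)) := measure_mono hsub
    _ ≤ ((gm m n A1 + gm m n A2) + gm m n (⋃ S ∈ W, PB S)) + gm m n (⋃ l : Fin m, OB l) := by
        refine (measure_union_le _ _).trans (add_le_add ?_ le_rfl)
        refine (measure_union_le _ _).trans (add_le_add ?_ le_rfl)
        exact measure_union_le _ _
    _ ≤ ((0 + ENNReal.ofReal (m * n * (2 * Real.exp (-Λ ^ 2 / 2)))) +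
          ENNReal.ofReal (2 * m ^ 2 * p)) + ENNReal.ofReal (m * (n * p)) := by
        rw [hm1]
        exact add_le_add (add_le_add (add_le_add le_rfl hm2) hm3) hm4
    _ = ENNReal.ofReal (m * n * (2 * Real.exp (-Λ ^ 2 / 2)) + 2 * m ^ 2 * p + m * (n * p)) := by
        rw [zero_add, ENNReal.ofReal_add (add_nonneg hnn1 hnn2) hnn3,
          ENNReal.ofReal_add hnn1 hnn2]

end H90SN
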