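import Pool.Agent.H90.SN.OptMult

/-!
Project SN (MP_43ee49_co), helper90, module Uniq: for two objectives which differ by a combination of
the rows of `J`, tight at both optima, the multipliers of these rows differ by the coefficients.

Let `g = f - ∑_{J} c j A j = ∑_{tight A y \ J} c i A i` and `g' = f' - ∑_{J} c' j A j`. Then
`g - g' = ∑_J (t j - c j + c' j) A j`, so `dot (g - g') (y - y') = 0` (the rows of `J` are tight at both).
`dot g (y - y') = ∑_{tight A y \ J} c i * slk A i y' ≥ 0` (slack `0` on `S'`, `c i ≥ 0` off `S'`) and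
`dot g' (y' - y) ≥ 0`; the sum is `0`, so all terms vanish: `c i = 0` for `i ∈ tight A y \ J`, `i ∉ S'`,
`i ∉ tight A y'`, and the same with the roles exchanged. So `g` and `g'` are combinations of the rows of
`(tight A y ∩ tight A y') \ J` and
`∑_J (t j - c j + c' j) A j = ∑_{(tight A y ∩ tight A y') \ J} (c i - c' i) A i`; pairing with the direction of
`exists_dir` (at `y`, row `j ∈ J`) gives `t j - c j + c' j = 0`.
-/

set_option autoImplicit false

namespace H90SN

open H44SD Finset

variable {m n : ℕ} {A : Fin m → Fin n → ℝ}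

theorem mult_shift (hN : Nondeg A) {S' J : Finset (Fin m)} {y y' f f' : Fin n → ℝ}
    {c c' t : Fin m → ℝ} (hy : y ∈ Vert A) (hy' : y' ∈ Vert A) (hS : S' ⊆ tight A y)
    (hS' : S' ⊆ tight A y') (hc : Mult A y f c) (hc' : Mult A y' f' c')
    (hp : ∀ i ∈ tight A y \ S', 0 ≤ c i) (hp' : ∀ i ∈ tight A y' \ S', 0 ≤ c' i)
    (hJ : J ⊆ tight A y \ S') (hJ' : J ⊆ tight A y' \ S') (hf : f - f' = ∑ j ∈ J, t j • A j) :
    ∀ j ∈ J, t j = c j - c' j := by
  classical
  have hJT : ∀ j ∈ J, j ∈ tight A y := fun j hj => (mem_sdiff.1 (hJ hj)).1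
  have hJT' : ∀ j ∈ J, j ∈ tight A y' := fun j hj => (mem_sdiff.1 (hJ' hj)).1
  have h1 := dot_sub_eq hc y'
  have h2 := dot_sub_eq hc' y
  have h3 : dot (f - f') (y - y') = 0 := by
    rw [hf, sum_dot]
    refine Finset.sum_eq_zero fun j hj => ?_
    rw [smul_dot, dot_sub, mem_tight.1 (hJT j hj), mem_tight.1 (hJT' j hj)]
    ring
  rw [dot_sub, sub_dot, sub_dot] at h3
  have hpos : ∀ i ∈ tight A y, 0 ≤ c i * slk A i y' := by
    intro i hi
    by_cases hiS : i ∈ S'
    · rw [slk_eq_zero.2 (hS' hiS), mul_zero]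
    · exact mul_nonneg (hp i (mem_sdiff.2 ⟨hi, hiS⟩)) (slk_nonneg hy'.1)
  have hpos' : ∀ i ∈ tight A y', 0 ≤ c' i * slk A i y := by
    intro i hi
    by_cases hiS : i ∈ S'
    · rw [slk_eq_zero.2 (hS hiS), mul_zero]
    · exact mul_nonneg (hp' i (mem_sdiff.2 ⟨hi, hiS⟩)) (slk_nonneg hy.1)
  have hs := Finset.sum_nonneg hpos
  have hs' := Finset.sum_nonneg hpos'
  have hz : ∑ i ∈ tight A y, c i * slk A i y' = 0 := by linarith
  have hz' : ∑ i ∈ tight A y', c' i * slk A i y = 0 := by linarith
  have hc0 : ∀ i ∈ tight A y, i ∉ tight A y' → c i = 0 := by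
    intro i hi hi'
    have h4 := (Finset.sum_eq_zero_iff_of_nonneg hpos).1 hz i hi
    rcases mul_eq_zero.1 h4 with h5 | h5
    · exact h5
    · exact absurd (slk_eq_zero.1 h5) hi'
  have hc0' : ∀ i ∈ tight A y', i ∉ tight A y → c' i = 0 := by
    intro i hi hi'
    have h4 := (Finset.sum_eq_zero_iff_of_nonneg hpos').1 hz' i hi
    rcases mul_eq_zero.1 h4 with h5 | h5
    · exact h5
    · exact absurd (slk_eq_zero.1 h5) hi'
  have m1 : Mult A y (f - f') (fun i => if i ∈ tight A y' then c i - c' i else 0) := by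
    unfold Mult at hc hc' ⊢
    have e1 : f = ∑ i ∈ tight A y ∩ tight A y', c i • A i := by
      rw [hc]
      symm
      refine Finset.sum_subset inter_subset_left fun i hi hni => ?_
      rw [hc0 i hi (fun h => hni (mem_inter.2 ⟨hi, h⟩)), zero_smul]
    have e2 : f' = ∑ i ∈ tight A y ∩ tight A y', c' i • A i := by
      rw [hc']
      symm
      refine Finset.sum_subset inter_subset_right fun i hi hni => ?_
      rw [hc0' i hi (fun h => hni (mem_inter.2 ⟨h, hi⟩)), zero_smul]
    have e3 : ∑ i ∈ tight A y, (if i ∈ tight A y' then c i - c' i else 0) • A i =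
        ∑ i ∈ tight A y ∩ tight A y', (c i - c' i) • A i := by
      symm
      rw [← Finset.filter_mem_eq_inter, Finset.sum_filter]
      refine Finset.sum_congr rfl fun i _ => ?_
      by_cases h : i ∈ tight A y'
      · simp [h]
      · simp [h]
    rw [e3]
    conv_lhs => rw [e1, e2]
    rw [← Finset.sum_sub_distrib]
    refine Finset.sum_congr rfl fun i _ => ?_
    rw [sub_smul]
  have m2 : Mult A y (f - f') (fun i => if i ∈ J then t i else 0) := by
    unfold Mult
    rw [hf]
    have e1 : J = (tight A y).filter (fun i => i ∈ J) := by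
      ext j
      rw [mem_filter]
      exact ⟨fun h => ⟨hJT j h, h⟩, fun h => h.2⟩
    conv_lhs => rw [e1, Finset.sum_filter]
    refine Finset.sum_congr rfl fun i _ => ?_
    by_cases h : i ∈ J
    · simp [h]
    · simp [h]
  intro j hj
  have h4 := mult_unique hN hy m1 m2 j (hJT j hj)
  simp only [hJT' j hj, hj, if_true] at h4
  exact h4.symm

end H90SN
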